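import Pool.Agent.H666.LRC.Defs

set_option autoImplicit false

/-! Part T10 of the project LRC: a positive kernel. -/

namespace Pool.Agent.H666.LRC.P162

/-- `∫ (1 - t) cos (c t)` over `[0, 1]` -/
noncomputable def J (c : ℝ) : ℝ := ∫ t in (0 : ℝ)..1, (1 - t) * Real.cos (c * t)

theorem J_mul (c : ℝ) : J c * c ^ 2 = 1 - Real.cos c := by
  by_cases hc : c = 0
  · subst hc
    simp
  · have h1 : J c = ((1 - 1) * (Real.sin (c * 1) / c) - Real.cos (c * 1) / c ^ 2) -
        ((1 - 0) * (Real.sin (c * 0) / c) - Real.cos (c * 0) / c ^ 2) := by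
      unfold J
      rw [intervalIntegral.integral_eq_sub_of_hasDerivAt
        (f := fun t => (1 - t) * (Real.sin (c * t) / c) - Real.cos (c * t) / c ^ 2)]
      · intro t _
        have hs : HasDerivAt (fun t => Real.sin (c * t)) (Real.cos (c * t) * (c * 1)) t :=
          ((hasDerivAt_id t).const_mul c).sin
        have hco : HasDerivAt (fun t => Real.cos (c * t)) (-Real.sin (c * t) * (c * 1)) t :=
          ((hasDerivAt_id t).const_mul c).cos
        have h1t : HasDerivAt (fun t : ℝ => 1 - t) (-1) t := by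
          simpa using (hasDerivAt_id t).const_sub 1
        have h := (h1t.mul (hs.div_const c)).sub (hco.div_const (c ^ 2))
        refine h.congr_deriv ?_
        field_simp
        ring
      · apply Continuous.intervalIntegrable
        fun_prop
    rw [h1]
    simp only [mul_one, mul_zero, Real.sin_zero, Real.cos_zero, sub_self, zero_mul, zero_sub,
      zero_div]
    field_simp
    ring

theorem J_nonneg (c : ℝ) : 0 ≤ J c := by
  by_cases hc : c = 0
  · subst hc
    unfold J
    apply intervalIntegral.integral_nonneg (by norm_num)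
    intro t ht
    simp only [zero_mul, Real.cos_zero, mul_one]
    linarith [ht.2]
  · have h1 := J_mul c
    have h2 := Real.cos_le_one c
    have h3 : 0 < c ^ 2 := by positivity
    by_contra h
    push Not at h
    nlinarith

theorem ct_eq (x : ℝ) : Pool.Agent.H666.LRC.ct Pool.Agent.H666.LRC.gF x =
    2 * J (2 * Real.pi * x) + J (2 * Real.pi * x - Real.pi) + J (2 * Real.pi * x + Real.pi) := by
  unfold Pool.Agent.H666.LRC.ct Pool.Agent.H666.LRC.gF J
  have e : ∀ t : ℝ, (1 - t) * (1 + Real.cos (Real.pi * t)) * Real.cos (2 * Real.pi * x * t) =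
      (1 - t) * Real.cos (2 * Real.pi * x * t) +
        ((1 / 2) * ((1 - t) * Real.cos ((2 * Real.pi * x - Real.pi) * t)) +
          (1 / 2) * ((1 - t) * Real.cos ((2 * Real.pi * x + Real.pi) * t))) := by
    intro t
    have h1 : (2 * Real.pi * x - Real.pi) * t = 2 * Real.pi * x * t - Real.pi * t := by ring
    have h2 : (2 * Real.pi * x + Real.pi) * t = 2 * Real.pi * x * t + Real.pi * t := by ring
    rw [h1, h2, Real.cos_sub, Real.cos_add]
    ring
  have c0 : ∀ c : ℝ, IntervalIntegrable (fun t : ℝ => (1 - t) * Real.cos (c * t))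
      MeasureTheory.volume 0 1 := fun c => by
    apply Continuous.intervalIntegrable
    fun_prop
  rw [intervalIntegral.integral_congr (fun t _ => e t)]
  rw [intervalIntegral.integral_add (c0 _) (((c0 _).const_mul _).add ((c0 _).const_mul _)),
    intervalIntegral.integral_add ((c0 _).const_mul _) ((c0 _).const_mul _),
    intervalIntegral.integral_const_mul, intervalIntegral.integral_const_mul]
  ring

theorem two_sum (a b m u v : ℝ) (ha : 0 ≤ a) (hb : 0 ≤ b) (hu : 0 ≤ u) (hv : 0 ≤ v)
    (_hm : 0 ≤ m) (h1 : u * a = m) (h2 : v * b = m) : 4 * m ≤ (u + v) * (a + b) := by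
  have h3 : (u * b) * (v * a) = m ^ 2 := by
    calc (u * b) * (v * a) = (u * a) * (v * b) := by ring
      _ = m ^ 2 := by rw [h1, h2]; ring
  have h4 : 0 ≤ u * b := mul_nonneg hu hb
  have h5 : 0 ≤ v * a := mul_nonneg hv ha
  have h6 : 2 * m ≤ u * b + v * a := by
    apply le_of_sq_le_sq' _ (by linarith)
    nlinarith [sq_nonneg (u * b - v * a)]
  nlinarith
where
  le_of_sq_le_sq' {x y : ℝ} (h : x ^ 2 ≤ y ^ 2) (hy : 0 ≤ y) : x ≤ y := by
    by_contra hxy
    push Not at hxy
    nlinarith

theorem T10 : Pool.Agent.H666.LRC.S_kernel := by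
  intro x
  rw [ct_eq]
  have hpi := Real.pi_pos
  set c : ℝ := 2 * Real.pi * x with hc
  have hD : 0 < c ^ 2 + Real.pi ^ 2 := by positivity
  have h1 := J_mul c
  have h2 := J_mul (c - Real.pi)
  have h3 := J_mul (c + Real.pi)
  rw [Real.cos_sub_pi] at h2
  rw [Real.cos_add_pi] at h3
  have n1 := J_nonneg c
  have n2 := J_nonneg (c - Real.pi)
  have n3 := J_nonneg (c + Real.pi)
  have hm : 0 ≤ 1 + Real.cos c := by
    have := Real.neg_one_le_cos c
    linarith
  have h4 := two_sum ((c - Real.pi) ^ 2) ((c + Real.pi) ^ 2) (1 + Real.cos c) (J (c - Real.pi))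
    (J (c + Real.pi)) (sq_nonneg _) (sq_nonneg _) n2 n3 hm (by linarith) (by linarith)
  have h5 : (c - Real.pi) ^ 2 + (c + Real.pi) ^ 2 = 2 * (c ^ 2 + Real.pi ^ 2) := by ring
  rw [h5] at h4
  have h6 : 4 ≤ (2 * J c + J (c - Real.pi) + J (c + Real.pi)) * (c ^ 2 + Real.pi ^ 2) := by
    have : 0 ≤ J c * Real.pi ^ 2 := by positivity
    nlinarith
  have h7 : 4 / (c ^ 2 + Real.pi ^ 2) ≤ 2 * J c + J (c - Real.pi) + J (c + Real.pi) := by
    rw [div_le_iff₀ hD]
    exact h6
  refine le_trans ?_ h7
  rw [div_le_div_iff₀ (by positivity) hD, hc]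
  nlinarith [sq_nonneg x, sq_nonneg Real.pi, mul_nonneg (sq_nonneg Real.pi) (sq_nonneg x)]

end Pool.Agent.H666.LRC.P162
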