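import Pool.Agent.H666.LRC.Defs

/-! Project LRC, T12: the pointwise comparison. -/

open Filter Topology MeasureTheory

namespace Pool.Agent.H666.LRC.P163

theorem T12 : Pool.Agent.H666.LRC.S_pt := by
  intro f C hC hf hlip h hh ε hε
  obtain ⟨A, hA⟩ : ∃ A : ℝ, A = 1 + 4 * C / ε := ⟨_, rfl⟩
  have hA1 : 1 ≤ A := by rw [hA]; have : 0 ≤ 4 * C / ε := by positivity
                         linarith
  have hA2 : C ≤ ε / 4 * A := by
    rw [hA]
    have : ε / 4 * (1 + 4 * C / ε) = ε / 4 + C := by field_simp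
    rw [this]
    linarith
  have hA3 : A ≤ 1 + A ^ 2 := by nlinarith
  have hCA : C / (1 + A ^ 2) ≤ ε / 4 := by
    rw [div_le_iff₀ (by positivity)]
    exact hA2.trans (mul_le_mul_of_nonneg_left hA3 (by positivity))
  have hA0 : 0 < A := by linarith
  obtain ⟨η, hη⟩ : ∃ η : ℝ, η = ε / (4 * (C * A + 1)) := ⟨_, rfl⟩
  have hη0 : 0 < η := by rw [hη]; positivity
  have hη1 : C * A * η ≤ ε / 4 := by
    have h1 : η * (4 * (C * A + 1)) = ε := by rw [hη]; field_simp
    nlinarith
  obtain ⟨L0, hL0⟩ : ∃ L0 : ℝ, L0 = 1 + C * A ^ 2 / (h ^ 2 * ε) := ⟨_, rfl⟩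
  have hL1 : 1 ≤ L0 := by
    rw [hL0]
    have : 0 ≤ C * A ^ 2 / (h ^ 2 * ε) := by positivity
    linarith
  have hL2 : C * (A / h) ^ 2 ≤ ε * L0 ^ 2 := by
    have h1 : ε * L0 = ε + C * (A / h) ^ 2 := by rw [hL0]; field_simp
    have h2 : L0 ≤ L0 ^ 2 := by nlinarith
    have h3 := mul_le_mul_of_nonneg_left h2 hε.le
    linarith
  refine ⟨η, L0, hη0, by linarith, ?_⟩
  intro s S L hs hsS hSη hL
  have hLpos : 0 < L := by linarith
  have hfC : ∀ x, |f x| ≤ C := by
    intro x
    refine (hf x).trans (div_le_self hC ?_)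
    have := sq_nonneg x
    linarith
  obtain ⟨E, hE⟩ : ∃ E : ℝ, E = Real.exp (-(s / L) ^ 2 / 4) := ⟨_, rfl⟩
  rw [← hE]
  have hE0 : 0 < E := by rw [hE]; exact Real.exp_pos _
  have hE1 : E ≤ 1 := by
    rw [hE]
    apply Real.exp_le_one_iff.2
    have := sq_nonneg (s / L)
    linarith
  have hE2 : 1 - E ≤ (s / L) ^ 2 / 4 := by
    have := Real.add_one_le_exp (-(s / L) ^ 2 / 4)
    rw [hE]
    linarith
  rcases le_or_gt A (h * s) with h1 | h1
  · have hdec : ∀ x, A ≤ x → |f x| ≤ ε / 4 := by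
      intro x hx
      refine (hf x).trans (le_trans ?_ hCA)
      apply div_le_div_of_nonneg_left hC (by positivity)
      have : A ^ 2 ≤ x ^ 2 := pow_le_pow_left₀ hA0.le hx 2
      linarith
    have h2 := hdec (h * s) h1
    have h3 := hdec (h * S) (h1.trans (mul_le_mul_of_nonneg_left hsS hh.le))
    have h4 : |E * f (h * s)| ≤ ε / 4 := by
      rw [abs_mul, abs_of_pos hE0]
      have := abs_nonneg (f (h * s))
      nlinarith
    calc |f (h * S) - E * f (h * s)| ≤ |f (h * S)| + |E * f (h * s)| := abs_sub _ _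
      _ ≤ ε := by linarith
  · have h2 : |f (h * S) - f (h * s)| ≤ ε / 4 := by
      refine (hlip _ _).trans ?_
      rw [← mul_sub, abs_mul, abs_of_pos hh, abs_of_nonneg (by linarith)]
      have h3 : h * (S - s) ≤ A * η := by
        have h4 : S - s ≤ η * s := by linarith
        have h5 : h * (S - s) ≤ h * (η * s) := mul_le_mul_of_nonneg_left h4 hh.le
        have h6 : h * (η * s) = (h * s) * η := by ring
        have h7 : (h * s) * η ≤ A * η := mul_le_mul_of_nonneg_right h1.le hη0.le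
        linarith
      have h8 := mul_le_mul_of_nonneg_left h3 hC
      linarith
    have h3 : |(1 - E) * f (h * s)| ≤ ε / 4 := by
      rw [abs_mul, abs_of_nonneg (by linarith)]
      have h4 : s ≤ A / h := by
        rw [le_div_iff₀ hh]
        linarith
      have h5 : (s / L) ^ 2 ≤ (A / h) ^ 2 / L0 ^ 2 := by
        rw [div_pow]
        apply div_le_div₀ (by positivity) (pow_le_pow_left₀ hs h4 2) (by positivity)
        exact pow_le_pow_left₀ (by linarith) hL 2
      have h6 : (A / h) ^ 2 / L0 ^ 2 * C ≤ ε := by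
        rw [div_mul_eq_mul_div, div_le_iff₀ (by positivity)]
        linarith
      calc (1 - E) * |f (h * s)| ≤ (s / L) ^ 2 / 4 * C :=
            mul_le_mul hE2 (hfC _) (abs_nonneg _) (by positivity)
        _ ≤ (A / h) ^ 2 / L0 ^ 2 / 4 * C := by
            apply mul_le_mul_of_nonneg_right _ hC
            linarith
        _ ≤ ε / 4 := by linarith
    have h4 : f (h * S) - E * f (h * s) = (f (h * S) - f (h * s)) + (1 - E) * f (h * s) := by ring
    rw [h4]
    refine (abs_add_le _ _).trans ?_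
    linarith

end Pool.Agent.H666.LRC.P163
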