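import Pool.Agent.H666.LRC.Defs

/-! Project LRC, T13: from the double sum to the covariances. -/

open Filter Topology MeasureTheory Finset

namespace Pool.Agent.H666.LRC.P163

open Pool.Agent.H666.LRC

/-- grouping of a symmetric double sum by the lag -/
theorem lag (P : ℕ → ℕ → ℝ) (hP : ∀ n m, P n m = P m n) (N : ℕ) :
    ∑ n ∈ Icc 1 N, ∑ m ∈ Icc 1 N, P n m =
      ∑ n ∈ Icc 1 N, P n n + 2 * ∑ k ∈ Icc 1 N, ∑ n ∈ Icc 1 (N - k), P n (n + k) := by
  induction N with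
  | zero => simp
  | succ N ih =>
    have e1 : ∀ f : ℕ → ℝ, ∑ m ∈ Icc 1 (N + 1), f m = ∑ m ∈ Icc 1 N, f m + f (N + 1) :=
      fun f => Finset.sum_Icc_succ_top (by omega) f
    have e2 : ∑ m ∈ Icc 1 N, P (N + 1) m = ∑ m ∈ Icc 1 N, P m (N + 1) :=
      Finset.sum_congr rfl fun m _ => hP _ _
    have e4 : ∑ n ∈ Icc 1 N, P n (N + 1) = ∑ k ∈ Icc 1 N, P (N + 1 - k) (N + 1) := by
      refine Finset.sum_nbij' (fun k => N + 1 - k) (fun k => N + 1 - k) ?_ ?_ ?_ ?_ ?_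
      · intro k hk
        rw [mem_Icc] at hk ⊢
        omega
      · intro k hk
        rw [mem_Icc] at hk ⊢
        omega
      · intro k hk
        rw [mem_Icc] at hk
        show N + 1 - (N + 1 - k) = k
        omega
      · intro k hk
        rw [mem_Icc] at hk
        show N + 1 - (N + 1 - k) = k
        omega
      · intro k hk
        rw [mem_Icc] at hk
        show P k (N + 1) = P (N + 1 - (N + 1 - k)) (N + 1)
        congr 1
        omega
    have e3 : ∑ k ∈ Icc 1 N, ∑ n ∈ Icc 1 (N + 1 - k), P n (n + k) =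
        ∑ k ∈ Icc 1 N, ∑ n ∈ Icc 1 (N - k), P n (n + k) + ∑ n ∈ Icc 1 N, P n (N + 1) := by
      rw [e4, ← Finset.sum_add_distrib]
      refine Finset.sum_congr rfl fun k hk => ?_
      rw [mem_Icc] at hk
      have h1 : N + 1 - k = (N - k) + 1 := by omega
      have h2 : (N - k) + 1 + k = N + 1 := by omega
      rw [h1, Finset.sum_Icc_succ_top (by omega), h2]
    simp only [e1]
    rw [Finset.sum_add_distrib, ih, e2, e3]
    simp
    ring

theorem shift_le (g : ℕ → ℝ) (hg : ∀ n, 0 ≤ g n) (N k : ℕ) :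
    ∑ n ∈ Icc 1 (N - k), g (n + k) ≤ ∑ n ∈ Icc 1 N, g n := by
  have h1 : ∑ n ∈ Icc 1 (N - k), g (n + k) = ∑ m ∈ (Icc 1 (N - k)).image (fun n => n + k), g m := by
    rw [Finset.sum_image]
    intro x _ y _ hxy
    exact Nat.add_right_cancel hxy
  rw [h1]
  apply Finset.sum_le_sum_of_subset_of_nonneg
  · intro m hm
    rw [mem_image] at hm
    obtain ⟨n, hn, rfl⟩ := hm
    rw [mem_Icc] at hn ⊢
    omega
  · exact fun n _ _ => hg n

theorem sub_le (g : ℕ → ℝ) (hg : ∀ n, 0 ≤ g n) (N k : ℕ) :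
    ∑ n ∈ Icc 1 (N - k), g n ≤ ∑ n ∈ Icc 1 N, g n := by
  apply Finset.sum_le_sum_of_subset_of_nonneg
  · intro m hm
    rw [mem_Icc] at hm ⊢
    omega
  · exact fun n _ _ => hg n

/-- the sums at lag `k` -/
theorem lag_le (a : ℕ → ℝ) (N k : ℕ) :
    |∑ n ∈ Icc 1 (N - k), a n * a (n + k)| ≤ ∑ n ∈ Icc 1 N, a n ^ 2 := by
  have h1 : |∑ n ∈ Icc 1 (N - k), a n * a (n + k)| ≤
      ∑ n ∈ Icc 1 (N - k), (a n ^ 2 / 2 + a (n + k) ^ 2 / 2) := by
    refine (Finset.abs_sum_le_sum_abs _ _).trans (Finset.sum_le_sum fun n _ => ?_)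
    rw [abs_mul]
    nlinarith [sq_nonneg (|a n| - |a (n + k)|), sq_abs (a n), sq_abs (a (n + k))]
  refine h1.trans ?_
  rw [Finset.sum_add_distrib]
  have h2 := sub_le (fun n => a n ^ 2 / 2) (fun n => by positivity) N k
  have h3 := shift_le (fun n => a n ^ 2 / 2) (fun n => by positivity) N k
  have h4 : ∑ n ∈ Icc 1 N, a n ^ 2 = ∑ n ∈ Icc 1 N, a n ^ 2 / 2 + ∑ n ∈ Icc 1 N, a n ^ 2 / 2 := by
    rw [← Finset.sum_add_distrib]
    exact Finset.sum_congr rfl fun n _ => by ring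
  rw [h4]
  exact add_le_add h2 h3

/-- the missing terms of the covariance at lag `k` -/
theorem miss_le (a : ℕ → ℝ) (N R k : ℕ) (δ : ℝ) (hδ : 0 ≤ δ) (hkR : k ≤ R) (hR : 2 * R ≤ N)
    (ha : ∀ m, N ≤ 2 * m → m ≤ 2 * N → a m ^ 2 ≤ δ * N) :
    |∑ n ∈ Icc 1 (N - k), a n * a (n + k) - ∑ n ∈ Icc 1 N, a n * a (n + k)| ≤ R * (δ * N) := by
  have h1 : ∑ n ∈ Icc 1 N, a n * a (n + k) = ∑ n ∈ Icc 1 (N - k), a n * a (n + k) +
      ∑ n ∈ Ioc (N - k) N, a n * a (n + k) := by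
    rw [← Finset.sum_union]
    · congr 1
      ext n
      rw [mem_union, mem_Icc, mem_Icc, mem_Ioc]
      omega
    · rw [Finset.disjoint_left]
      intro n h2 h3
      rw [mem_Icc] at h2
      rw [mem_Ioc] at h3
      omega
  rw [h1, sub_add_cancel_left, abs_neg]
  refine (Finset.abs_sum_le_sum_abs _ _).trans ?_
  have h2 : ∀ n ∈ Ioc (N - k) N, |a n * a (n + k)| ≤ δ * N := by
    intro n hn
    rw [mem_Ioc] at hn
    have h3 := ha n (by omega) (by omega)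
    have h4 := ha (n + k) (by omega) (by omega)
    rw [abs_mul]
    nlinarith [sq_nonneg (|a n| - |a (n + k)|), sq_abs (a n), sq_abs (a (n + k))]
  refine (Finset.sum_le_sum h2).trans ?_
  rw [Finset.sum_const, nsmul_eq_mul, Nat.card_Ioc]
  apply mul_le_mul_of_nonneg_right _ (by positivity)
  have : N - (N - k) ≤ R := by omega
  exact_mod_cast this

/-- eventually `a m ^ 2 ≤ δ N` for `N / 2 ≤ m ≤ 2 N` -/
theorem ev_small (a : ℕ → ℝ) (ha : Tendsto (fun n : ℕ => a n ^ 2 / n) atTop (𝓝 0)) (δ : ℝ)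
    (hδ : 0 < δ) : ∀ᶠ N : ℕ in atTop, ∀ m, N ≤ 2 * m → m ≤ 2 * N → a m ^ 2 ≤ δ * N := by
  have h1 : ∀ᶠ m : ℕ in atTop, a m ^ 2 / m < δ / 2 :=
    ha.eventually (gt_mem_nhds (by positivity))
  obtain ⟨M0, hM0⟩ := h1.exists_forall_of_atTop
  filter_upwards [eventually_ge_atTop (2 * M0 + 1)] with N hN m h2 h3
  have hm0 : (0:ℝ) < m := by
    have : 0 < m := by omega
    exact_mod_cast this
  have h4 := hM0 m (by omega)
  rw [div_lt_iff₀ hm0] at h4
  have h5 : (m:ℝ) ≤ 2 * N := by exact_mod_cast h3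
  nlinarith

theorem T13 : Pool.Agent.H666.LRC.S_period := by
  intro a K0 hK0 ha hsum f C hC hev hf h hh ε hε
  have hfC : ∀ x, |f x| ≤ C := by
    intro x
    refine (hf x).trans (div_le_self hC ?_)
    have := sq_nonneg x
    linarith
  obtain ⟨R0, hR0⟩ := exists_nat_gt (4 * K0 * C / (h ^ 2 * ε))
  refine ⟨R0 + 1, fun R hR => ?_⟩
  have hR1 : 1 ≤ R := by omega
  have hRpos : (0:ℝ) < R := by exact_mod_cast hR1
  obtain ⟨δ, hδ⟩ : ∃ δ : ℝ, δ = ε / (4 * (C * R ^ 2 + 1)) := ⟨_, rfl⟩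
  have hδ0 : 0 < δ := by rw [hδ]; positivity
  have hδ1 : 2 * (R * (C * (R * δ))) ≤ ε / 2 := by
    have h1 : δ * (4 * (C * R ^ 2 + 1)) = ε := by rw [hδ]; field_simp
    nlinarith
  have hfar : 2 * (K0 * (C / h ^ 2 * (R:ℝ)⁻¹)) ≤ ε / 2 := by
    have h1 : 4 * K0 * C / (h ^ 2 * ε) ≤ R := by
      have : (R0:ℝ) ≤ R := by exact_mod_cast (by omega : R0 ≤ R)
      linarith
    rw [div_le_iff₀ (by positivity)] at h1
    have h2 : 2 * (K0 * (C / h ^ 2 * (R:ℝ)⁻¹)) = (4 * K0 * C) / (2 * (h ^ 2 * R)) := by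
      field_simp
      ring
    rw [h2, div_le_iff₀ (by positivity)]
    linarith
  filter_upwards [hsum, ev_small a ha δ hδ0, eventually_ge_atTop (2 * R)] with N hN1 hN2 hN3
  have hN0 : (0:ℝ) < N := by
    have : 0 < N := by omega
    exact_mod_cast this
  -- the lags
  obtain ⟨T, hT⟩ : ∃ T : ℕ → ℝ, T = fun k => ∑ n ∈ Icc 1 (N - k), a n * a (n + k) := ⟨_, rfl⟩
  have hlag : ∑ n ∈ Icc 1 N, ∑ m ∈ Icc 1 N, a n * a m * f (h * ((n : ℝ) - m)) =
      f 0 * ∑ n ∈ Icc 1 N, a n * a (n + 0) + 2 * ∑ k ∈ Icc 1 N, f (h * k) * T k := by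
    rw [lag (fun n m => a n * a m * f (h * ((n : ℝ) - m)))]
    · congr 1
      · rw [Finset.mul_sum]
        refine Finset.sum_congr rfl fun n _ => ?_
        rw [sub_self, mul_zero, add_zero]
        ring
      · congr 1
        refine Finset.sum_congr rfl fun k _ => ?_
        rw [hT, Finset.mul_sum]
        refine Finset.sum_congr rfl fun n _ => ?_
        have h1 : h * ((n : ℝ) - ((n + k : ℕ) : ℝ)) = -(h * k) := by
          push_cast
          ring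
        rw [h1, hev]
        ring
    · intro n m
      have h1 : h * ((m : ℝ) - n) = -(h * ((n : ℝ) - m)) := by ring
      rw [h1, hev]
      ring
  have hsplit : ∑ k ∈ Icc 1 N, f (h * k) * T k =
      ∑ k ∈ Icc 1 R, f (h * k) * T k + ∑ k ∈ Ioc R N, f (h * k) * T k := by
    rw [← Finset.sum_union]
    · congr 1
      ext n
      rw [mem_union, mem_Icc, mem_Icc, mem_Ioc]
      omega
    · rw [Finset.disjoint_left]
      intro n h2 h3
      rw [mem_Icc] at h2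
      rw [mem_Ioc] at h3
      omega
  have hdiff : (1 / N : ℝ) * ∑ n ∈ Icc 1 N, ∑ m ∈ Icc 1 N, a n * a m * f (h * ((n : ℝ) - m)) -
      (f 0 * cv a N 0 + 2 * ∑ k ∈ Icc 1 R, f (h * k) * cv a N k) =
      (1 / N : ℝ) * (2 * ∑ k ∈ Icc 1 R, f (h * k) * (T k - ∑ n ∈ Icc 1 N, a n * a (n + k)) +
        2 * ∑ k ∈ Ioc R N, f (h * k) * T k) := by
    rw [hlag, hsplit]
    have h1 : ∑ k ∈ Icc 1 R, f (h * k) * cv a N k =
        (1 / N : ℝ) * ∑ k ∈ Icc 1 R, f (h * k) * ∑ n ∈ Icc 1 N, a n * a (n + k) := by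
      rw [Finset.mul_sum]
      refine Finset.sum_congr rfl fun k _ => ?_
      unfold cv
      ring
    have h2 : ∑ k ∈ Icc 1 R, f (h * k) * (T k - ∑ n ∈ Icc 1 N, a n * a (n + k)) =
        ∑ k ∈ Icc 1 R, f (h * k) * T k -
          ∑ k ∈ Icc 1 R, f (h * k) * ∑ n ∈ Icc 1 N, a n * a (n + k) := by
      rw [← Finset.sum_sub_distrib]
      refine Finset.sum_congr rfl fun k _ => ?_
      ring
    rw [h1, h2]
    unfold cv
    ring
  rw [hdiff]
  have b1 : |∑ k ∈ Icc 1 R, f (h * k) * (T k - ∑ n ∈ Icc 1 N, a n * a (n + k))| ≤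
      R * (C * (R * (δ * N))) := by
    refine (Finset.abs_sum_le_sum_abs _ _).trans ?_
    have h1 : ∀ k ∈ Icc 1 R, |f (h * k) * (T k - ∑ n ∈ Icc 1 N, a n * a (n + k))| ≤
        C * (R * (δ * N)) := by
      intro k hk
      rw [mem_Icc] at hk
      rw [abs_mul, hT]
      exact mul_le_mul (hfC _) (miss_le a N R k δ hδ0.le hk.2 hN3 hN2) (abs_nonneg _) hC
    refine (Finset.sum_le_sum h1).trans ?_
    rw [Finset.sum_const, nsmul_eq_mul, Nat.card_Icc, Nat.add_sub_cancel]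
  have b2 : |∑ k ∈ Ioc R N, f (h * k) * T k| ≤ K0 * N * (C / h ^ 2 * (R:ℝ)⁻¹) := by
    refine (Finset.abs_sum_le_sum_abs _ _).trans ?_
    have h1 : ∀ k ∈ Ioc R N, |f (h * k) * T k| ≤ K0 * N * (C / h ^ 2) * ((k:ℝ) ^ 2)⁻¹ := by
      intro k hk
      rw [mem_Ioc] at hk
      have hk0 : (0:ℝ) < k := by
        have : 0 < k := by omega
        exact_mod_cast this
      rw [abs_mul, hT]
      have h2 : |∑ n ∈ Icc 1 (N - k), a n * a (n + k)| ≤ K0 * N := (lag_le a N k).trans hN1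
      have h3 : |f (h * k)| ≤ C / h ^ 2 * ((k:ℝ) ^ 2)⁻¹ := by
        refine (hf _).trans ?_
        have h4 : C / h ^ 2 * ((k:ℝ) ^ 2)⁻¹ = C / (h * k) ^ 2 := by
          field_simp
        rw [h4]
        apply div_le_div_of_nonneg_left hC (by positivity)
        linarith
      calc |f (h * k)| * |∑ n ∈ Icc 1 (N - k), a n * a (n + k)| ≤
          (C / h ^ 2 * ((k:ℝ) ^ 2)⁻¹) * (K0 * N) :=
            mul_le_mul h3 h2 (abs_nonneg _) (by positivity)
        _ = _ := by ring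
    refine (Finset.sum_le_sum h1).trans ?_
    rw [← Finset.mul_sum]
    have h2 : ∑ k ∈ Ioc R N, ((k:ℝ) ^ 2)⁻¹ ≤ (R:ℝ)⁻¹ := by
      have h3 := sum_Ioc_inv_sq_le_sub (α := ℝ) (k := R) (n := N) (by omega) (by omega)
      have h4 : (0:ℝ) ≤ (N:ℝ)⁻¹ := by positivity
      linarith
    calc K0 * N * (C / h ^ 2) * ∑ k ∈ Ioc R N, ((k:ℝ) ^ 2)⁻¹ ≤
        K0 * N * (C / h ^ 2) * (R:ℝ)⁻¹ := mul_le_mul_of_nonneg_left h2 (by positivity)
      _ = _ := by ring
  rw [abs_mul, abs_of_pos (by positivity : (0:ℝ) < 1 / N), one_div, inv_mul_le_iff₀ hN0]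
  refine (abs_add_le _ _).trans ?_
  rw [abs_mul, abs_mul, abs_of_pos (by norm_num : (0:ℝ) < 2)]
  have c1 : 2 * (R * (C * (R * (δ * N)))) ≤ ε / 2 * N := by
    have : 2 * (R * (C * (R * (δ * N)))) = 2 * (R * (C * (R * δ))) * N := by ring
    rw [this]
    exact mul_le_mul_of_nonneg_right hδ1 hN0.le
  have c2 : 2 * (K0 * N * (C / h ^ 2 * (R:ℝ)⁻¹)) ≤ ε / 2 * N := by
    have : 2 * (K0 * N * (C / h ^ 2 * (R:ℝ)⁻¹)) = 2 * (K0 * (C / h ^ 2 * (R:ℝ)⁻¹)) * N := by ring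
    rw [this]
    exact mul_le_mul_of_nonneg_right hfar hN0.le
  linarith

end Pool.Agent.H666.LRC.P163
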