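import Pool.Agent.H666.LRC.Defs

/-! T14: the integral of the power spectrum against `g` (helper231). -/

open Filter Topology MeasureTheory

namespace Pool.Agent.H666.LRC.P231

open Pool.Agent.H666.LRC

theorem re_term (x θ : ℝ) (n : ℕ) :
    ((x : ℂ) * Complex.exp (2 * Real.pi * Complex.I * n * θ)).re =
      x * Real.cos (2 * Real.pi * n * θ) := by
  have h : (2 * Real.pi * Complex.I * n * θ : ℂ) = ((2 * Real.pi * n * θ : ℝ) : ℂ) * Complex.I := by
    push_cast
    ring
  rw [h, Complex.re_ofReal_mul, Complex.exp_ofReal_mul_I_re]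

theorem im_term (x θ : ℝ) (n : ℕ) :
    ((x : ℂ) * Complex.exp (2 * Real.pi * Complex.I * n * θ)).im =
      x * Real.sin (2 * Real.pi * n * θ) := by
  have h : (2 * Real.pi * Complex.I * n * θ : ℂ) = ((2 * Real.pi * n * θ : ℝ) : ℂ) * Complex.I := by
    push_cast
    ring
  rw [h, Complex.im_ofReal_mul, Complex.exp_ofReal_mul_I_im]

theorem PS_eq (a : ℕ → ℝ) (N : ℕ) (θ : ℝ) :
    PS a N θ = (1 / N : ℝ) * ∑ n ∈ Finset.Icc 1 N, ∑ m ∈ Finset.Icc 1 N,
      a n * a m * Real.cos (2 * Real.pi * ((n : ℝ) - m) * θ) := by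
  unfold PS
  congr 1
  rw [Complex.sq_norm, Complex.normSq_apply, Complex.re_sum, Complex.im_sum,
    Finset.sum_mul_sum, Finset.sum_mul_sum, ← Finset.sum_add_distrib]
  refine Finset.sum_congr rfl fun n _ => ?_
  rw [← Finset.sum_add_distrib]
  refine Finset.sum_congr rfl fun m _ => ?_
  rw [re_term, re_term, im_term, im_term]
  have h : 2 * Real.pi * ((n : ℝ) - m) * θ = 2 * Real.pi * n * θ - 2 * Real.pi * m * θ := by ring
  rw [h, Real.cos_sub]
  ring

theorem T14 : S_fubini := by
  intro a g hg h N _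
  have h1 : ∀ t : ℝ, g t * PS a N (h * t) =
      ∑ n ∈ Finset.Icc 1 N, ∑ m ∈ Finset.Icc 1 N, (1 / N : ℝ) * (a n * a m) *
        (g t * Real.cos (2 * Real.pi * (h * ((n : ℝ) - m)) * t)) := by
    intro t
    rw [PS_eq, Finset.mul_sum, Finset.mul_sum]
    refine Finset.sum_congr rfl fun n _ => ?_
    rw [Finset.mul_sum, Finset.mul_sum]
    refine Finset.sum_congr rfl fun m _ => ?_
    have h2 : 2 * Real.pi * ((n : ℝ) - m) * (h * t) = 2 * Real.pi * (h * ((n : ℝ) - m)) * t := by
      ring
    rw [h2]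
    ring
  have hc : ∀ n m : ℕ, Continuous fun t : ℝ =>
      (1 / N : ℝ) * (a n * a m) * (g t * Real.cos (2 * Real.pi * (h * ((n : ℝ) - m)) * t)) := by
    intro n m
    exact continuous_const.mul (hg.mul (Real.continuous_cos.comp (continuous_const.mul continuous_id)))
  simp_rw [h1]
  rw [intervalIntegral.integral_finsetSum fun n _ =>
    (continuous_finsetSum _ fun m _ => hc n m).intervalIntegrable _ _, Finset.mul_sum]
  refine Finset.sum_congr rfl fun n _ => ?_
  rw [intervalIntegral.integral_finsetSum fun m _ => (hc n m).intervalIntegrable _ _,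
    Finset.mul_sum]
  refine Finset.sum_congr rfl fun m _ => ?_
  rw [intervalIntegral.integral_const_mul]
  unfold ct
  field_simp

end Pool.Agent.H666.LRC.P231
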