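import Pool.Agent.H666.LRC.Defs

/-! T3: derivatives of the cosine and sine transforms. -/

set_option autoImplicit false

open Filter Topology MeasureTheory

namespace Pool.Agent.H666.LRC.P167

open Pool.Agent.H666.LRC

theorem T3aux {g : ℝ → ℝ} (hg : Continuous g) (P P' : ℝ → ℝ) (hP : Continuous P)
    (hP' : Continuous P') (hd : ∀ y, HasDerivAt P (P' y) y) (hb : ∀ y, |P' y| ≤ 1) (x : ℝ) :
    HasDerivAt (fun x => ∫ t in (0 : ℝ)..1, g t * P (2 * Real.pi * x * t))
      (∫ t in (0 : ℝ)..1, g t * (P' (2 * Real.pi * x * t) * (2 * Real.pi * t))) x := by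
  refine (intervalIntegral.hasDerivAt_integral_of_dominated_loc_of_deriv_le
    (F := fun x t => g t * P (2 * Real.pi * x * t))
    (F' := fun x t => g t * (P' (2 * Real.pi * x * t) * (2 * Real.pi * t)))
    (bound := fun t => |g t| * |2 * Real.pi * t|) (s := Set.univ) Filter.univ_mem ?_ ?_ ?_ ?_ ?_
    ?_).2
  · refine Eventually.of_forall fun y => ?_
    have : Continuous fun t => g t * P (2 * Real.pi * y * t) := by fun_prop
    exact this.aestronglyMeasurable
  · have : Continuous fun t => g t * P (2 * Real.pi * x * t) := by fun_prop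
    exact this.intervalIntegrable 0 1
  · have : Continuous fun t => g t * (P' (2 * Real.pi * x * t) * (2 * Real.pi * t)) := by fun_prop
    exact this.aestronglyMeasurable
  · refine Eventually.of_forall fun t _ y _ => ?_
    rw [Real.norm_eq_abs, abs_mul, abs_mul]
    refine mul_le_mul_of_nonneg_left ?_ (abs_nonneg _)
    have := mul_le_mul_of_nonneg_right (hb (2 * Real.pi * y * t)) (abs_nonneg (2 * Real.pi * t))
    linarith
  · have : Continuous fun t => |g t| * |2 * Real.pi * t| := by fun_prop
    exact this.intervalIntegrable 0 1
  · refine Eventually.of_forall fun t _ y _ => ?_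
    have h1 : HasDerivAt (fun y => 2 * Real.pi * y * t) (2 * Real.pi * t) y := by
      have := ((hasDerivAt_id y).const_mul (2 * Real.pi)).mul_const t
      simpa using this
    have h2 := (hd (2 * Real.pi * y * t)).comp y h1
    exact h2.const_mul (g t)

theorem T3 : S_deriv := by
  intro g hg x
  constructor
  · have h := (T3aux hg Real.cos (fun y => -Real.sin y) Real.continuous_cos
      Real.continuous_sin.neg Real.hasDerivAt_cos
      (fun y => by rw [abs_neg]; exact Real.abs_sin_le_one y) x).const_mul 2
    have e : 2 * ∫ t in (0 : ℝ)..1, g t * (-Real.sin (2 * Real.pi * x * t) * (2 * Real.pi * t)) =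
        -(st (mu 1 g) x) := by
      unfold st mu
      rw [← mul_neg, ← intervalIntegral.integral_neg]
      congr 1
      refine intervalIntegral.integral_congr fun t _ => ?_
      rw [pow_one]
      ring
    rw [e] at h
    exact h
  · have h := (T3aux hg Real.sin Real.cos Real.continuous_sin
      Real.continuous_cos Real.hasDerivAt_sin (fun y => Real.abs_cos_le_one y) x).const_mul 2
    have e : 2 * ∫ t in (0 : ℝ)..1, g t * (Real.cos (2 * Real.pi * x * t) * (2 * Real.pi * t)) =
        ct (mu 1 g) x := by
      unfold ct mu
      congr 1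
      refine intervalIntegral.integral_congr fun t _ => ?_
      rw [pow_one]
      ring
    rw [e] at h
    exact h

end Pool.Agent.H666.LRC.P167
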