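import Pool.Agent.H666.LRC.Defs

/-!
# Task LRC T4 (helper571 for helper666): Taylor's formula with a third derivative of quadratic decay
-/

set_option autoImplicit false

open Set

namespace Pool.Agent.H666.LRC.P571

/-- Taylor's formula with a bound of the third derivative near the point -/
theorem taylor (f f1 f2 f3 : ℝ → ℝ) (h0 : ∀ x, HasDerivAt f (f1 x) x)
    (h1 : ∀ x, HasDerivAt f1 (f2 x) x) (h2 : ∀ x, HasDerivAt f2 (f3 x) x) (x u M : ℝ)
    (hM : ∀ v : ℝ, |v| ≤ |u| → |f3 (x + v)| ≤ M) :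
    |f (x + u) - f x - f1 x * u - f2 x * u ^ 2 / 2| ≤ M * |u| ^ 3 := by
  have hM0 : 0 ≤ M := (abs_nonneg _).trans (hM 0 (by rw [abs_zero]; exact abs_nonneg u))
  have hadd : ∀ v : ℝ, HasDerivAt (fun v : ℝ => x + v) 1 v := fun v =>
    (hasDerivAt_id v).const_add x
  have hz : (0 : ℝ) ∈ Icc (-|u|) |u| := ⟨by linarith [abs_nonneg u], abs_nonneg u⟩
  have hmem : ∀ v : ℝ, v ∈ Icc (-|u|) |u| → |v| ≤ |u| := fun v hv => abs_le.2 ⟨hv.1, hv.2⟩
  have hu : u ∈ Icc (-|u|) |u| := ⟨neg_abs_le u, le_abs_self u⟩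
  have r2 : ∀ v ∈ Icc (-|u|) |u|, |f2 (x + v) - f2 x| ≤ M * |u| := by
    intro v hv
    have h3 : ∀ w ∈ Icc (-|u|) |u|, HasDerivWithinAt (fun w : ℝ => f2 (x + w)) (f3 (x + w))
        (Icc (-|u|) |u|) w := by
      intro w _
      have h4 := (h2 (x + w)).comp w (hadd w)
      rw [mul_one] at h4
      exact h4.hasDerivWithinAt
    have h4 := (convex_Icc (-|u|) |u|).norm_image_sub_le_of_norm_hasDerivWithin_le h3
      (C := M) (fun w hw => hM w (hmem w hw)) hz hv
    rw [Real.norm_eq_abs, Real.norm_eq_abs, add_zero, sub_zero] at h4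
    exact h4.trans (mul_le_mul_of_nonneg_left (hmem v hv) hM0)
  have r1 : ∀ v ∈ Icc (-|u|) |u|, |f1 (x + v) - f1 x - f2 x * v| ≤ M * |u| * |u| := by
    intro v hv
    have h3 : ∀ w ∈ Icc (-|u|) |u|, HasDerivWithinAt (fun w : ℝ => f1 (x + w) - f2 x * w)
        (f2 (x + w) - f2 x) (Icc (-|u|) |u|) w := by
      intro w _
      have h4 := (h1 (x + w)).comp w (hadd w)
      rw [mul_one] at h4
      have h5 := h4.sub ((hasDerivAt_id w).const_mul (f2 x))
      rw [mul_one] at h5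
      exact h5.hasDerivWithinAt
    have h4 := (convex_Icc (-|u|) |u|).norm_image_sub_le_of_norm_hasDerivWithin_le h3
      (C := M * |u|) (fun w hw => r2 w hw) hz hv
    rw [Real.norm_eq_abs, Real.norm_eq_abs, add_zero, sub_zero, mul_zero, sub_zero] at h4
    have h5 : f1 (x + v) - f1 x - f2 x * v = f1 (x + v) - f2 x * v - f1 x := by ring
    rw [h5]
    exact h4.trans (mul_le_mul_of_nonneg_left (hmem v hv) (mul_nonneg hM0 (abs_nonneg _)))
  have h3 : ∀ w ∈ Icc (-|u|) |u|, HasDerivWithinAt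
      (fun w : ℝ => f (x + w) - f1 x * w - f2 x * w ^ 2 / 2)
      (f1 (x + w) - f1 x - f2 x * w) (Icc (-|u|) |u|) w := by
    intro w _
    have h4 := (h0 (x + w)).comp w (hadd w)
    rw [mul_one] at h4
    have h5 := h4.sub ((hasDerivAt_id w).const_mul (f1 x))
    rw [mul_one] at h5
    have h6 : HasDerivAt (fun w : ℝ => f2 x * w ^ 2 / 2) (f2 x * w) w := by
      have h7 := ((hasDerivAt_pow 2 w).const_mul (f2 x)).div_const 2
      refine h7.congr_deriv ?_
      push_cast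
      ring
    exact (h5.sub h6).hasDerivWithinAt
  have h4 := (convex_Icc (-|u|) |u|).norm_image_sub_le_of_norm_hasDerivWithin_le h3
    (C := M * |u| * |u|) (fun w hw => r1 w hw) hz hu
  rw [Real.norm_eq_abs, Real.norm_eq_abs, add_zero, sub_zero] at h4
  have h5 : f (x + u) - f x - f1 x * u - f2 x * u ^ 2 / 2 =
      f (x + u) - f1 x * u - f2 x * u ^ 2 / 2 - (f x - f1 x * 0 - f2 x * 0 ^ 2 / 2) := by ring
  have h6 : M * |u| ^ 3 = M * |u| * |u| * |u| := by ring
  rw [h5, h6]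
  exact h4

theorem T4 : Pool.Agent.H666.LRC.S_taylor := by
  intro f f1 f2 f3 h0 h1 h2 C hC hf3 x u
  have hx : 0 < 1 + x ^ 2 := by positivity
  have hu0 := abs_nonneg u
  rcases le_or_gt |u| (|x| / 2) with h | h
  · have hM : ∀ v : ℝ, |v| ≤ |u| → |f3 (x + v)| ≤ 4 * C / (1 + x ^ 2) := by
      intro v hv
      refine (hf3 (x + v)).trans ?_
      rw [div_le_div_iff₀ (by positivity) hx]
      have h3 : |x| / 2 ≤ |x + v| := by
        have h4 : |x| ≤ |x + v| + |v| := by
          have h5 := abs_sub_abs_le_abs_sub x (-v)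
          rw [abs_neg, sub_neg_eq_add] at h5
          linarith
        linarith
      have h4 : (|x| / 2) ^ 2 ≤ |x + v| ^ 2 := pow_le_pow_left₀ (by positivity) h3 2
      rw [sq_abs, div_pow, sq_abs] at h4
      have h5 : C * (1 + x ^ 2) ≤ C * (4 * (1 + (x + v) ^ 2)) :=
        mul_le_mul_of_nonneg_left (by linarith) hC
      linarith
    refine (taylor f f1 f2 f3 h0 h1 h2 x u _ hM).trans ?_
    rw [div_mul_eq_mul_div]
    apply div_le_div_of_nonneg_right _ hx.le
    apply mul_le_mul_of_nonneg_left _ (by positivity)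
    have : 0 ≤ |u| ^ 5 := by positivity
    linarith
  · have hM : ∀ v : ℝ, |v| ≤ |u| → |f3 (x + v)| ≤ C := by
      intro v _
      refine (hf3 (x + v)).trans (div_le_self hC ?_)
      have : 0 ≤ (x + v) ^ 2 := sq_nonneg _
      linarith
    refine (taylor f f1 f2 f3 h0 h1 h2 x u _ hM).trans ?_
    rw [le_div_iff₀ hx]
    have h3 : |x| ^ 2 ≤ (2 * |u|) ^ 2 := pow_le_pow_left₀ (abs_nonneg x) (by linarith) 2
    rw [sq_abs] at h3
    have h4 : C * |u| ^ 3 * (1 + x ^ 2) ≤ C * |u| ^ 3 * (4 * (1 + |u| ^ 2)) :=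
      mul_le_mul_of_nonneg_left (by linarith) (by positivity)
    have h5 : C * |u| ^ 3 * (4 * (1 + |u| ^ 2)) = 4 * C * (|u| ^ 3 + |u| ^ 5) := by ring
    linarith

end Pool.Agent.H666.LRC.P571
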