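import Pool.Agent.H666.LRC.Defs

/-! T5: Poisson summation for the cosine transform, truncated. -/

set_option autoImplicit false

namespace Pool.Agent.H666.LRC.P734

open Filter Topology MeasureTheory FourierTransform
open Pool.Agent.H666.LRC

theorem ct_neg (g : ℝ → ℝ) (x : ℝ) : ct g (-x) = ct g x := by
  unfold ct
  congr 1
  refine intervalIntegral.integral_congr fun t _ => ?_
  show g t * Real.cos (2 * Real.pi * -x * t) = g t * Real.cos (2 * Real.pi * x * t)
  rw [show 2 * Real.pi * -x * t = -(2 * Real.pi * x * t) by ring, Real.cos_neg]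

/-- even extension, zero outside `[-1,1]` -/
noncomputable def phi (g : ℝ → ℝ) (t : ℝ) : ℝ := g (min |t| 1)

theorem phi_cont {g : ℝ → ℝ} (hg : Continuous g) : Continuous (phi g) :=
  hg.comp (continuous_abs.min continuous_const)

theorem phi_zero {g : ℝ → ℝ} (h1 : g 1 = 0) {t : ℝ} (ht : 1 ≤ |t|) : phi g t = 0 := by
  unfold phi
  rw [min_eq_right ht, h1]

theorem phi_neg (g : ℝ → ℝ) (t : ℝ) : phi g (-t) = phi g t := by
  unfold phi
  rw [abs_neg]

theorem phi_eq (g : ℝ → ℝ) {t : ℝ} (h0 : 0 ≤ t) (h1 : t ≤ 1) : phi g t = g t := by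
  unfold phi
  rw [abs_of_nonneg h0, min_eq_left h1]

/-- the Fourier transform of `phi` -/
theorem fphi {g : ℝ → ℝ} (hg : Continuous g) (h1 : g 1 = 0) (w : ℝ) :
    ∫ v : ℝ, Complex.exp (((-2 * Real.pi * v * w : ℝ) : ℂ) * Complex.I) * ((phi g v : ℝ) : ℂ) =
      ((ct g w : ℝ) : ℂ) := by
  obtain ⟨F, hFd⟩ : ∃ F : ℝ → ℂ, ∀ v, F v =
      Complex.exp (((-2 * Real.pi * v * w : ℝ) : ℂ) * Complex.I) * ((phi g v : ℝ) : ℂ) :=
    ⟨_, fun _ => rfl⟩
  have hF : Continuous F := by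
    have : F = fun v => Complex.exp (((-2 * Real.pi * v * w : ℝ) : ℂ) * Complex.I) *
        ((phi g v : ℝ) : ℂ) := funext hFd
    rw [this]
    have := phi_cont hg
    fun_prop
  have hsupp : Function.support F ⊆ Set.Ioc (-1) 1 := by
    intro v hv
    rw [Function.mem_support] at hv
    have : |v| < 1 := by
      by_contra h
      rw [not_lt] at h
      apply hv
      rw [hFd, phi_zero h1 h, Complex.ofReal_zero, mul_zero]
    rw [abs_lt] at this
    exact ⟨this.1, this.2.le⟩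
  have e0 : ∫ v : ℝ, Complex.exp (((-2 * Real.pi * v * w : ℝ) : ℂ) * Complex.I) *
      ((phi g v : ℝ) : ℂ) = ∫ v : ℝ, F v := integral_congr_ae (Eventually.of_forall fun v => (hFd v).symm)
  have e1 : ∫ v in (-1 : ℝ)..0, F v = ∫ v in (0 : ℝ)..1, F (-v) := by
    rw [intervalIntegral.integral_comp_neg]
    simp
  have hi : IntervalIntegrable (fun v : ℝ => F (-v)) volume 0 1 :=
    (hF.comp continuous_neg).intervalIntegrable _ _
  rw [e0, ← intervalIntegral.integral_eq_integral_of_support_subset hsupp,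
    ← intervalIntegral.integral_add_adjacent_intervals (b := 0) (hF.intervalIntegrable _ _)
      (hF.intervalIntegrable _ _), e1,
    ← intervalIntegral.integral_add hi (hF.intervalIntegrable _ _)]
  unfold ct
  rw [Complex.ofReal_mul, ← intervalIntegral.integral_ofReal, ← intervalIntegral.integral_const_mul]
  refine intervalIntegral.integral_congr fun t ht => ?_
  rw [Set.uIcc_of_le zero_le_one] at ht
  show F (-t) + F t = ((2 : ℝ) : ℂ) * ((g t * Real.cos (2 * Real.pi * w * t) : ℝ) : ℂ)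
  rw [hFd, hFd, phi_neg, phi_eq g ht.1 ht.2]
  have e2 := Complex.two_cos (((2 * Real.pi * w * t : ℝ) : ℂ))
  have e3 : ((-2 * Real.pi * -t * w : ℝ) : ℂ) = ((2 * Real.pi * w * t : ℝ) : ℂ) := by
    congr 1
    ring
  have e4 : ((-2 * Real.pi * t * w : ℝ) : ℂ) = -((2 * Real.pi * w * t : ℝ) : ℂ) := by
    rw [← Complex.ofReal_neg]
    congr 1
    ring
  rw [e3, e4, ← add_mul, ← e2, Complex.ofReal_mul (g t), Complex.ofReal_cos]
  push_cast
  ring

/-- the scaled function -/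
noncomputable def psi (g : ℝ → ℝ) (h : ℝ) (v : ℝ) : ℂ := ((phi g (v / h) / h : ℝ) : ℂ)

theorem fpsi {g : ℝ → ℝ} (hg : Continuous g) (h1 : g 1 = 0) {h : ℝ} (hh : 0 < h) (w : ℝ) :
    𝓕 (psi g h) w = ((ct g (h * w) : ℝ) : ℂ) := by
  rw [Real.fourier_real_eq_integral_exp_smul]
  have e1 : ∀ v : ℝ, Complex.exp (((-2 * Real.pi * v * w : ℝ) : ℂ) * Complex.I) • psi g h v =
      (fun t : ℝ => ((1 / h : ℝ) : ℂ) * (Complex.exp (((-2 * Real.pi * t * (h * w) : ℝ) : ℂ) *
        Complex.I) * ((phi g t : ℝ) : ℂ))) (v / h) := by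
    intro v
    show _ • ((phi g (v / h) / h : ℝ) : ℂ) = _
    have e2 : -2 * Real.pi * (v / h) * (h * w) = -2 * Real.pi * v * w := by
      field_simp
    simp only [smul_eq_mul]
    rw [e2]
    push_cast
    ring
  simp only [e1]
  rw [Measure.integral_comp_div (fun t : ℝ => ((1 / h : ℝ) : ℂ) *
    (Complex.exp (((-2 * Real.pi * t * (h * w) : ℝ) : ℂ) * Complex.I) * ((phi g t : ℝ) : ℂ))) h,
    integral_const_mul, fphi hg h1, abs_of_pos hh]
  have : (h : ℂ) ≠ 0 := by exact_mod_cast hh.ne'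
  rw [Complex.real_smul]
  push_cast
  field_simp

theorem psi_cont {g : ℝ → ℝ} (hg : Continuous g) (h : ℝ) : Continuous (psi g h) := by
  unfold psi
  exact Complex.continuous_ofReal.comp (((phi_cont hg).comp (continuous_id.div_const h)).div_const h)

theorem hasSum_ct (hd : S_ctdecay) {g : ℝ → ℝ} (hg : ContDiff ℝ 2 g) (h1 : g 1 = 0) {h : ℝ}
    (hh : 0 < h) (hh1 : h ≤ 1) : HasSum (fun n : ℤ => ct g (h * n)) (g 0 / h) := by
  obtain ⟨C, hC0, hC⟩ := hd g hg h1
  have hs : Summable (fun n : ℤ => ct g (h * n)) := by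
    have h2 : Summable fun n : ℤ => C / h ^ 2 * |(n : ℝ)| ^ (-(2 : ℝ)) :=
      (Real.summable_abs_int_rpow one_lt_two).mul_left _
    refine Summable.of_norm_bounded_eventually h2 ?_
    refine (Filter.eventually_cofinite_ne (0 : ℤ)).mono fun n hn => ?_
    rw [Real.norm_eq_abs, Real.rpow_neg (abs_nonneg _), Real.rpow_two, sq_abs]
    have hn' : (n : ℝ) ≠ 0 := by exact_mod_cast hn
    have hn2 : 0 < (n : ℝ) ^ 2 := by positivity
    refine (hC (h * n)).trans ?_
    rw [← div_eq_mul_inv, div_div]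
    refine div_le_div_of_nonneg_left hC0 (by positivity) ?_
    rw [mul_pow]
    linarith
  have hsc : Summable (fun n : ℤ => 𝓕 (psi g h) n) := by
    have : (fun n : ℤ => 𝓕 (psi g h) n) = fun n : ℤ => ((ct g (h * n) : ℝ) : ℂ) :=
      funext fun n => fpsi hg.continuous h1 hh n
    rw [this]
    exact Complex.hasSum_ofReal.2 hs.hasSum |>.summable
  have hO : psi g h =O[cocompact ℝ] fun x : ℝ => |x| ^ (-(2 : ℝ)) := by
    refine Asymptotics.IsBigO.of_bound 0 ?_
    have h3 := (isCompact_Icc (a := -h) (b := h)).compl_mem_cocompact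
    refine Filter.mem_of_superset h3 fun x hx => ?_
    have h4 : h < |x| := by
      by_contra hcon
      rw [not_lt, abs_le] at hcon
      exact hx ⟨hcon.1, hcon.2⟩
    have h5 : 1 ≤ |x / h| := by
      rw [abs_div, abs_of_pos hh, le_div_iff₀ hh]
      linarith
    show ‖psi g h x‖ ≤ _
    unfold psi
    rw [phi_zero h1 h5]
    simp
  have hP := Real.tsum_eq_tsum_fourier_of_rpow_decay_of_summable (psi_cont hg.continuous h)
    one_lt_two hO hsc 0
  have hL : ∑' n : ℤ, psi g h (0 + n) = ((g 0 / h : ℝ) : ℂ) := by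
    rw [tsum_eq_single (0 : ℤ)]
    · unfold psi
      rw [Int.cast_zero, add_zero, zero_div, phi_eq g le_rfl zero_le_one]
    · intro n hn
      unfold psi
      have h5 : 1 ≤ |(0 + (n : ℝ)) / h| := by
        rw [zero_add, abs_div, abs_of_pos hh, le_div_iff₀ hh, one_mul]
        have h6 : (1 : ℝ) ≤ |(n : ℝ)| := by exact_mod_cast Int.one_le_abs hn
        linarith
      rw [phi_zero h1 h5]
      simp
  have hR : ∑' n : ℤ, 𝓕 (psi g h) n * fourier n (((0 : ℝ)) : UnitAddCircle) =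
      ∑' n : ℤ, ((ct g (h * n) : ℝ) : ℂ) := by
    refine tsum_congr fun n => ?_
    rw [fpsi hg.continuous h1 hh n]
    have : fourier n (((0 : ℝ)) : UnitAddCircle) = (1 : ℂ) := fourier_eval_zero n
    rw [this, mul_one]
  rw [hL, hR, ← Complex.ofReal_tsum] at hP
  have h7 : g 0 / h = ∑' n : ℤ, ct g (h * n) := by exact_mod_cast hP
  rw [h7]
  exact hs.hasSum

theorem T5 : S_ctdecay → S_poisson := by
  intro hd g hg h1
  obtain ⟨C, hC0, hC⟩ := hd g hg h1
  refine ⟨2 * C, by positivity, fun h hh hh1 R hR => ?_⟩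
  have hsum := hasSum_ct hd hg h1 hh hh1
  have h2 := hsum.nat_add_neg
  have h3 := h2.tendsto_sum_nat
  obtain ⟨T, hT⟩ : ∃ T : ℕ → ℝ, ∀ M, T M = ct g 0 + 2 * ∑ k ∈ Finset.Icc 1 M, ct g (h * k) :=
    ⟨_, fun _ => rfl⟩
  have hTs : ∀ M : ℕ, ∑ i ∈ Finset.range (M + 1), (ct g (h * ((i : ℤ) : ℝ)) +
      ct g (h * ((-(i : ℤ) : ℤ) : ℝ))) = T M + ct g 0 := by
    intro M
    induction M with
    | zero =>
      rw [hT]
      simp
    | succ M ih =>
      rw [Finset.sum_range_succ, ih, hT, hT, Finset.sum_Icc_succ_top (by omega)]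
      have e1 : h * ((-((M + 1 : ℕ) : ℤ) : ℤ) : ℝ) = -(h * ((M + 1 : ℕ) : ℝ)) := by
        push_cast
        ring
      have e2 : h * (((M + 1 : ℕ) : ℤ) : ℝ) = h * ((M + 1 : ℕ) : ℝ) := by
        push_cast
        ring
      rw [e1, e2, ct_neg]
      ring
  have hlim : Tendsto T atTop (𝓝 (g 0 / h)) := by
    have h4 := (h3.comp (tendsto_add_atTop_nat 1)).sub_const (ct g 0)
    have h5 : Tendsto T atTop (𝓝 (g 0 / h + ct g (h * ((0 : ℤ) : ℝ)) - ct g 0)) := by
      refine h4.congr fun M => ?_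
      show ∑ i ∈ Finset.range (M + 1), (ct g (h * ((i : ℤ) : ℝ)) +
        ct g (h * ((-(i : ℤ) : ℤ) : ℝ))) - ct g 0 = T M
      rw [hTs]
      ring
    have e1 : g 0 / h + ct g (h * ((0 : ℤ) : ℝ)) - ct g 0 = g 0 / h := by
      rw [Int.cast_zero, mul_zero]
      ring
    rwa [e1] at h5
  have hR0 : (0 : ℝ) < R := by exact_mod_cast hR
  have hdiff : ∀ M, R ≤ M → |T R - T M| ≤ 2 * C / (h ^ 2 * R) := by
    intro M hM
    have e1 : T R - T M = -(2 * ∑ k ∈ Finset.Ioc R M, ct g (h * k)) := by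
      rw [hT, hT]
      have e2 : ∑ k ∈ Finset.Icc 1 M, ct g (h * k) =
          ∑ k ∈ Finset.Icc 1 R, ct g (h * k) + ∑ k ∈ Finset.Ioc R M, ct g (h * k) := by
        have e3 : Finset.Icc 1 M = Finset.Icc 1 R ∪ Finset.Ioc R M := by
          ext k
          simp only [Finset.mem_union, Finset.mem_Icc, Finset.mem_Ioc]
          omega
        rw [e3, Finset.sum_union]
        rw [Finset.disjoint_left]
        intro k hk hk'
        rw [Finset.mem_Icc] at hk
        rw [Finset.mem_Ioc] at hk'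
        omega
      rw [e2]
      ring
    rw [e1, abs_neg, abs_mul, abs_of_pos (by norm_num : (0 : ℝ) < 2)]
    have h4 : |∑ k ∈ Finset.Ioc R M, ct g (h * k)| ≤ C / h ^ 2 * ∑ k ∈ Finset.Ioc R M,
        ((k : ℝ) ^ 2)⁻¹ := by
      refine (Finset.abs_sum_le_sum_abs _ _).trans ?_
      rw [Finset.mul_sum]
      refine Finset.sum_le_sum fun k hk => ?_
      rw [Finset.mem_Ioc] at hk
      have hk0 : (0 : ℝ) < k := by exact_mod_cast (by omega : 0 < k)
      refine (hC (h * k)).trans ?_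
      rw [← div_eq_mul_inv, div_div]
      refine div_le_div_of_nonneg_left hC0 (by positivity) ?_
      rw [mul_pow]
      linarith
    have h5 : ∑ k ∈ Finset.Ioc R M, ((k : ℝ) ^ 2)⁻¹ ≤ (R : ℝ)⁻¹ := by
      have h6 := sum_Ioc_inv_sq_le_sub (α := ℝ) (k := R) (n := M) (by omega) hM
      have h7 : (0 : ℝ) ≤ (M : ℝ)⁻¹ := by positivity
      linarith
    have h6 : C / h ^ 2 * ∑ k ∈ Finset.Ioc R M, ((k : ℝ) ^ 2)⁻¹ ≤ C / h ^ 2 * (R : ℝ)⁻¹ :=
      mul_le_mul_of_nonneg_left h5 (by positivity)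
    calc 2 * |∑ k ∈ Finset.Ioc R M, ct g (h * k)| ≤ 2 * (C / h ^ 2 * (R : ℝ)⁻¹) := by linarith
      _ = 2 * C / (h ^ 2 * R) := by field_simp
  have hfin : Tendsto (fun M => |T R - T M|) atTop (𝓝 |T R - g 0 / h|) :=
    (hlim.const_sub (T R)).abs
  have h8 := le_of_tendsto hfin (eventually_atTop.2 ⟨R, fun M hM => hdiff M hM⟩)
  rw [hT] at h8
  exact h8

end Pool.Agent.H666.LRC.P734
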