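import Pool.Agent.H666.LRC.Defs

/-!
# T7: the `p`-th moment from an exponential tail
-/

set_option autoImplicit false
set_option linter.all false

open Filter Topology Set MeasureTheory

namespace Pool.Agent.H666.LRC.P307

/-- `(y + 1)^p ≤ K exp (c y / 2)` -/
lemma pw_exp (p : ℕ) {c : ℝ} (hc : 0 < c) : ∃ K : ℝ, 0 < K ∧ ∀ y : ℝ, 0 ≤ y →
    (y + 1) ^ p * Real.exp (-(c * y)) ≤ K * Real.exp (-(c / 2 * y)) := by
  refine ⟨p.factorial * (2 / c) ^ p * Real.exp (c / 2), by positivity, fun y hy => ?_⟩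
  have h1 : (c / 2 * (y + 1)) ^ p / p.factorial ≤ Real.exp (c / 2 * (y + 1)) :=
    Real.pow_div_factorial_le_exp _ (by positivity) p
  have hf : (0 : ℝ) < p.factorial := by positivity
  rw [div_le_iff₀ hf] at h1
  have h2 : (y + 1) ^ p = (2 / c) ^ p * (c / 2 * (y + 1)) ^ p := by
    rw [← mul_pow]
    congr 1
    field_simp
  have h3 : (y + 1) ^ p ≤ (2 / c) ^ p * (Real.exp (c / 2 * (y + 1)) * p.factorial) := by
    rw [h2]
    exact mul_le_mul_of_nonneg_left h1 (by positivity)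
  calc (y + 1) ^ p * Real.exp (-(c * y))
      ≤ (2 / c) ^ p * (Real.exp (c / 2 * (y + 1)) * p.factorial) * Real.exp (-(c * y)) :=
        mul_le_mul_of_nonneg_right h3 (Real.exp_pos _).le
    _ = p.factorial * (2 / c) ^ p * (Real.exp (c / 2 * (y + 1)) * Real.exp (-(c * y))) := by ring
    _ = p.factorial * (2 / c) ^ p * (Real.exp (c / 2) * Real.exp (-(c / 2 * y))) := by
        rw [← Real.exp_add, ← Real.exp_add]
        congr 2
        ring
    _ = _ := by ring

theorem T7 : Pool.Agent.H666.LRC.S_layer := by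
  classical
  intro p c hc
  obtain ⟨K, hK, hsq⟩ := pw_exp p hc
  have hq : Real.exp (-(c / 2)) < 1 := by
    rw [Real.exp_lt_one_iff]
    linarith
  have hq0 : 0 < Real.exp (-(c / 2)) := Real.exp_pos _
  set q := Real.exp (-(c / 2)) with hqd
  refine ⟨K * (1 - q)⁻¹, by
    have : 0 < (1 - q)⁻¹ := inv_pos.2 (by linarith)
    positivity, fun D U n0 N hU0 hD hcount => ?_⟩
  set S := (Finset.Icc 1 N).filter (fun n : ℕ => n0 ≤ n) with hS
  -- the layers
  obtain ⟨Kn, hKn⟩ : ∃ Kn : ℕ, ∀ n ∈ Finset.Icc 1 N, D n < Kn := by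
    refine ⟨∑ n ∈ Finset.Icc 1 N, (⌊D n⌋₊ + 1), fun n hn => ?_⟩
    have h1 : D n < ((⌊D n⌋₊ + 1 : ℕ) : ℝ) := by
      push_cast
      exact Nat.lt_floor_add_one _
    refine lt_of_lt_of_le h1 ?_
    have h2 : ⌊D n⌋₊ + 1 ≤ ∑ n ∈ Finset.Icc 1 N, (⌊D n⌋₊ + 1) :=
      Finset.single_le_sum (f := fun n => ⌊D n⌋₊ + 1) (fun _ _ => Nat.zero_le _) hn
    exact_mod_cast h2
  have hpt : ∀ n ∈ S, D n ^ p ≤ U ^ p +
      ∑ k ∈ Finset.range Kn, if n0 ≤ n ∧ U + k ≤ D n then (U + k + 1) ^ p else 0 := by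
    intro n hn
    rw [hS, Finset.mem_filter] at hn
    have hpos : ∀ k ∈ Finset.range Kn, 0 ≤ if n0 ≤ n ∧ U + k ≤ D n then
        (U + k + 1) ^ p else 0 := by
      intro k _
      split_ifs
      · positivity
      · exact le_rfl
    rcases le_or_gt (D n) U with h | h
    · have h1 : D n ^ p ≤ U ^ p := pow_le_pow_left₀ (hD n) h p
      have h2 := Finset.sum_nonneg hpos
      linarith
    · have hD0 : 0 ≤ D n - U := by linarith
      obtain ⟨k, hk⟩ : ∃ k : ℕ, k = ⌊D n - U⌋₊ := ⟨_, rfl⟩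
      have h1 : (k : ℝ) ≤ D n - U := by rw [hk]; exact Nat.floor_le hD0
      have h2 : D n - U < k + 1 := by rw [hk]; exact Nat.lt_floor_add_one _
      have h3 : k ∈ Finset.range Kn := by
        rw [Finset.mem_range]
        have h4 := hKn n hn.1
        have h5 : (k : ℝ) < Kn := by linarith
        exact_mod_cast h5
      have h6 := Finset.single_le_sum (f := fun k : ℕ =>
        if n0 ≤ n ∧ U + k ≤ D n then (U + k + 1) ^ p else 0) hpos h3
      rw [if_pos ⟨hn.2, by linarith⟩] at h6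
      have h7 : D n ^ p ≤ (U + k + 1) ^ p := pow_le_pow_left₀ (hD n) (by linarith) p
      have h8 : 0 ≤ U ^ p := pow_nonneg hU0 p
      linarith
  have hcardS : (S.card : ℝ) ≤ N := by
    have h1 : S.card ≤ (Finset.Icc 1 N).card := Finset.card_filter_le _ _
    rw [Nat.card_Icc, Nat.add_sub_cancel] at h1
    exact_mod_cast h1
  have hlayer : ∀ k ∈ Finset.range Kn,
      (∑ n ∈ S, if n0 ≤ n ∧ U + k ≤ D n then (U + k + 1) ^ p else 0) ≤ K * N * q ^ k := by
    intro k _
    have hk0 : (0 : ℝ) ≤ k := Nat.cast_nonneg k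
    rw [hS, ← Finset.sum_filter, Finset.sum_const, nsmul_eq_mul, Finset.filter_filter]
    have e : (Finset.Icc 1 N).filter (fun n : ℕ => n0 ≤ n ∧ (n0 ≤ n ∧ U + k ≤ D n)) =
        (Finset.Icc 1 N).filter (fun n : ℕ => n0 ≤ n ∧ U + k ≤ D n) := by
      apply Finset.filter_congr
      intro n _
      tauto
    rw [e]
    have h1 := hcount (U + k) (by linarith)
    calc _ ≤ (N * Real.exp (-(c * (U + k)))) * (U + k + 1) ^ p :=
          mul_le_mul_of_nonneg_right h1 (by positivity)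
      _ = N * ((U + k + 1) ^ p * Real.exp (-(c * (U + k)))) := by ring
      _ ≤ N * (K * Real.exp (-(c / 2 * (U + k)))) :=
          mul_le_mul_of_nonneg_left (hsq (U + k) (by linarith)) (Nat.cast_nonneg N)
      _ ≤ N * (K * q ^ k) := by
          apply mul_le_mul_of_nonneg_left _ (Nat.cast_nonneg N)
          apply mul_le_mul_of_nonneg_left _ hK.le
          rw [hqd, ← Real.exp_nat_mul]
          apply Real.exp_le_exp.2
          have : 0 ≤ c / 2 * U := by positivity
          have e2 : c / 2 * (U + k) = c / 2 * U + k * (c / 2) := by ring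
          rw [e2]
          linarith
      _ = K * N * q ^ k := by ring
  have hgeo : ∑ k ∈ Finset.range Kn, q ^ k ≤ (1 - q)⁻¹ := by
    have := (hasSum_geometric_of_lt_one hq0.le hq)
    exact sum_le_hasSum _ (fun _ _ => by positivity) this
  calc ∑ n ∈ S, D n ^ p ≤ ∑ n ∈ S, (U ^ p +
        ∑ k ∈ Finset.range Kn, if n0 ≤ n ∧ U + k ≤ D n then (U + k + 1) ^ p else 0) :=
        Finset.sum_le_sum hpt
    _ = S.card * U ^ p + ∑ k ∈ Finset.range Kn, ∑ n ∈ S,
        (if n0 ≤ n ∧ U + k ≤ D n then (U + k + 1) ^ p else 0) := by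
        rw [Finset.sum_add_distrib, Finset.sum_const, nsmul_eq_mul, Finset.sum_comm]
    _ ≤ N * U ^ p + ∑ k ∈ Finset.range Kn, K * N * q ^ k :=
        add_le_add (mul_le_mul_of_nonneg_right hcardS (pow_nonneg hU0 p)) (Finset.sum_le_sum hlayer)
    _ = N * U ^ p + K * N * ∑ k ∈ Finset.range Kn, q ^ k := by rw [← Finset.mul_sum]
    _ ≤ N * U ^ p + K * N * (1 - q)⁻¹ := by
        have h9 : K * N * ∑ k ∈ Finset.range Kn, q ^ k ≤ K * N * (1 - q)⁻¹ :=
          mul_le_mul_of_nonneg_left hgeo (by positivity)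
        linarith
    _ = (U ^ p + K * (1 - q)⁻¹) * N := by ring

end Pool.Agent.H666.LRC.P307
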