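import Pool.Agent.H666.LRC.Defs

/-! T9 of the project LRC (helper666): the near part of the pair sum, by Taylor's formula. -/

open Filter Topology MeasureTheory

namespace Pool.Agent.H666.LRC.P600

open Pool.Agent.H666.LRC

theorem mu_mu (j : ℕ) (g : ℝ → ℝ) : mu 1 (mu j g) = mu (j + 1) g := by
  funext t
  unfold mu
  ring

theorem contDiff_mu (j : ℕ) {g : ℝ → ℝ} (hg : ContDiff ℝ 2 g) : ContDiff ℝ 2 (mu j g) := by
  unfold mu
  fun_prop

theorem taylor_pt (hst : S_stdecay) (hder : S_deriv) (htay : S_taylor) {g : ℝ → ℝ} (hg : Adm g) :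
    ∃ C : ℝ, 0 ≤ C ∧ ∀ x u : ℝ,
      |ct g (x + u) - ct g x - (-(st (mu 1 g) x)) * u - (-(ct (mu 2 g) x)) * u ^ 2 / 2| ≤
        4 * C * (|u| ^ 3 + |u| ^ 5) / (1 + x ^ 2) := by
  obtain ⟨hg2, hg1⟩ := hg
  obtain ⟨C, hC, hdec⟩ := hst (mu 3 g) (contDiff_mu 3 hg2) (by simp [mu]) (by simp [mu, hg1])
  refine ⟨C, hC, fun x u => ?_⟩
  refine htay (ct g) (fun x => -(st (mu 1 g) x)) (fun x => -(ct (mu 2 g) x)) (st (mu 3 g)) ?_ ?_ ?_
    C hC hdec x u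
  · intro x
    exact (hder g hg2.continuous x).1
  · intro x
    have h1 := (hder (mu 1 g) (contDiff_mu 1 hg2).continuous x).2
    rw [mu_mu] at h1
    exact h1.neg
  · intro x
    have h1 := (hder (mu 2 g) (contDiff_mu 2 hg2).continuous x).1
    rw [mu_mu] at h1
    have h2 := h1.neg
    rwa [neg_neg] at h2

theorem vr_eq (a : ℕ → ℝ) {N : ℕ} (hN : 1 ≤ N) (k : ℕ) :
    ∑ n ∈ Finset.Icc 1 N, Y a k n ^ 2 = N * Vr a N k := by
  unfold Vr Y
  have : (N : ℝ) ≠ 0 := by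
    have : N ≠ 0 := by omega
    exact_mod_cast this
  field_simp

theorem identity (a : ℕ → ℝ) {N : ℕ} (hN : 1 ≤ N) (R : ℕ) (c0 g0 h : ℝ) (f f1 f2 : ℕ → ℝ)
    (F T : ℕ → ℕ → ℝ)
    (hF : ∀ n k, F n k = f k + f1 k * (h * Y a k n) + f2 k * (h * Y a k n) ^ 2 / 2 + T n k) :
    ∑ n ∈ Finset.Icc 1 N, (c0 + 2 * ∑ k ∈ Finset.Icc 1 R, F n k) -
      (g0 / h + h ^ 2 * ∑ k ∈ Finset.Icc 1 R, f2 k * Vr a N k) * N =
    (c0 + 2 * ∑ k ∈ Finset.Icc 1 R, f k - g0 / h) * N +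
      2 * h * ∑ k ∈ Finset.Icc 1 R, f1 k * ∑ n ∈ Finset.Icc 1 N, Y a k n +
      2 * ∑ k ∈ Finset.Icc 1 R, ∑ n ∈ Finset.Icc 1 N, T n k := by
  have h1 : ∀ k, ∑ n ∈ Finset.Icc 1 N, F n k = f k * N + h * (f1 k * ∑ n ∈ Finset.Icc 1 N, Y a k n) +
      h ^ 2 / 2 * (f2 k * Vr a N k) * N + ∑ n ∈ Finset.Icc 1 N, T n k := by
    intro k
    have h2 : ∀ n ∈ Finset.Icc 1 N, F n k = f k + h * f1 k * Y a k n +
        h ^ 2 / 2 * f2 k * Y a k n ^ 2 + T n k := by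
      intro n _
      rw [hF]
      ring
    rw [Finset.sum_congr rfl h2, Finset.sum_add_distrib, Finset.sum_add_distrib,
      Finset.sum_add_distrib, ← Finset.mul_sum, ← Finset.mul_sum, vr_eq a hN, Finset.sum_const,
      Nat.card_Icc, nsmul_eq_mul]
    simp only [Nat.add_sub_cancel]
    ring
  have h3 : ∑ n ∈ Finset.Icc 1 N, (c0 + 2 * ∑ k ∈ Finset.Icc 1 R, F n k) =
      c0 * N + 2 * ∑ k ∈ Finset.Icc 1 R, ∑ n ∈ Finset.Icc 1 N, F n k := by
    rw [Finset.sum_add_distrib, ← Finset.mul_sum, Finset.sum_comm, Finset.sum_const, Nat.card_Icc,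
      nsmul_eq_mul]
    simp only [Nat.add_sub_cancel]
    ring
  rw [h3, Finset.sum_congr rfl fun k _ => h1 k, Finset.sum_add_distrib, Finset.sum_add_distrib,
    Finset.sum_add_distrib, ← Finset.sum_mul, ← Finset.sum_mul, ← Finset.mul_sum, ← Finset.mul_sum]
  ring

theorem T9 : S_near := by
  intro _ hst hder htay hpoi hlog a hM g hg
  obtain ⟨C, hC, htp⟩ := taylor_pt hst hder htay hg
  obtain ⟨KP, hKP0, hKP⟩ := hpoi g hg.1 hg.2
  obtain ⟨K3, hK30, hK3⟩ := hM.2 3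
  obtain ⟨K5, hK50, hK5⟩ := hM.2 5
  obtain ⟨L3, hL30, hL3⟩ := hlog 3
  obtain ⟨L5, hL50, hL5⟩ := hlog 5
  refine ⟨2 + 8 * C * (K3 * L3 + K5 * L5), by positivity, fun h h0 h1 => ?_⟩
  have hl : 0 < Real.log (1 / h) := Real.log_pos (by rw [lt_div_iff₀ h0]; linarith)
  have hhl : h * Real.log (1 / h) ≤ 1 := by
    have h2 := Real.log_le_sub_one_of_pos (show 0 < 1 / h by positivity)
    have h3 : h * (1 / h) = 1 := by field_simp
    nlinarith
  set l := Real.log (1 / h) with hldef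
  refine ⟨⌈KP / (h ^ 4 * l ^ 3)⌉₊ + 1, fun R hR => ?_⟩
  have hR1 : 1 ≤ R := by omega
  have hR0 : (0 : ℝ) < R := by exact_mod_cast hR1
  have hRK : KP / (h ^ 4 * l ^ 3) ≤ R := by
    refine (Nat.le_ceil _).trans ?_
    exact_mod_cast (Nat.le_succ _).trans hR
  -- eventual statements
  have ev1 : ∀ᶠ N : ℕ in atTop, ∀ k ∈ Finset.Icc 1 R, |∑ n ∈ Finset.Icc 1 N, Y a k n| ≤
      (h * l ^ 3 / (2 * R * (|st (mu 1 g) (h * k)| + 1))) * N := by
    rw [Finset.eventually_all]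
    intro k hk
    exact hM.1 k (Finset.mem_Icc.1 hk).1 _ (by positivity)
  have ev3 : ∀ᶠ N : ℕ in atTop, ∀ k ∈ Finset.Icc 1 R, ∑ n ∈ Finset.Icc 1 N, |Y a k n| ^ 3 ≤
      K3 * Real.log (k + 1) ^ 3 * N := by
    rw [Finset.eventually_all]
    intro k hk
    exact hK3 k (Finset.mem_Icc.1 hk).1
  have ev5 : ∀ᶠ N : ℕ in atTop, ∀ k ∈ Finset.Icc 1 R, ∑ n ∈ Finset.Icc 1 N, |Y a k n| ^ 5 ≤
      K5 * Real.log (k + 1) ^ 5 * N := by
    rw [Finset.eventually_all]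
    intro k hk
    exact hK5 k (Finset.mem_Icc.1 hk).1
  filter_upwards [ev1, ev3, ev5, eventually_ge_atTop 1] with N e1 e3 e5 hN
  have hN0 : (0 : ℝ) ≤ N := Nat.cast_nonneg _
  set T : ℕ → ℕ → ℝ := fun n k => ct g (h * (k + Y a k n)) - ct g (h * k) -
    (-(st (mu 1 g) (h * k))) * (h * Y a k n) - (-(ct (mu 2 g) (h * k))) * (h * Y a k n) ^ 2 / 2
    with hT
  have hTb : ∀ n k, |T n k| ≤ 4 * C * (|h * Y a k n| ^ 3 + |h * Y a k n| ^ 5) / (1 + (h * k) ^ 2) := by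
    intro n k
    have h2 := htp (h * k) (h * Y a k n)
    rw [← mul_add] at h2
    exact h2
  have hid := identity a hN R (ct g 0) (g 0) h (fun k => ct g (h * k))
    (fun k => -(st (mu 1 g) (h * k))) (fun k => -(ct (mu 2 g) (h * k)))
    (fun n k => ct g (h * (k + Y a k n))) T (by intro n k; simp only [hT]; ring)
  have hgoal : ∑ n ∈ Finset.Icc 1 N, (ct g 0 + 2 * ∑ k ∈ Finset.Icc 1 R, ct g (h * (k + Y a k n))) -
      (g 0 / h - h ^ 2 * ∑ k ∈ Finset.Icc 1 R, ct (mu 2 g) (h * k) * Vr a N k) * N =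
      (ct g 0 + 2 * ∑ k ∈ Finset.Icc 1 R, ct g (h * k) - g 0 / h) * N +
      2 * h * ∑ k ∈ Finset.Icc 1 R, -(st (mu 1 g) (h * k)) * ∑ n ∈ Finset.Icc 1 N, Y a k n +
      2 * ∑ k ∈ Finset.Icc 1 R, ∑ n ∈ Finset.Icc 1 N, T n k := by
    rw [← hid]
    simp only [neg_mul, Finset.sum_neg_distrib]
    ring
  rw [hgoal]
  -- the three errors
  have b1 : |(ct g 0 + 2 * ∑ k ∈ Finset.Icc 1 R, ct g (h * k) - g 0 / h) * N| ≤
      h ^ 2 * l ^ 3 * N := by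
    rw [abs_mul, abs_of_nonneg hN0]
    refine mul_le_mul_of_nonneg_right ?_ hN0
    refine (hKP h h0 (by linarith) R hR1).trans ?_
    rw [div_le_iff₀ (by positivity)]
    rw [div_le_iff₀ (by positivity)] at hRK
    calc KP ≤ R * (h ^ 4 * l ^ 3) := hRK
      _ = h ^ 2 * l ^ 3 * (h ^ 2 * R) := by ring
  have b2 : |2 * h * ∑ k ∈ Finset.Icc 1 R, -(st (mu 1 g) (h * k)) *
      ∑ n ∈ Finset.Icc 1 N, Y a k n| ≤ h ^ 2 * l ^ 3 * N := by
    rw [abs_mul, abs_of_nonneg (by positivity : 0 ≤ 2 * h)]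
    have h2 : |∑ k ∈ Finset.Icc 1 R, -(st (mu 1 g) (h * k)) * ∑ n ∈ Finset.Icc 1 N, Y a k n| ≤
        ∑ k ∈ Finset.Icc 1 R, h * l ^ 3 / (2 * R) * N := by
      refine (Finset.abs_sum_le_sum_abs _ _).trans (Finset.sum_le_sum fun k hk => ?_)
      rw [abs_mul, abs_neg]
      have h3 := e1 k hk
      have hs : 0 ≤ |st (mu 1 g) (h * k)| := abs_nonneg _
      calc |st (mu 1 g) (h * k)| * |∑ n ∈ Finset.Icc 1 N, Y a k n| ≤
          (|st (mu 1 g) (h * k)| + 1) *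
            ((h * l ^ 3 / (2 * R * (|st (mu 1 g) (h * k)| + 1))) * N) := by
            refine mul_le_mul (by linarith) h3 (abs_nonneg _) (by linarith)
        _ = h * l ^ 3 / (2 * R) * N := by
            field_simp
    refine (mul_le_mul_of_nonneg_left h2 (by positivity)).trans (le_of_eq ?_)
    rw [Finset.sum_const, Nat.card_Icc, nsmul_eq_mul]
    simp only [Nat.add_sub_cancel]
    field_simp
  have b3 : |2 * ∑ k ∈ Finset.Icc 1 R, ∑ n ∈ Finset.Icc 1 N, T n k| ≤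
      8 * C * (K3 * L3 + K5 * L5) * (h ^ 2 * l ^ 3) * N := by
    rw [abs_mul, abs_of_nonneg (by norm_num : (0 : ℝ) ≤ 2)]
    have h2 : |∑ k ∈ Finset.Icc 1 R, ∑ n ∈ Finset.Icc 1 N, T n k| ≤
        ∑ k ∈ Finset.Icc 1 R, (4 * C * h ^ 3 * K3 * N * (Real.log (k + 1) ^ 3 / (1 + (h * k) ^ 2)) +
          4 * C * h ^ 5 * K5 * N * (Real.log (k + 1) ^ 5 / (1 + (h * k) ^ 2))) := by
      refine (Finset.abs_sum_le_sum_abs _ _).trans (Finset.sum_le_sum fun k hk => ?_)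
      refine (Finset.abs_sum_le_sum_abs _ _).trans ?_
      refine (Finset.sum_le_sum fun n _ => hTb n k).trans ?_
      have h3 : ∀ n ∈ Finset.Icc 1 N,
          4 * C * (|h * Y a k n| ^ 3 + |h * Y a k n| ^ 5) / (1 + (h * k) ^ 2) =
          4 * C * h ^ 3 / (1 + (h * k) ^ 2) * |Y a k n| ^ 3 +
          4 * C * h ^ 5 / (1 + (h * k) ^ 2) * |Y a k n| ^ 5 := by
        intro n _
        rw [abs_mul, abs_of_pos h0]
        ring
      rw [Finset.sum_congr rfl h3, Finset.sum_add_distrib, ← Finset.mul_sum, ← Finset.mul_sum]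
      have h4 := mul_le_mul_of_nonneg_left (e3 k hk)
        (show 0 ≤ 4 * C * h ^ 3 / (1 + (h * k) ^ 2) by positivity)
      have h5 := mul_le_mul_of_nonneg_left (e5 k hk)
        (show 0 ≤ 4 * C * h ^ 5 / (1 + (h * k) ^ 2) by positivity)
      refine (add_le_add h4 h5).trans (le_of_eq ?_)
      ring
    rw [Finset.sum_add_distrib, ← Finset.mul_sum, ← Finset.mul_sum] at h2
    have h6 := mul_le_mul_of_nonneg_left (hL3 h h0 h1 R)
      (show 0 ≤ 4 * C * h ^ 3 * K3 * N by positivity)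
    have h7 := mul_le_mul_of_nonneg_left (hL5 h h0 h1 R)
      (show 0 ≤ 4 * C * h ^ 5 * K5 * N by positivity)
    have h8 : 4 * C * h ^ 3 * K3 * N * (L3 * l ^ 3 / h) = 4 * C * (K3 * L3) * (h ^ 2 * l ^ 3) * N := by
      field_simp
    have h9 : 4 * C * h ^ 5 * K5 * N * (L5 * l ^ 5 / h) ≤ 4 * C * (K5 * L5) * (h ^ 2 * l ^ 3) * N := by
      have h10 : h ^ 5 * (l ^ 5 / h) = (h ^ 2 * l ^ 3) * (h * l) ^ 2 := by
        field_simp
      have h11 : (h * l) ^ 2 ≤ 1 := pow_le_one₀ (by positivity) hhl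
      calc 4 * C * h ^ 5 * K5 * N * (L5 * l ^ 5 / h) =
          4 * C * (K5 * L5) * (h ^ 5 * (l ^ 5 / h)) * N := by ring
        _ = 4 * C * (K5 * L5) * ((h ^ 2 * l ^ 3) * (h * l) ^ 2) * N := by rw [h10]
        _ ≤ 4 * C * (K5 * L5) * ((h ^ 2 * l ^ 3) * 1) * N := by gcongr
        _ = _ := by ring
    rw [h8] at h6
    have h12 := h7.trans h9
    calc 2 * |∑ k ∈ Finset.Icc 1 R, ∑ n ∈ Finset.Icc 1 N, T n k| ≤
        2 * (4 * C * (K3 * L3) * (h ^ 2 * l ^ 3) * N + 4 * C * (K5 * L5) * (h ^ 2 * l ^ 3) * N) := by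
          refine mul_le_mul_of_nonneg_left (h2.trans (add_le_add h6 h12)) (by norm_num)
      _ = _ := by ring
  refine (abs_add_three _ _ _).trans ((add_le_add (add_le_add b1 b2) b3).trans (le_of_eq ?_))
  ring

end Pool.Agent.H666.LRC.P600
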