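import Mathlib
import Pool.Agent.H666.LRC.Defs2

/-! LRC D1: rapid decay of the cosine transform of an even smooth function supported in [-1,1]. -/

open Filter Topology MeasureTheory
open scoped FourierTransform SchwartzMap

namespace Pool.Agent.H666.LRC.P632

open Pool.Agent.H666.LRC

theorem integral_even (f : ℝ → ℝ) (hc : Continuous f) (hf : ∀ t, f (-t) = f t) :
    ∫ t in (-1 : ℝ)..1, f t = 2 * ∫ t in (0 : ℝ)..1, f t := by
  have h1 : ∫ t in (-1 : ℝ)..0, f t = ∫ t in (0 : ℝ)..1, f t := by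
    have := intervalIntegral.integral_comp_neg (a := 0) (b := 1) f
    simp only [hf, neg_zero] at this
    exact this.symm
  have h2 := intervalIntegral.integral_add_adjacent_intervals (μ := volume)
    (hc.intervalIntegrable (-1) 0) (hc.intervalIntegrable 0 1)
  rw [← h2, h1]
  ring

theorem hasCompactSupport_of {G : ℝ → ℝ} (hG : Sm G) :
    HasCompactSupport (fun t => (G t : ℂ)) := by
  obtain ⟨hsm, hev, hsup⟩ := hG
  apply HasCompactSupport.of_support_subset_isCompact (isCompact_Icc (a := (-1 : ℝ)) (b := 1))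
  intro t ht
  rw [Function.mem_support] at ht
  by_contra hn
  apply ht
  rw [hsup t]
  · simp
  · by_contra hlt
    push Not at hlt
    rw [abs_lt] at hlt
    exact hn ⟨hlt.1.le, hlt.2.le⟩

theorem ct_eq {G : ℝ → ℝ} (hG : Sm G) (x : ℝ) :
    ct G x = (𝓕 (fun t => (G t : ℂ)) x).re := by
  have hcs := hasCompactSupport_of hG
  obtain ⟨hsm, hev, hsup⟩ := hG
  have hc0 : Continuous (fun t => (G t : ℂ)) := Complex.continuous_ofReal.comp hsm.continuous
  have hint : Integrable (fun v : ℝ =>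
      Complex.exp (↑(-2 * Real.pi * v * x) * Complex.I) * (G v : ℂ)) := by
    have hc1 : Continuous (fun v : ℝ => Complex.exp (↑(-2 * Real.pi * v * x) * Complex.I)) := by
      fun_prop
    exact (hc1.mul hc0).integrable_of_hasCompactSupport hcs.mul_left
  rw [Real.fourier_real_eq_integral_exp_smul]
  simp only [smul_eq_mul]
  have h1 := Complex.reCLM.integral_comp_comm hint
  simp only [Complex.reCLM_apply] at h1
  rw [← h1]
  have h2 : ∀ v : ℝ, (Complex.exp (↑(-2 * Real.pi * v * x) * Complex.I) * (G v : ℂ)).re =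
      G v * Real.cos (2 * Real.pi * x * v) := by
    intro v
    rw [Complex.re_mul_ofReal, Complex.exp_ofReal_mul_I_re]
    rw [show -2 * Real.pi * v * x = -(2 * Real.pi * x * v) by ring, Real.cos_neg]
    ring
  simp only [h2]
  unfold ct
  rw [← integral_even (fun t => G t * Real.cos (2 * Real.pi * x * t))
    (by have := hsm.continuous; fun_prop)
    (by
      intro t
      rw [hev, show 2 * Real.pi * x * -t = -(2 * Real.pi * x * t) by ring, Real.cos_neg])]
  apply intervalIntegral.integral_eq_integral_of_support_subset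
  intro t ht
  rw [Function.mem_support] at ht
  by_contra hn
  apply ht
  rw [hsup t, zero_mul]
  by_contra hlt
  push Not at hlt
  rw [abs_lt] at hlt
  exact hn ⟨hlt.1, hlt.2.le⟩

theorem decay_of (g : 𝓢(ℝ, ℂ)) (A : ℕ) : ∃ C : ℝ, 0 ≤ C ∧ ∀ x : ℝ, ‖g x‖ ≤ C / (1 + |x|) ^ A := by
  refine ⟨2 ^ A * (Finset.Iic (A, 0)).sup (fun m => SchwartzMap.seminorm ℝ m.1 m.2) g, ?_, ?_⟩
  · have := apply_nonneg ((Finset.Iic (A, 0)).sup (fun m => SchwartzMap.seminorm ℝ (E := ℝ) (F := ℂ) m.1 m.2)) g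
    positivity
  · intro x
    have h1 := SchwartzMap.one_add_le_sup_seminorm_apply (𝕜 := ℝ) (m := (A, 0)) (k := A) (n := 0)
      le_rfl le_rfl g x
    rw [norm_iteratedFDeriv_zero] at h1
    have h3 : 0 < (1 + |x|) ^ A := by positivity
    rw [le_div_iff₀ h3]
    calc ‖g x‖ * (1 + |x|) ^ A = (1 + ‖x‖) ^ A * ‖g x‖ := by rw [Real.norm_eq_abs]; ring
      _ ≤ _ := h1

theorem D1 : Pool.Agent.H666.LRC.S_rapid := by
  intro G hG A
  have hsmc : ContDiff ℝ ((⊤ : ℕ∞) : WithTop ℕ∞) (fun t => (G t : ℂ)) :=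
    Complex.ofRealCLM.contDiff.comp hG.1
  have hcs := hasCompactSupport_of hG
  obtain ⟨C, hC0, hC⟩ := decay_of (𝓕 (hcs.toSchwartzMap hsmc)) A
  refine ⟨C, hC0, fun x => ?_⟩
  refine le_trans ?_ (hC x)
  rw [ct_eq hG, SchwartzMap.fourier_coe]
  exact Complex.abs_re_le_norm _

end Pool.Agent.H666.LRC.P632
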