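import Pool.Agent.H666.LRC.Defs2

/-! # LRC D2 (helper706): the asymptotics of the main term -/

set_option autoImplicit false

open Filter Topology MeasureTheory Set

namespace Pool.Agent.H666.LRC.P706

theorem vanish {f : ℝ → ℝ} (hf : Differentiable ℝ f) (h : ∀ t, 1 ≤ t → f t = 0) :
    ∀ t, 1 ≤ t → deriv f t = 0 := by
  intro t ht
  have h1 : HasDerivWithinAt f (deriv f t) (Ici t) t := (hf t).hasDerivAt.hasDerivWithinAt
  have h2 : HasDerivWithinAt f 0 (Ici t) t :=
    (hasDerivWithinAt_const t (Ici t) (0 : ℝ)).congr (fun y hy => h y (ht.trans hy)) (h t ht)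
  exact (uniqueDiffWithinAt_Ici t).eq_deriv _ h1 h2

/-- two integrations by parts -/
theorem twice {f f1 f2 : ℝ → ℝ} (h1 : ∀ t, HasDerivAt f (f1 t) t) (h2 : ∀ t, HasDerivAt f1 (f2 t) t)
    (hc : Continuous f2) (hf : f 1 = 0) (hf1 : f1 1 = 0) {x : ℝ} (hx : 0 < x) :
    (∫ t in (0 : ℝ)..1, f t * Real.cos (x * t)) =
      -(f1 0) / x ^ 2 - 1 / x ^ 2 * ∫ t in (0 : ℝ)..1, f2 t * Real.cos (x * t) := by
  have hc1 : Continuous f1 := continuous_iff_continuousAt.2 fun t => (h2 t).continuousAt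
  have hl : ∀ t : ℝ, HasDerivAt (fun t : ℝ => x * t) x t := fun t => by
    simpa using (hasDerivAt_id t).const_mul x
  have e1 : ∀ t : ℝ, HasDerivAt (fun t : ℝ => Real.sin (x * t) / x) (Real.cos (x * t)) t := by
    intro t
    have h := ((hl t).sin).div_const x
    have e : Real.cos (x * t) * x / x = Real.cos (x * t) := by field_simp
    rwa [e] at h
  have e2 : ∀ t : ℝ, HasDerivAt (fun t : ℝ => -Real.cos (x * t) / x) (Real.sin (x * t)) t := by
    intro t
    have h := ((hl t).cos).neg.div_const x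
    have e : -(-Real.sin (x * t) * x) / x = Real.sin (x * t) := by field_simp
    rwa [e] at h
  have cc : Continuous fun t : ℝ => Real.cos (x * t) := by fun_prop
  have cs : Continuous fun t : ℝ => Real.sin (x * t) := by fun_prop
  have a1 := intervalIntegral.integral_mul_deriv_eq_deriv_mul (a := 0) (b := 1) (fun t _ => h1 t)
    (fun t _ => e1 t) (hc1.intervalIntegrable _ _) (cc.intervalIntegrable _ _)
  have a2 := intervalIntegral.integral_mul_deriv_eq_deriv_mul (a := 0) (b := 1) (fun t _ => h2 t)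
    (fun t _ => e2 t) (hc.intervalIntegrable _ _) (cs.intervalIntegrable _ _)
  have a3 : (∫ t in (0 : ℝ)..1, f1 t * (Real.sin (x * t) / x)) =
      1 / x * ∫ t in (0 : ℝ)..1, f1 t * Real.sin (x * t) := by
    rw [← intervalIntegral.integral_const_mul]
    refine intervalIntegral.integral_congr fun t _ => ?_
    change f1 t * (Real.sin (x * t) / x) = 1 / x * (f1 t * Real.sin (x * t))
    ring
  have a4 : (∫ t in (0 : ℝ)..1, f2 t * (-Real.cos (x * t) / x)) =
      -(1 / x) * ∫ t in (0 : ℝ)..1, f2 t * Real.cos (x * t) := by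
    rw [← intervalIntegral.integral_const_mul]
    refine intervalIntegral.integral_congr fun t _ => ?_
    change f2 t * (-Real.cos (x * t) / x) = -(1 / x) * (f2 t * Real.cos (x * t))
    ring
  rw [a1, a3, a2, a4, hf, hf1]
  simp only [mul_zero, Real.sin_zero, Real.cos_zero, zero_mul, zero_div]
  field_simp
  ring

theorem bound {f : ℝ → ℝ} (hc : Continuous f) : ∃ M : ℝ, 0 ≤ M ∧ ∀ x : ℝ,
    |∫ t in (0 : ℝ)..1, f t * Real.cos (x * t)| ≤ M := by
  obtain ⟨M, hM⟩ := (isCompact_Icc (a := (0 : ℝ)) (b := 1)).exists_bound_of_continuousOn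
    hc.continuousOn
  have hM0 : 0 ≤ M := (norm_nonneg _).trans (hM 0 ⟨le_rfl, zero_le_one⟩)
  refine ⟨M, hM0, fun x => ?_⟩
  have h := intervalIntegral.norm_integral_le_of_norm_le_const (a := (0 : ℝ)) (b := 1) (C := M)
    (f := fun t => f t * Real.cos (x * t)) (fun t ht => by
      rw [uIoc_of_le zero_le_one] at ht
      rw [norm_mul]
      have h1 := hM t ⟨ht.1.le, ht.2⟩
      have h2 : ‖Real.cos (x * t)‖ ≤ 1 := by
        rw [Real.norm_eq_abs]
        exact Real.abs_cos_le_one _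
      have h3 := norm_nonneg (Real.cos (x * t))
      nlinarith [norm_nonneg (f t)])
  rw [sub_zero, abs_one, mul_one] at h
  exact h

theorem D2 : Pool.Agent.H666.LRC.S_mainterm := by
  intro G hG
  obtain ⟨hs, -, hsupp⟩ := hG
  obtain ⟨a, ha⟩ : ∃ a : ℝ → ℝ, a = fun t => t * G t := ⟨_, rfl⟩
  have c0 : ContDiff ℝ ((⊤ : ℕ∞) : WithTop ℕ∞) a := by
    rw [ha]
    exact contDiff_id.mul hs
  have c1 := (contDiff_infty_iff_deriv.1 c0).2
  have c2 := (contDiff_infty_iff_deriv.1 c1).2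
  have c3 := (contDiff_infty_iff_deriv.1 c2).2
  have c4 := (contDiff_infty_iff_deriv.1 c3).2
  have d0 := (contDiff_infty_iff_deriv.1 c0).1
  have d1 := (contDiff_infty_iff_deriv.1 c1).1
  have d2 := (contDiff_infty_iff_deriv.1 c2).1
  have d3 := (contDiff_infty_iff_deriv.1 c3).1
  have v0 : ∀ t, 1 ≤ t → a t = 0 := by
    intro t ht
    rw [ha]
    change t * G t = 0
    rw [hsupp t (ht.trans (le_abs_self t)), mul_zero]
  have v1 := vanish d0 v0
  have v2 := vanish d1 v1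
  have v3 := vanish d2 v2
  obtain ⟨M, hM0, hM⟩ := bound c4.continuous
  have hG0 : deriv a 0 = G 0 := by
    have hd : DifferentiableAt ℝ G 0 := (contDiff_infty_iff_deriv.1 hs).1 0
    have h : HasDerivAt (fun t => t * G t) (1 * G 0 + 0 * deriv G 0) 0 :=
      (hasDerivAt_id (0 : ℝ)).mul hd.hasDerivAt
    rw [ha, h.deriv]
    ring
  refine ⟨|deriv (deriv (deriv a)) 0| + M, add_nonneg (abs_nonneg _) hM0, fun ρ hρ => ?_⟩
  have hpi := Real.pi_gt_three
  obtain ⟨x, hx⟩ : ∃ x : ℝ, x = 2 * Real.pi * ρ := ⟨_, rfl⟩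
  have hxρ : ρ ≤ x := by
    rw [hx]
    nlinarith
  have hx1 : 1 ≤ x := hρ.trans hxρ
  have hx0 : 0 < x := by linarith
  have e0 : (∫ t in (0 : ℝ)..1, t * (G t * Real.cos (2 * Real.pi * ρ * t))) =
      ∫ t in (0 : ℝ)..1, a t * Real.cos (x * t) := by
    refine intervalIntegral.integral_congr fun t _ => ?_
    change t * (G t * Real.cos (2 * Real.pi * ρ * t)) = a t * Real.cos (x * t)
    rw [hx, ha]
    ring
  have t1 := twice (fun t => (d0 t).hasDerivAt) (fun t => (d1 t).hasDerivAt) c2.continuous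
    (v0 1 le_rfl) (v1 1 le_rfl) hx0
  have t2 := twice (fun t => (d2 t).hasDerivAt) (fun t => (d3 t).hasDerivAt) c4.continuous
    (v2 1 le_rfl) (v3 1 le_rfl) hx0
  rw [e0, ← hx, t1, hG0, t2]
  have e1 : -G 0 / x ^ 2 - 1 / x ^ 2 * (-deriv (deriv (deriv a)) 0 / x ^ 2 - 1 / x ^ 2 *
      ∫ t in (0 : ℝ)..1, deriv (deriv (deriv (deriv a))) t * Real.cos (x * t)) + G 0 / x ^ 2 =
      (deriv (deriv (deriv a)) 0 +
        ∫ t in (0 : ℝ)..1, deriv (deriv (deriv (deriv a))) t * Real.cos (x * t)) / x ^ 4 := by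
    field_simp
    ring
  rw [e1, abs_div, abs_of_pos (pow_pos hx0 4)]
  have h1 : |deriv (deriv (deriv a)) 0 +
      ∫ t in (0 : ℝ)..1, deriv (deriv (deriv (deriv a))) t * Real.cos (x * t)| ≤
      |deriv (deriv (deriv a)) 0| + M := (abs_add_le _ _).trans (by linarith [hM x])
  have hρ0 : 0 < ρ := by linarith
  have h2 : ρ ^ 4 ≤ x ^ 4 := pow_le_pow_left₀ hρ0.le hxρ 4
  exact div_le_div₀ (add_nonneg (abs_nonneg _) hM0) h1 (pow_pos hρ0 4) h2

end Pool.Agent.H666.LRC.P706
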