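import Pool.Agent.H666.LRC.Defs2

/-! U0: the transform of `2 G(t) cos(2 pi rho t)`. -/

set_option autoImplicit false

open Filter Topology MeasureTheory

namespace Pool.Agent.H666.LRC.P585

open Pool.Agent.H666.LRC

theorem U0 : Pool.Agent.H666.LRC.S_shift := by
  intro G hG ρ x
  unfold ct gr
  have h1 : IntervalIntegrable (fun t => G t * Real.cos (2 * Real.pi * (x - ρ) * t)) volume 0 1 :=
    (hG.mul (Real.continuous_cos.comp (continuous_const.mul continuous_id))).intervalIntegrable _ _
  have h2 : IntervalIntegrable (fun t => G t * Real.cos (2 * Real.pi * (x + ρ) * t)) volume 0 1 :=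
    (hG.mul (Real.continuous_cos.comp (continuous_const.mul continuous_id))).intervalIntegrable _ _
  rw [← mul_add, ← intervalIntegral.integral_add h1 h2]
  congr 1
  refine intervalIntegral.integral_congr fun t _ => ?_
  show 2 * G t * Real.cos (2 * Real.pi * ρ * t) * Real.cos (2 * Real.pi * x * t) =
    G t * Real.cos (2 * Real.pi * (x - ρ) * t) + G t * Real.cos (2 * Real.pi * (x + ρ) * t)
  have e1 : 2 * Real.pi * (x - ρ) * t = 2 * Real.pi * x * t - 2 * Real.pi * ρ * t := by ring
  have e2 : 2 * Real.pi * (x + ρ) * t = 2 * Real.pi * x * t + 2 * Real.pi * ρ * t := by ring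
  rw [e1, e2, Real.cos_sub, Real.cos_add]
  ring

end Pool.Agent.H666.LRC.P585
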