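import Pool.Agent.H666.LRC.Defs2

/-! LRC U3: from the variances to the covariances, uniformly in a shift
(an edit of the proof of T15 in H666/LRC/P/T15). -/

set_option autoImplicit false

open Filter Topology MeasureTheory

namespace Pool.Agent.H666.LRC.P122

open Pool.Agent.H666.LRC

theorem mu_mu (j : ℕ) (g : ℝ → ℝ) : mu 1 (mu j g) = mu (j + 1) g := by
  funext t
  unfold mu
  ring

theorem contDiff_mu (j : ℕ) {g : ℝ → ℝ} (hg : ContDiff ℝ 2 g) : ContDiff ℝ 2 (mu j g) :=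
  ((contDiff_const.mul contDiff_id).pow j).mul hg

theorem log_sq_le {y : ℝ} (hy : 1 ≤ y) : Real.log y ^ 2 ≤ 4 * y := by
  have hy0 : 0 < y := by linarith
  have h1 : Real.log (Real.sqrt y) = Real.log y / 2 := Real.log_sqrt hy0.le
  have h2 : Real.log (Real.sqrt y) ≤ Real.sqrt y - 1 :=
    Real.log_le_sub_one_of_pos (Real.sqrt_pos.2 hy0)
  have h3 : 0 ≤ Real.log y := Real.log_nonneg hy
  have h4 : Real.log y ≤ 2 * Real.sqrt y := by linarith
  have h5 : Real.sqrt y ^ 2 = y := Real.sq_sqrt hy0.le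
  calc Real.log y ^ 2 ≤ (2 * Real.sqrt y) ^ 2 := pow_le_pow_left₀ h3 h4 2
    _ = 4 * y := by rw [mul_pow, h5]; norm_num

/-- the variance written with the covariances -/
noncomputable def WW (c : ℕ → ℝ) (m : ℕ) : ℝ :=
  m * c 0 + 2 * ∑ k ∈ Finset.Ico 1 m, ((m : ℝ) - k) * c k

theorem WW_succ (c : ℕ → ℝ) (m : ℕ) :
    WW c (m + 1) = WW c m + c 0 + 2 * ∑ k ∈ Finset.Ico 1 (m + 1), c k := by
  unfold WW
  have h1 : ∑ k ∈ Finset.Ico 1 (m + 1), (((m + 1 : ℕ) : ℝ) - k) * c k =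
      ∑ k ∈ Finset.Ico 1 m, ((m : ℝ) - k) * c k + ∑ k ∈ Finset.Ico 1 (m + 1), c k := by
    have h2 : ∑ k ∈ Finset.Ico 1 (m + 1), (((m + 1 : ℕ) : ℝ) - k) * c k =
        ∑ k ∈ Finset.Ico 1 (m + 1), ((m : ℝ) - k) * c k + ∑ k ∈ Finset.Ico 1 (m + 1), c k := by
      rw [← Finset.sum_add_distrib]
      refine Finset.sum_congr rfl fun k _ => ?_
      push_cast
      ring
    rw [h2]
    congr 1
    rcases Nat.eq_zero_or_pos m with rfl | hm
    · simp
    · rw [Finset.sum_Ico_succ_top hm, sub_self, zero_mul, add_zero]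
  rw [h1]
  push_cast
  ring

theorem WW_zero (c : ℕ → ℝ) : WW c 0 = 0 := by
  unfold WW
  simp

theorem WW_one (c : ℕ → ℝ) : WW c 1 = c 0 := by
  unfold WW
  simp

theorem WW_two (c : ℕ → ℝ) (k : ℕ) (hk : 1 ≤ k) :
    WW c (k + 1) - 2 * WW c k + WW c (k - 1) = 2 * c k := by
  obtain ⟨j, rfl⟩ := Nat.exists_eq_add_of_le' hk
  rw [Nat.add_sub_cancel, WW_succ c (j + 1), WW_succ c j,
    Finset.sum_Ico_succ_top (show 1 ≤ j + 1 by omega)]
  ring

/-- the variance is bounded by the second moment -/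
theorem Vr_le {a : ℕ → ℝ} {N k : ℕ} {B : ℝ} (hN : 1 ≤ N)
    (h : ∑ n ∈ Finset.Icc 1 N, |Y a k n| ^ 2 ≤ B * N) : Vr a N k ≤ B := by
  have h1 : Vr a N k = (1 / N : ℝ) * ∑ n ∈ Finset.Icc 1 N, |Y a k n| ^ 2 := by
    unfold Vr Y
    congr 1
    refine Finset.sum_congr rfl fun n _ => ?_
    rw [sq_abs]
  have hN0 : (0 : ℝ) < N := by exact_mod_cast hN
  rw [h1, one_div, inv_mul_le_iff₀ hN0, mul_comm]
  exact h

theorem Vr_nonneg (a : ℕ → ℝ) (N k : ℕ) : 0 ≤ Vr a N k := by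
  unfold Vr
  positivity

theorem mu_gr (G : ℝ → ℝ) (ρ : ℝ) (j : ℕ) : mu j (gr G ρ) = gr (mu j G) ρ := by
  funext t
  unfold mu gr
  ring

/-- **U3.** -/
theorem U3 : Pool.Agent.H666.LRC.S_cov2 := by
  intro hct hst hder htay hlog hshift habel a hMom hVW g hg
  obtain ⟨hgC, hg1⟩ := hg
  obtain ⟨C1, hC10, hC1⟩ := hct g hgC hg1
  obtain ⟨C3, hC30, hC3⟩ := hst (mu 3 g) (contDiff_mu 3 hgC) (by simp [mu]) (by simp [mu, hg1])
  obtain ⟨K2, hK20, hK2⟩ := hMom.2 2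
  obtain ⟨K6, hK60, hK6⟩ := hlog 2
  have hl2 : 0 < Real.log 2 := Real.log_pos (by norm_num)
  -- the derivatives
  have hf : ∀ x, HasDerivAt (ct g) (-(st (mu 1 g) x)) x := fun x => (hder g hgC.continuous x).1
  have hf1 : ∀ x, HasDerivAt (fun x => -(st (mu 1 g) x)) (-(ct (mu 2 g) x)) x := by
    intro x
    have h1 := (hder (mu 1 g) (contDiff_mu 1 hgC).continuous x).2
    rw [mu_mu] at h1
    exact h1.neg
  have hf2 : ∀ x, HasDerivAt (fun x => -(ct (mu 2 g) x)) (st (mu 3 g) x) x := by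
    intro x
    have h1 := (hder (mu 2 g) (contDiff_mu 2 hgC).continuous x).1
    rw [mu_mu] at h1
    have h2 := h1.neg
    rw [neg_neg] at h2
    exact h2
  have htaylor := htay (ct g) (fun x => -(st (mu 1 g) x)) (fun x => -(ct (mu 2 g) x))
    (fun x => st (mu 3 g) x) hf hf1 hf2 C3 hC30 hC3
  refine ⟨2 + 32 * C3 * K2 * K6 / Real.log 2, by positivity, fun h ρ h0 h2 hρ0 hρ1 => ?_⟩
  have hsh1 : ∀ x, ct (gr g ρ) x = ct g (x - ρ) + ct g (x + ρ) := hshift g hgC.continuous ρ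
  have hsh2 : ∀ x, ct (mu 2 (gr g ρ)) x = ct (mu 2 g) (x - ρ) + ct (mu 2 g) (x + ρ) := by
    intro x
    rw [mu_gr]
    exact hshift (mu 2 g) (contDiff_mu 2 hgC).continuous ρ x
  have hlh : Real.log 2 ≤ Real.log (1 / h) := by
    apply Real.log_le_log (by norm_num)
    rw [le_div_iff₀ h0]
    linarith
  have hlh0 : 0 < Real.log (1 / h) := lt_of_lt_of_le hl2 hlh
  obtain ⟨T, hT⟩ : ∃ T : ℝ, T = h ^ 2 * Real.log (1 / h) ^ 3 := ⟨_, rfl⟩
  have hT0 : 0 < T := by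
    rw [hT]
    positivity
  rw [← hT]
  obtain ⟨R0', hR0'⟩ := exists_nat_ge (16 * C1 * (12 * K2 + 1) / (h ^ 2 * T))
  obtain ⟨R1', hR1'⟩ := exists_nat_ge (2 * ρ / h)
  refine ⟨max R0' (max R1' 1), fun R hR => ?_⟩
  have hR1 : 1 ≤ R := ((le_max_right _ _).trans (le_max_right _ _)).trans hR
  have hRr : 16 * C1 * (12 * K2 + 1) / (h ^ 2 * T) ≤ R :=
    hR0'.trans (by exact_mod_cast (le_max_left _ _).trans hR)
  have hRρ : 2 * ρ ≤ h * R := by
    have h1 : 2 * ρ / h ≤ R :=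
      hR1'.trans (by exact_mod_cast ((le_max_left _ _).trans (le_max_right _ _)).trans hR)
    rw [div_le_iff₀ h0] at h1
    linarith
  have hR1r : (1 : ℝ) ≤ R := by exact_mod_cast hR1
  -- second differences
  obtain ⟨φ, hφ⟩ : ∃ φ : ℕ → ℝ, ∀ k, φ k = ct (gr g ρ) (h * k) := ⟨_, fun _ => rfl⟩
  obtain ⟨D, hD⟩ : ∃ D : ℕ → ℝ, ∀ k, D k = φ (k + 1) - 2 * φ k + φ (k - 1) := ⟨_, fun _ => rfl⟩
  have hDD : ∀ y : ℝ, |ct g (y + h) - 2 * ct g y + ct g (y - h) + h ^ 2 * ct (mu 2 g) y| ≤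
      16 * C3 * h ^ 3 / (1 + y ^ 2) := by
    intro y
    have t1 := htaylor y h
    have t2 := htaylor y (-h)
    rw [abs_of_pos h0] at t1
    rw [← sub_eq_add_neg, abs_neg, abs_of_pos h0] at t2
    have hden : 0 < 1 + y ^ 2 := by positivity
    have h5 : h ^ 5 ≤ h ^ 3 := pow_le_pow_of_le_one h0.le (by linarith) (by norm_num)
    have h6 : 4 * C3 * (h ^ 3 + h ^ 5) / (1 + y ^ 2) ≤ 8 * C3 * h ^ 3 / (1 + y ^ 2) := by
      apply div_le_div_of_nonneg_right _ hden.le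
      nlinarith [mul_le_mul_of_nonneg_left h5 hC30]
    have e3 : ct g (y + h) - 2 * ct g y + ct g (y - h) + h ^ 2 * ct (mu 2 g) y =
        (ct g (y + h) - ct g y - -(st (mu 1 g) y) * h - -(ct (mu 2 g) y) * h ^ 2 / 2) +
        (ct g (y - h) - ct g y - -(st (mu 1 g) y) * -h - -(ct (mu 2 g) y) * (-h) ^ 2 / 2) := by
      ring
    rw [e3]
    refine (abs_add_le _ _).trans ?_
    have e4 : 16 * C3 * h ^ 3 / (1 + y ^ 2) =
        8 * C3 * h ^ 3 / (1 + y ^ 2) + 8 * C3 * h ^ 3 / (1 + y ^ 2) := by ring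
    rw [e4]
    exact add_le_add (t1.trans h6) (t2.trans h6)
  have hDb : ∀ k : ℕ, 1 ≤ k → |D k + h ^ 2 * ct (mu 2 (gr g ρ)) (h * k)| ≤
      32 * C3 * h ^ 3 / (1 + (h * k - ρ) ^ 2) := by
    intro k hk
    have t1 := hDD (h * k - ρ)
    have t2 := hDD (h * k + ρ)
    have e1 : h * ((k + 1 : ℕ) : ℝ) = h * k + h := by push_cast; ring
    have e2 : h * ((k - 1 : ℕ) : ℝ) = h * k - h := by
      rw [Nat.cast_sub hk]
      push_cast
      ring
    have e3 : D k + h ^ 2 * ct (mu 2 (gr g ρ)) (h * k) =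
        (ct g (h * k - ρ + h) - 2 * ct g (h * k - ρ) + ct g (h * k - ρ - h) +
          h ^ 2 * ct (mu 2 g) (h * k - ρ)) +
        (ct g (h * k + ρ + h) - 2 * ct g (h * k + ρ) + ct g (h * k + ρ - h) +
          h ^ 2 * ct (mu 2 g) (h * k + ρ)) := by
      rw [hD, hφ, hφ, hφ, e1, e2, hsh1, hsh1, hsh1, hsh2,
        show h * (k : ℝ) + h - ρ = h * k - ρ + h by ring,
        show h * (k : ℝ) + h + ρ = h * k + ρ + h by ring,
        show h * (k : ℝ) - h - ρ = h * k - ρ - h by ring,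
        show h * (k : ℝ) - h + ρ = h * k + ρ - h by ring]
      ring
    rw [e3]
    refine (abs_add_le _ _).trans ?_
    have hk0 : 0 ≤ h * (k : ℝ) := by positivity
    have h7 : 16 * C3 * h ^ 3 / (1 + (h * k + ρ) ^ 2) ≤ 16 * C3 * h ^ 3 / (1 + (h * k - ρ) ^ 2) := by
      apply div_le_div_of_nonneg_left (by positivity) (by positivity)
      nlinarith [mul_nonneg hk0 hρ0]
    have e4 : 32 * C3 * h ^ 3 / (1 + (h * (k : ℝ) - ρ) ^ 2) =
        16 * C3 * h ^ 3 / (1 + (h * k - ρ) ^ 2) + 16 * C3 * h ^ 3 / (1 + (h * k - ρ) ^ 2) := by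
      ring
    rw [e4]
    exact add_le_add t1 (t2.trans h7)
  obtain ⟨B, hB⟩ : ∃ B : ℝ, B = ∑ k ∈ Finset.Icc 1 R, |D k| := ⟨_, rfl⟩
  have hB0 : 0 ≤ B := by
    rw [hB]
    exact Finset.sum_nonneg fun k _ => abs_nonneg _
  obtain ⟨ε, hε⟩ : ∃ ε : ℝ, ε = min 1 (T / (1 + B)) := ⟨_, rfl⟩
  have hε0 : 0 < ε := by
    rw [hε]
    exact lt_min one_pos (by positivity)
  have hε1 : ε ≤ 1 := by rw [hε]; exact min_le_left _ _
  have hεB : ε * B ≤ T := by
    have h1 : ε ≤ T / (1 + B) := by rw [hε]; exact min_le_right _ _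
    calc ε * B ≤ T / (1 + B) * B := mul_le_mul_of_nonneg_right h1 hB0
      _ = T * (B / (1 + B)) := by ring
      _ ≤ T * 1 := by
        refine mul_le_mul_of_nonneg_left ?_ hT0.le
        rw [div_le_one (by positivity)]
        linarith
      _ = T := mul_one _
  -- the events
  have hev1 : ∀ᶠ N : ℕ in atTop, ∀ k ∈ Finset.Icc 1 (R + 1),
      |Vr a N k - WW (cv a N) k| ≤ ε := by
    rw [Filter.eventually_all_finset]
    intro k _
    have h1 := hVW k
    have h2 := h1.abs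
    rw [abs_zero] at h2
    exact h2.eventually (ge_mem_nhds hε0)
  have hev2 : ∀ᶠ N : ℕ in atTop, ∀ k ∈ Finset.Icc 1 (R + 1),
      Vr a N k ≤ K2 * Real.log (k + 1) ^ 2 := by
    rw [Filter.eventually_all_finset]
    intro k hk
    filter_upwards [hK2 k (Finset.mem_Icc.1 hk).1, eventually_ge_atTop 1] with N h1 h2
    exact Vr_le h2 h1
  filter_upwards [hev1, hev2] with N hN1 hN2
  have hab := habel φ (cv a N) (WW (cv a N)) (WW_zero _) (WW_one _) (WW_two _) R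
  have e0 : ct (gr g ρ) 0 * cv a N 0 + 2 * ∑ k ∈ Finset.Icc 1 R, ct (gr g ρ) (h * k) * cv a N k =
      φ 0 * cv a N 0 + 2 * ∑ k ∈ Finset.Icc 1 R, φ k * cv a N k := by
    rw [hφ 0]
    congr 2
    · rw [Nat.cast_zero, mul_zero]
    · exact Finset.sum_congr rfl fun k _ => by rw [hφ]
  have e1 : ct (gr g ρ) 0 * cv a N 0 + 2 * ∑ k ∈ Finset.Icc 1 R, ct (gr g ρ) (h * k) * cv a N k +
      h ^ 2 * ∑ k ∈ Finset.Icc 1 R, ct (mu 2 (gr g ρ)) (h * k) * Vr a N k =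
      ∑ k ∈ Finset.Icc 1 R, (WW (cv a N) k - Vr a N k) * D k +
      ∑ k ∈ Finset.Icc 1 R, Vr a N k * (D k + h ^ 2 * ct (mu 2 (gr g ρ)) (h * k)) +
      (φ R * WW (cv a N) (R + 1) - φ (R + 1) * WW (cv a N) R) := by
    rw [e0, hab, Finset.mul_sum, ← Finset.sum_add_distrib]
    have e2 : ∑ k ∈ Finset.Icc 1 R, ((WW (cv a N) k - Vr a N k) * D k +
        Vr a N k * (D k + h ^ 2 * ct (mu 2 (gr g ρ)) (h * k))) =
        ∑ k ∈ Finset.Icc 1 R, WW (cv a N) k * (φ (k + 1) - 2 * φ k + φ (k - 1)) +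
        ∑ k ∈ Finset.Icc 1 R, h ^ 2 * (ct (mu 2 (gr g ρ)) (h * k) * Vr a N k) := by
      rw [← Finset.sum_add_distrib]
      refine Finset.sum_congr rfl fun k _ => ?_
      rw [hD]
      ring
    rw [e2]
    ring
  rw [e1]
  -- the three terms
  have b1 : |∑ k ∈ Finset.Icc 1 R, (WW (cv a N) k - Vr a N k) * D k| ≤ T := by
    refine (Finset.abs_sum_le_sum_abs _ _).trans (le_trans ?_ hεB)
    rw [hB, Finset.mul_sum]
    refine Finset.sum_le_sum fun k hk => ?_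
    rw [abs_mul]
    refine mul_le_mul_of_nonneg_right ?_ (abs_nonneg _)
    rw [abs_sub_comm]
    refine hN1 k (Finset.mem_Icc.2 ⟨(Finset.mem_Icc.1 hk).1, ?_⟩)
    have := (Finset.mem_Icc.1 hk).2
    omega
  have b2 : |∑ k ∈ Finset.Icc 1 R, Vr a N k * (D k + h ^ 2 * ct (mu 2 (gr g ρ)) (h * k))| ≤
      32 * C3 * K2 * K6 / Real.log 2 * T := by
    have c1 : |∑ k ∈ Finset.Icc 1 R, Vr a N k * (D k + h ^ 2 * ct (mu 2 (gr g ρ)) (h * k))| ≤
        32 * C3 * K2 * h ^ 3 *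
          ∑ k ∈ Finset.Icc 1 R, Real.log (k + 1) ^ 2 / (1 + (h * k - ρ) ^ 2) := by
      refine (Finset.abs_sum_le_sum_abs _ _).trans ?_
      rw [Finset.mul_sum]
      refine Finset.sum_le_sum fun k hk => ?_
      have hk' := Finset.mem_Icc.1 hk
      rw [abs_mul, abs_of_nonneg (Vr_nonneg a N k)]
      have d1 := hN2 k (Finset.mem_Icc.2 ⟨hk'.1, by omega⟩)
      have d2 := hDb k hk'.1
      calc Vr a N k * |D k + h ^ 2 * ct (mu 2 (gr g ρ)) (h * k)|
          ≤ (K2 * Real.log (k + 1) ^ 2) * (32 * C3 * h ^ 3 / (1 + (h * k - ρ) ^ 2)) :=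
            mul_le_mul d1 d2 (abs_nonneg _) (by positivity)
        _ = _ := by ring
    have c2 := hK6 h ρ h0 h2 hρ0 hρ1 R
    have c3 : 32 * C3 * K2 * h ^ 3 *
        ∑ k ∈ Finset.Icc 1 R, Real.log (k + 1) ^ 2 / (1 + (h * k - ρ) ^ 2) ≤
        32 * C3 * K2 * h ^ 3 * (K6 * Real.log (1 / h) ^ 2 / h) :=
      mul_le_mul_of_nonneg_left c2 (by positivity)
    refine c1.trans (c3.trans ?_)
    have c4 : 32 * C3 * K2 * h ^ 3 * (K6 * Real.log (1 / h) ^ 2 / h) =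
        32 * C3 * K2 * K6 * (h ^ 2 * Real.log (1 / h) ^ 2) := by
      field_simp
    have c5 : h ^ 2 * Real.log (1 / h) ^ 2 ≤ T / Real.log 2 := by
      rw [le_div_iff₀ hl2, hT]
      calc h ^ 2 * Real.log (1 / h) ^ 2 * Real.log 2 ≤
          h ^ 2 * Real.log (1 / h) ^ 2 * Real.log (1 / h) :=
            mul_le_mul_of_nonneg_left hlh (by positivity)
        _ = _ := by ring
    rw [c4]
    calc 32 * C3 * K2 * K6 * (h ^ 2 * Real.log (1 / h) ^ 2) ≤
        32 * C3 * K2 * K6 * (T / Real.log 2) := mul_le_mul_of_nonneg_left c5 (by positivity)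
      _ = _ := by ring
  have b3 : |φ R * WW (cv a N) (R + 1) - φ (R + 1) * WW (cv a N) R| ≤ T := by
    have hWb : ∀ k ∈ Finset.Icc 1 (R + 1), |WW (cv a N) k| ≤ (12 * K2 + 1) * R := by
      intro k hk
      have hk' := Finset.mem_Icc.1 hk
      have d1 := hN1 k hk
      have d2 := hN2 k hk
      have d3 : Real.log ((k : ℝ) + 1) ^ 2 ≤ 4 * ((k : ℝ) + 1) := by
        apply log_sq_le
        have : (0 : ℝ) ≤ k := Nat.cast_nonneg _
        linarith
      have d4 : (k : ℝ) + 1 ≤ 3 * R := by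
        have : (k : ℝ) ≤ R + 1 := by exact_mod_cast hk'.2
        linarith
      have d5 : |WW (cv a N) k| ≤ Vr a N k + ε := by
        have e2 : WW (cv a N) k = Vr a N k - (Vr a N k - WW (cv a N) k) := by ring
        rw [e2]
        refine (abs_sub _ _).trans ?_
        rw [abs_of_nonneg (Vr_nonneg a N k)]
        linarith
      have d6 : K2 * Real.log ((k : ℝ) + 1) ^ 2 ≤ K2 * (12 * R) := by
        apply mul_le_mul_of_nonneg_left _ hK20
        linarith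
      calc |WW (cv a N) k| ≤ Vr a N k + ε := d5
        _ ≤ K2 * (12 * R) + R := by linarith
        _ = _ := by ring
    have hRpos : (0 : ℝ) < R := by linarith
    have hφb : ∀ k : ℕ, R ≤ k → |φ k| ≤ 8 * C1 / (h * R) ^ 2 := by
      intro k hk
      rw [hφ, hsh1]
      have hkr : (R : ℝ) ≤ k := by exact_mod_cast hk
      have d1 : h * R ≤ h * k := mul_le_mul_of_nonneg_left hkr h0.le
      have d3 : h * R / 2 ≤ h * k - ρ := by linarith
      have d4 : h * R / 2 ≤ h * k + ρ := by linarith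
      have key : ∀ y : ℝ, h * R / 2 ≤ y → |ct g y| ≤ 4 * C1 / (h * R) ^ 2 := by
        intro y hy
        refine (hC1 _).trans ?_
        have d5 : (h * (R : ℝ) / 2) ^ 2 ≤ y ^ 2 := pow_le_pow_left₀ (by positivity) hy 2
        have d6 := mul_le_mul_of_nonneg_left d5 hC10
        have d7 : C1 * (h * R) ^ 2 = 4 * (C1 * (h * R / 2) ^ 2) := by ring
        rw [div_le_div_iff₀ (by positivity) (by positivity), d7]
        linarith
      refine (abs_add_le _ _).trans ?_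
      have e5 : 8 * C1 / (h * (R : ℝ)) ^ 2 =
          4 * C1 / (h * R) ^ 2 + 4 * C1 / (h * R) ^ 2 := by ring
      rw [e5]
      exact add_le_add (key _ d3) (key _ d4)
    have d1 := hφb R le_rfl
    have d2 := hφb (R + 1) (Nat.le_succ R)
    have d3 := hWb (R + 1) (Finset.mem_Icc.2 ⟨by omega, le_rfl⟩)
    have d4 := hWb R (Finset.mem_Icc.2 ⟨hR1, by omega⟩)
    have d5 : |φ R * WW (cv a N) (R + 1) - φ (R + 1) * WW (cv a N) R| ≤
        8 * C1 / (h * R) ^ 2 * ((12 * K2 + 1) * R) +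
          8 * C1 / (h * R) ^ 2 * ((12 * K2 + 1) * R) := by
      refine (abs_sub _ _).trans ?_
      rw [abs_mul, abs_mul]
      exact add_le_add (mul_le_mul d1 d3 (abs_nonneg _) (by positivity))
        (mul_le_mul d2 d4 (abs_nonneg _) (by positivity))
    refine d5.trans ?_
    have d6 : 8 * C1 / (h * R) ^ 2 * ((12 * K2 + 1) * R) +
        8 * C1 / (h * R) ^ 2 * ((12 * K2 + 1) * R) =
        16 * C1 * (12 * K2 + 1) / (h ^ 2 * R) := by
      field_simp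
      ring
    rw [d6, div_le_iff₀ (by positivity)]
    rw [div_le_iff₀ (by positivity)] at hRr
    calc 16 * C1 * (12 * K2 + 1) ≤ R * (h ^ 2 * T) := hRr
      _ = T * (h ^ 2 * R) := by ring
  refine (abs_add_le _ _).trans ?_
  have b12 := abs_add_le (∑ k ∈ Finset.Icc 1 R, (WW (cv a N) k - Vr a N k) * D k)
    (∑ k ∈ Finset.Icc 1 R, Vr a N k * (D k + h ^ 2 * ct (mu 2 (gr g ρ)) (h * k)))
  calc _ ≤ (T + 32 * C3 * K2 * K6 / Real.log 2 * T) + T :=
        add_le_add (b12.trans (add_le_add b1 b2)) b3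
    _ = _ := by ring

end Pool.Agent.H666.LRC.P122
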