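import Mathlib
import Pool.Agent.H666.LRC.Defs5

/-! V2 of project LRC: the high frequencies (by helper864 for helper666). -/

set_option autoImplicit false

open Filter Topology MeasureTheory

namespace Pool.Agent.H666.LRC.PV864

/-- the dyadic points -/
noncomputable def c (h : ℝ) (j : ℕ) : ℝ := min (2 ^ j * h) (1 / 2)

theorem c_pos {h : ℝ} (hh : 0 < h) (j : ℕ) : 0 < c h j := by
  unfold c
  exact lt_min (by positivity) (by norm_num)

theorem c_le (h : ℝ) (j : ℕ) : c h j ≤ 1 / 2 := min_le_right _ _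

theorem c_mono {h : ℝ} (hh : 0 < h) (j : ℕ) : c h j ≤ c h (j + 1) := by
  unfold c
  refine min_le_min ?_ le_rfl
  rw [pow_succ]
  nlinarith [show 0 < (2 : ℝ) ^ j * h by positivity]

theorem c_succ_le {h : ℝ} (hh : 0 < h) (j : ℕ) : c h (j + 1) ≤ 2 * c h j := by
  unfold c
  rcases min_choice (2 ^ j * h) (1 / 2 : ℝ) with h1 | h1
  · rw [h1]
    refine (min_le_left _ _).trans ?_
    rw [pow_succ]
    linarith
  · rw [h1]
    refine (min_le_right _ _).trans ?_
    norm_num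

theorem h_le_c {h : ℝ} (hh : 0 < h) (hh4 : h ≤ 1 / 4) (j : ℕ) : h ≤ c h j := by
  induction j with
  | zero =>
    unfold c
    rw [pow_zero, one_mul]
    exact le_min le_rfl (by linarith)
  | succ j ih => exact ih.trans (c_mono hh j)

theorem ii {P : ℝ → ℝ} (hc : Continuous P) {a b : ℝ} (ha : 0 < a) (hb : 0 < b) :
    IntervalIntegrable (fun θ => P θ / θ ^ 2) volume a b := by
  refine ContinuousOn.intervalIntegrable ?_
  refine hc.continuousOn.div (by fun_prop) fun x hx => ?_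
  have h0 : 0 < x := lt_of_lt_of_le (lt_min ha hb) hx.1
  positivity

theorem step {P : ℝ → ℝ} (hc : Continuous P) (hp : ∀ θ, 0 ≤ P θ) {a b K : ℝ} (ha : 0 < a)
    (hab : a ≤ b) (hb : b ≤ 2 * a) (hK : 0 ≤ K) (hm : ∫ θ in (0 : ℝ)..b, P θ ≤ K * b ^ 2) :
    ∫ θ in a..b, P θ / θ ^ 2 ≤ 4 * K := by
  have hb0 : 0 < b := lt_of_lt_of_le ha hab
  have h1 : ∫ θ in a..b, P θ / θ ^ 2 ≤ ∫ θ in a..b, P θ / a ^ 2 := by
    refine intervalIntegral.integral_mono_on hab (ii hc ha hb0)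
      ((hc.div_const _).intervalIntegrable _ _) fun θ hθ => ?_
    have h2 : a ^ 2 ≤ θ ^ 2 := pow_le_pow_left₀ ha.le hθ.1 2
    exact div_le_div_of_nonneg_left (hp θ) (by positivity) h2
  have h3 : ∫ θ in a..b, P θ / a ^ 2 = (∫ θ in a..b, P θ) / a ^ 2 :=
    intervalIntegral.integral_div _ _
  have h4 : ∫ θ in a..b, P θ ≤ ∫ θ in (0 : ℝ)..b, P θ := by
    rw [← intervalIntegral.integral_add_adjacent_intervals (hc.intervalIntegrable 0 a)
      (hc.intervalIntegrable a b)]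
    have h5 : 0 ≤ ∫ θ in (0 : ℝ)..a, P θ :=
      intervalIntegral.integral_nonneg ha.le fun θ _ => hp θ
    linarith
  have h6 : b ^ 2 ≤ 4 * a ^ 2 := by
    have h7 := pow_le_pow_left₀ hb0.le hb 2
    calc b ^ 2 ≤ (2 * a) ^ 2 := h7
      _ = 4 * a ^ 2 := by ring
  refine h1.trans ?_
  rw [h3, div_le_iff₀ (by positivity)]
  calc ∫ θ in a..b, P θ ≤ K * b ^ 2 := h4.trans hm
    _ ≤ K * (4 * a ^ 2) := mul_le_mul_of_nonneg_left h6 hK
    _ = 4 * K * a ^ 2 := by ring

theorem ind {P : ℕ → ℝ → ℝ} (hc : ∀ N, Continuous (P N)) (hp : ∀ N θ, 0 ≤ P N θ) {K : ℝ}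
    (hK : 0 ≤ K) (hm : ∀ h : ℝ, 0 < h → h ≤ 1 / 2 → ∀ᶠ N : ℕ in atTop,
      ∫ θ in (0 : ℝ)..h, P N θ ≤ K * h ^ 2) {h : ℝ} (hh : 0 < h) (hh4 : h ≤ 1 / 4) (j : ℕ) :
    ∀ᶠ N : ℕ in atTop, ∫ θ in h..c h j, P N θ / θ ^ 2 ≤ 4 * K * j := by
  induction j with
  | zero =>
    refine Eventually.of_forall fun N => ?_
    have h0 : c h 0 = h := by
      unfold c
      rw [pow_zero, one_mul]
      exact min_eq_left (by linarith)
    rw [h0, intervalIntegral.integral_same]
    simp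
  | succ j ih =>
    filter_upwards [ih, hm (c h (j + 1)) (c_pos hh _) (c_le h _)] with N h1 h2
    rw [← intervalIntegral.integral_add_adjacent_intervals (ii (hc N) hh (c_pos hh j))
      (ii (hc N) (c_pos hh j) (c_pos hh (j + 1)))]
    have h3 := step (hc N) (hp N) (c_pos hh j) (c_mono hh j) (c_succ_le hh j) hK h2
    push_cast
    linarith

theorem V2 : Pool.Agent.H666.LRC.S_high := by
  rintro P hc hp ⟨K, hK, hm⟩
  have hl2 : 0 < Real.log 2 := Real.log_pos (by norm_num)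
  refine ⟨4 * K * (1 / Real.log 2 + 1), by positivity, ?_⟩
  intro h hh hh4
  set J : ℕ := ⌈Real.log (1 / h) / Real.log 2⌉₊ with hJ
  have h4 : (4 : ℝ) ≤ 1 / h := by
    rw [le_div_iff₀ hh]
    linarith
  have hlog : 1 ≤ Real.log (1 / h) := by
    rw [Real.le_log_iff_exp_le (by positivity)]
    have := Real.exp_one_lt_d9
    linarith
  have hJ1 : (J : ℝ) ≤ Real.log (1 / h) / Real.log 2 + 1 :=
    (Nat.ceil_lt_add_one (by positivity)).le
  have hJ2 : Real.log (1 / h) / Real.log 2 ≤ J := Nat.le_ceil _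
  have hcJ : c h J = 1 / 2 := by
    unfold c
    refine min_eq_right ?_
    rw [div_le_iff₀ hl2, ← Real.log_pow, Real.log_le_log_iff (by positivity) (by positivity),
      div_le_iff₀ hh] at hJ2
    linarith
  have hi := ind hc hp hK hm hh hh4 J
  rw [hcJ] at hi
  filter_upwards [hi] with N hN
  refine hN.trans ?_
  calc 4 * K * (J : ℝ) ≤ 4 * K * (Real.log (1 / h) / Real.log 2 + 1) := by gcongr
    _ ≤ 4 * K * (Real.log (1 / h) / Real.log 2 + Real.log (1 / h)) := by gcongr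
    _ = 4 * K * (1 / Real.log 2 + 1) * Real.log (1 / h) := by ring

end Pool.Agent.H666.LRC.PV864
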