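import Mathlib
import Pool.Agent.H666.LRC.Defs5

open Filter Topology MeasureTheory

namespace Pool.Agent.H666.LRC.PV437

open Pool.Agent.H666.LRC

theorem G0_contDiff : ContDiff ℝ 2 G0 := by
  unfold G0
  exact Real.smoothTransition.contDiff.comp (by fun_prop)

theorem G0_one {t : ℝ} (ht : t ≤ 1 / 2) : G0 t = 1 := by
  unfold G0
  exact Real.smoothTransition.one_of_one_le (by linarith)

theorem G0_zero {t : ℝ} (ht : 1 ≤ t) : G0 t = 0 := by
  unfold G0
  exact Real.smoothTransition.zero_of_nonpos (by linarith)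

/-- `ψ t = G0 t - G0 (2 t)` -/
noncomputable def psi (t : ℝ) : ℝ := G0 t - G0 (2 * t)

theorem psi_contDiff : ContDiff ℝ 2 psi := by
  unfold psi
  exact G0_contDiff.sub (G0_contDiff.comp (by fun_prop))

theorem psi_low {t : ℝ} (ht : t ≤ 1 / 4) : psi t = 0 := by
  unfold psi
  rw [G0_one (by linarith), G0_one (by linarith), sub_self]

theorem psi_high {t : ℝ} (ht : 1 ≤ t) : psi t = 0 := by
  unfold psi
  rw [G0_zero ht, G0_zero (by linarith), sub_self]

/-- `ψ t / (2 π² t²)` -/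
noncomputable def GG (t : ℝ) : ℝ := psi t / (2 * Real.pi ^ 2 * t ^ 2)

theorem GG_high {t : ℝ} (ht : 1 ≤ t) : GG t = 0 := by
  unfold GG
  rw [psi_high ht, zero_div]

theorem GG_contDiff : ContDiff ℝ 2 GG := by
  rw [contDiff_iff_contDiffAt]
  intro t
  rcases lt_or_ge t (1 / 4) with ht | ht
  · have h1 : GG =ᶠ[𝓝 t] fun _ => (0 : ℝ) := by
      filter_upwards [Iio_mem_nhds ht] with s hs
      unfold GG
      rw [psi_low (le_of_lt hs), zero_div]
    exact contDiffAt_const.congr_of_eventuallyEq h1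
  · have ht0 : t ≠ 0 := by
      intro h
      rw [h] at ht
      norm_num at ht
    unfold GG
    refine ContDiffAt.div psi_contDiff.contDiffAt (by fun_prop) ?_
    have := Real.pi_pos
    positivity

theorem key (m hj θ : ℝ) (hhj : hj ≠ 0) :
    psi (θ / hj) * ck m θ = (1 / hj ^ 2) * (GG (θ / hj) * (1 - Real.cos (2 * Real.pi * m * θ))) := by
  unfold GG ck
  by_cases hθ : θ = 0
  · subst hθ
    simp
  · have := Real.pi_ne_zero
    field_simp

theorem tele (h θ : ℝ) (J : ℕ) :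
    G0 (θ / h) - G0 (2 ^ J * θ / h) = ∑ j ∈ Finset.range J, psi (θ / (h / 2 ^ j)) := by
  have h1 := Finset.sum_range_sub' (fun j : ℕ => G0 (2 ^ j * θ / h)) J
  simp only [pow_zero, one_mul] at h1
  rw [← h1]
  refine Finset.sum_congr rfl fun j _ => ?_
  unfold psi
  have e1 : θ / (h / 2 ^ j) = 2 ^ j * θ / h := by
    rw [div_div_eq_mul_div, mul_comm]
  have e2 : 2 * (θ / (h / 2 ^ j)) = 2 ^ (j + 1) * θ / h := by
    rw [e1, pow_succ]
    ring
  rw [e2, e1]

theorem V3 : Pool.Agent.H666.LRC.S_middle := by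
  intro P hP
  obtain ⟨hPc, -, hPG, -⟩ := hP
  obtain ⟨K, hK, hKG⟩ := hPG GG GG_contDiff (GG_high le_rfl)
  refine ⟨4 * K, by positivity, ?_⟩
  intro m h J hm hh hh2 hL
  set L := Real.log (m + 2 * 2 ^ J / h) with hLdef
  have hscale : ∀ j ∈ Finset.range J, 0 < h / 2 ^ j ∧ h / 2 ^ j ≤ h ∧
      2 / (h / 2 ^ j) ≤ 2 * 2 ^ J / h ∧ 4 ≤ 2 / (h / 2 ^ j) := by
    intro j hj
    have hj' : j < J := Finset.mem_range.mp hj
    have hp : (1 : ℝ) ≤ 2 ^ j := one_le_pow₀ (by norm_num)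
    have hp0 : (0 : ℝ) < 2 ^ j := by positivity
    have e1 : 2 / (h / 2 ^ j) = 2 * 2 ^ j / h := by rw [div_div_eq_mul_div]
    refine ⟨by positivity, div_le_self hh.le hp, ?_, ?_⟩
    · rw [e1]
      have : (2 : ℝ) ^ j ≤ 2 ^ J := pow_le_pow_right₀ (by norm_num) hj'.le
      gcongr
    · rw [e1, le_div_iff₀ hh]
      nlinarith
  have hL0 : 0 ≤ L := by
    refine Real.log_nonneg ?_
    have : 0 < 2 * 2 ^ J / h := by positivity
    linarith
  have hlog : ∀ j ∈ Finset.range J, ∀ m' : ℝ, 0 ≤ m' → m' ≤ m →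
      0 ≤ Real.log (m' + 2 / (h / 2 ^ j)) ∧ Real.log (m' + 2 / (h / 2 ^ j)) ≤ L := by
    intro j hj m' h0 h1
    obtain ⟨a1, a2, a3, a4⟩ := hscale j hj
    refine ⟨Real.log_nonneg (by linarith), ?_⟩
    exact Real.log_le_log (by linarith) (by linarith)
  have hev : ∀ᶠ N : ℕ in atTop, ∀ j ∈ Finset.range J, ∀ m' ∈ ({0, m} : Finset ℝ),
      |∫ θ in (0 : ℝ)..(h / 2 ^ j), GG (θ / (h / 2 ^ j)) * Real.cos (2 * Real.pi * m' * θ) *
        (P N θ - θ)| ≤ K * ((h / 2 ^ j) ^ 3 * L ^ 3) := by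
    rw [Filter.eventually_all_finset]
    intro j hj
    rw [Filter.eventually_all_finset]
    intro m' hm'
    have hm01 : 0 ≤ m' ∧ m' ≤ m := by
      rw [Finset.mem_insert, Finset.mem_singleton] at hm'
      rcases hm' with rfl | rfl
      · exact ⟨le_rfl, by linarith⟩
      · exact ⟨by linarith, le_rfl⟩
    obtain ⟨a1, a2, a3, a4⟩ := hscale j hj
    obtain ⟨b1, b2⟩ := hlog j hj m' hm01.1 hm01.2
    have hcond : h / 2 ^ j * Real.log (m' + 2 / (h / 2 ^ j)) ≤ 1 :=
      (mul_le_mul a2 b2 b1 hh.le).trans hL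
    filter_upwards [hKG (h / 2 ^ j) m' a1 (a2.trans hh2) hm01.1 hcond] with N hN
    refine hN.trans ?_
    have : Real.log (m' + 2 / (h / 2 ^ j)) ^ 3 ≤ L ^ 3 := pow_le_pow_left₀ b1 b2 3
    gcongr
  filter_upwards [hev] with N hN
  have hGc : Continuous GG := GG_contDiff.continuous
  have hPN := hPc N
  -- the `j`-th integral
  have hI : ∀ j ∈ Finset.range J,
      |∫ θ in (0 : ℝ)..h, psi (θ / (h / 2 ^ j)) * ck m θ * (P N θ - θ)| ≤ 2 * K * (h / 2 ^ j * L ^ 3) := by
    intro j hj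
    obtain ⟨a1, a2, a3, a4⟩ := hscale j hj
    set r := h / 2 ^ j with hr
    have hcont : ∀ m' : ℝ, Continuous fun θ : ℝ => GG (θ / r) * Real.cos (2 * Real.pi * m' * θ) *
        (P N θ - θ) := by
      intro m'
      have : Continuous fun θ : ℝ => GG (θ / r) := hGc.comp (continuous_id.div_const r)
      fun_prop
    have e1 : ∀ θ : ℝ, psi (θ / r) * ck m θ * (P N θ - θ) =
        (1 / r ^ 2) * (GG (θ / r) * Real.cos (2 * Real.pi * 0 * θ) * (P N θ - θ) -
          GG (θ / r) * Real.cos (2 * Real.pi * m * θ) * (P N θ - θ)) := by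
      intro θ
      rw [key m r θ a1.ne']
      simp only [mul_zero, zero_mul, Real.cos_zero]
      ring
    have e2 : ∫ θ in (0 : ℝ)..h, psi (θ / r) * ck m θ * (P N θ - θ) =
        (1 / r ^ 2) * ((∫ θ in (0 : ℝ)..r, GG (θ / r) * Real.cos (2 * Real.pi * 0 * θ) * (P N θ - θ)) -
          ∫ θ in (0 : ℝ)..r, GG (θ / r) * Real.cos (2 * Real.pi * m * θ) * (P N θ - θ)) := by
      simp only [e1]
      rw [intervalIntegral.integral_const_mul]
      congr 1
      rw [intervalIntegral.integral_sub ((hcont 0).intervalIntegrable _ _)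
        ((hcont m).intervalIntegrable _ _)]
      have hz : ∀ m' : ℝ, ∫ θ in (0 : ℝ)..h, GG (θ / r) * Real.cos (2 * Real.pi * m' * θ) *
          (P N θ - θ) = ∫ θ in (0 : ℝ)..r, GG (θ / r) * Real.cos (2 * Real.pi * m' * θ) *
          (P N θ - θ) := by
        intro m'
        rw [← intervalIntegral.integral_add_adjacent_intervals
          ((hcont m').intervalIntegrable 0 r) ((hcont m').intervalIntegrable r h)]
        have : ∫ θ in r..h, GG (θ / r) * Real.cos (2 * Real.pi * m' * θ) * (P N θ - θ) = 0 := by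
          rw [intervalIntegral.integral_congr (g := fun _ => (0 : ℝ))]
          · simp
          · intro θ hθ
            rw [Set.uIcc_of_le a2] at hθ
            have : 1 ≤ θ / r := by
              rw [le_div_iff₀ a1, one_mul]
              exact hθ.1
            simp only
            rw [GG_high this, zero_mul, zero_mul]
        rw [this, add_zero]
      rw [hz 0, hz m]
    rw [e2, abs_mul, abs_of_pos (by positivity)]
    have c1 := hN j hj 0 (by simp)
    have c2 := hN j hj m (by simp)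
    have c3 := (abs_sub _ _).trans (add_le_add c1 c2)
    calc _ ≤ (1 / r ^ 2) * (K * (r ^ 3 * L ^ 3) + K * (r ^ 3 * L ^ 3)) :=
          mul_le_mul_of_nonneg_left c3 (by positivity)
      _ = 2 * K * (r * L ^ 3) := by
          field_simp
          ring
  have hcont2 : ∀ j ∈ Finset.range J, Continuous fun θ : ℝ => psi (θ / (h / 2 ^ j)) * ck m θ * (P N θ - θ) := by
    intro j hj
    obtain ⟨a1, a2, a3, a4⟩ := hscale j hj
    have e1 : (fun θ : ℝ => psi (θ / (h / 2 ^ j)) * ck m θ * (P N θ - θ)) = fun θ =>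
        (1 / (h / 2 ^ j) ^ 2) * (GG (θ / (h / 2 ^ j)) * (1 - Real.cos (2 * Real.pi * m * θ))) *
          (P N θ - θ) := by
      funext θ
      rw [key m (h / 2 ^ j) θ a1.ne']
    rw [e1]
    have : Continuous fun θ : ℝ => GG (θ / (h / 2 ^ j)) := hGc.comp (continuous_id.div_const _)
    fun_prop
  have e3 : ∫ θ in (0 : ℝ)..h, (G0 (θ / h) - G0 (2 ^ J * θ / h)) * ck m θ * (P N θ - θ) =
      ∑ j ∈ Finset.range J, ∫ θ in (0 : ℝ)..h, psi (θ / (h / 2 ^ j)) * ck m θ * (P N θ - θ) := by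
    rw [← intervalIntegral.integral_finsetSum fun j hj => (hcont2 j hj).intervalIntegrable _ _]
    refine intervalIntegral.integral_congr fun θ _ => ?_
    show (G0 (θ / h) - G0 (2 ^ J * θ / h)) * ck m θ * (P N θ - θ) =
      ∑ j ∈ Finset.range J, psi (θ / (h / 2 ^ j)) * ck m θ * (P N θ - θ)
    rw [tele, Finset.sum_mul, Finset.sum_mul]
  rw [e3]
  refine (Finset.abs_sum_le_sum_abs _ _).trans ((Finset.sum_le_sum hI).trans ?_)
  have hgeo : ∑ j ∈ Finset.range J, h / 2 ^ j ≤ 2 * h := by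
    have h1 : ∑ j ∈ Finset.range J, h / 2 ^ j = h * ∑ j ∈ Finset.range J, (1 / 2 : ℝ) ^ j := by
      rw [Finset.mul_sum]
      refine Finset.sum_congr rfl fun j _ => ?_
      rw [one_div, inv_pow, div_eq_mul_inv]
    have h2 : ∑ j ∈ Finset.range J, (1 / 2 : ℝ) ^ j ≤ 2 := sum_geometric_two_le J
    rw [h1]
    nlinarith
  calc ∑ j ∈ Finset.range J, 2 * K * (h / 2 ^ j * L ^ 3)
      = 2 * K * L ^ 3 * ∑ j ∈ Finset.range J, h / 2 ^ j := by
        rw [Finset.mul_sum]
        exact Finset.sum_congr rfl fun j _ => by ring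
    _ ≤ 2 * K * L ^ 3 * (2 * h) := mul_le_mul_of_nonneg_left hgeo (by positivity)
    _ = 4 * K * (h * L ^ 3) := by ring

end Pool.Agent.H666.LRC.PV437
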