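import Mathlib
import Pool.Agent.H666.LRC.Defs5

/-!
helper297: the main term (V4).
-/

set_option autoImplicit false

open Filter Topology MeasureTheory Set

namespace Pool.Agent.H666.LRC.PV297

open Pool.Agent.H666.LRC

theorem G0_smooth : ContDiff ℝ 1 G0 := by
  have h1 : ContDiff ℝ 1 (fun t : ℝ => 2 - 2 * t) := by fun_prop
  exact (Real.smoothTransition.contDiff (n := 1)).comp h1

theorem G0_nonneg (t : ℝ) : 0 ≤ G0 t := Real.smoothTransition.nonneg _

theorem G0_le (t : ℝ) : G0 t ≤ 1 := Real.smoothTransition.le_one _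

theorem G0_one {t : ℝ} (ht : t ≤ 1 / 2) : G0 t = 1 :=
  Real.smoothTransition.one_of_one_le (by linarith)

theorem G0_zero {t : ℝ} (ht : 1 ≤ t) : G0 t = 0 :=
  Real.smoothTransition.zero_of_nonpos (by linarith)

theorem ck_nonneg (m θ : ℝ) : 0 ≤ ck m θ :=
  div_nonneg (by linarith [Real.cos_le_one (2 * Real.pi * m * θ)]) (by positivity)

theorem ck_le (m θ : ℝ) : ck m θ ≤ m ^ 2 := by
  unfold ck
  rcases eq_or_ne θ 0 with h | h
  · rw [h]
    simp only [ne_eq, OfNat.ofNat_ne_zero, not_false_eq_true, zero_pow, mul_zero, div_zero]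
    positivity
  · rw [div_le_iff₀ (by positivity)]
    have h1 := Real.one_sub_sq_div_two_le_cos (x := 2 * Real.pi * m * θ)
    nlinarith

theorem ck_meas (m : ℝ) : Measurable (ck m) := by
  unfold ck
  fun_prop

theorem ii {f : ℝ → ℝ} (hf : Measurable f) {a b C : ℝ} (hab : a ≤ b)
    (h : ∀ x ∈ Ioc a b, |f x| ≤ C) : IntervalIntegrable f volume a b := by
  rw [intervalIntegrable_iff_integrableOn_Ioc_of_le hab]
  refine Measure.integrableOn_of_bounded (M := C) (by simp) hf.aestronglyMeasurable ?_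
  exact (ae_restrict_iff' measurableSet_Ioc).2 (Eventually.of_forall fun x hx => h x hx)

theorem V4 : S_mainlog := by
  obtain ⟨C, hC⟩ := isCompact_Icc.exists_bound_of_continuousOn
    ((G0_smooth.continuous_deriv le_rfl).continuousOn (s := Icc (0 : ℝ) 1))
  have hC0 : 0 ≤ C := (norm_nonneg _).trans (hC 0 ⟨le_rfl, zero_le_one⟩)
  have hGc : Continuous G0 := G0_smooth.continuous
  refine ⟨13 + C, by linarith, ?_⟩
  intro m h J hm hh hh2 h1 h2
  have hm0 : 0 < m := by linarith
  have h2J : (1 : ℝ) ≤ 2 ^ J := one_le_pow₀ (by norm_num)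
  have h2J0 : (0 : ℝ) < 2 ^ J := by positivity
  set h' : ℝ := h / 2 ^ J with hh'
  have hh'0 : 0 < h' := by positivity
  have hh'h : h' ≤ h := div_le_self hh.le h2J
  have e1 : m * h / 2 ^ J = m * h' := by rw [hh']; ring
  rw [e1] at h1 h2
  have hmh : 1 ≤ m * h := h1.trans (mul_le_mul_of_nonneg_left hh'h hm0.le)
  have hm' : 0 < 1 / m := by positivity
  have hmh' : 1 / m ≤ h := by rw [div_le_iff₀ hm0]; linarith
  -- the two parts
  have mA : Measurable fun θ : ℝ => G0 (θ / h) * (ck m θ * θ) :=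
    (hGc.measurable.comp (measurable_id.div_const h)).mul ((ck_meas m).mul measurable_id)
  have mB : Measurable fun θ : ℝ => G0 (2 ^ J * θ / h) * (ck m θ * θ) :=
    (hGc.measurable.comp ((measurable_id.const_mul _).div_const h)).mul
      ((ck_meas m).mul measurable_id)
  have bnd : ∀ g θ b : ℝ, 0 ≤ g → g ≤ 1 → 0 ≤ θ → θ ≤ b → |g * (ck m θ * θ)| ≤ m ^ 2 * b := by
    intro g θ b hg hg1 hθ hθb
    have k1 := ck_nonneg m θ
    have k2 := ck_le m θ
    rw [abs_of_nonneg (by positivity)]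
    calc g * (ck m θ * θ) ≤ 1 * (ck m θ * θ) := mul_le_mul_of_nonneg_right hg1 (by positivity)
      _ = ck m θ * θ := one_mul _
      _ ≤ m ^ 2 * b := mul_le_mul k2 hθb hθ (by positivity)
  have iA : ∀ a b : ℝ, 0 ≤ a → a ≤ b →
      IntervalIntegrable (fun θ : ℝ => G0 (θ / h) * (ck m θ * θ)) volume a b := fun a b ha hab =>
    ii mA hab fun x hx => bnd _ x b (G0_nonneg _) (G0_le _) (ha.trans hx.1.le) hx.2
  have iB : ∀ a b : ℝ, 0 ≤ a → a ≤ b →
      IntervalIntegrable (fun θ : ℝ => G0 (2 ^ J * θ / h) * (ck m θ * θ)) volume a b :=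
    fun a b ha hab =>
    ii mB hab fun x hx => bnd _ x b (G0_nonneg _) (G0_le _) (ha.trans hx.1.le) hx.2
  have eS : ∫ θ in (0 : ℝ)..h, (G0 (θ / h) - G0 (2 ^ J * θ / h)) * ck m θ * θ =
      (∫ θ in (0 : ℝ)..h, G0 (θ / h) * (ck m θ * θ)) -
        ∫ θ in (0 : ℝ)..h, G0 (2 ^ J * θ / h) * (ck m θ * θ) := by
    rw [← intervalIntegral.integral_sub (iA 0 h le_rfl hh.le) (iB 0 h le_rfl hh.le)]
    refine intervalIntegral.integral_congr fun θ _ => ?_
    show (G0 (θ / h) - G0 (2 ^ J * θ / h)) * ck m θ * θ =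
      G0 (θ / h) * (ck m θ * θ) - G0 (2 ^ J * θ / h) * (ck m θ * θ)
    ring
  -- the second part
  have bB : |∫ θ in (0 : ℝ)..h, G0 (2 ^ J * θ / h) * (ck m θ * θ)| ≤ 4 := by
    rw [← intervalIntegral.integral_add_adjacent_intervals (iB 0 h' le_rfl hh'0.le)
      (iB h' h hh'0.le hh'h)]
    have k1 : ∫ θ in h'..h, G0 (2 ^ J * θ / h) * (ck m θ * θ) = 0 := by
      have k2 : ∫ θ in h'..h, G0 (2 ^ J * θ / h) * (ck m θ * θ) = ∫ _θ in h'..h, (0 : ℝ) := by
        refine intervalIntegral.integral_congr fun θ hθ => ?_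
        rw [uIcc_of_le hh'h] at hθ
        show G0 (2 ^ J * θ / h) * (ck m θ * θ) = 0
        rw [G0_zero, zero_mul]
        rw [le_div_iff₀ hh, one_mul]
        have k3 := hθ.1
        rw [hh', div_le_iff₀ h2J0] at k3
        linarith
      rw [k2, intervalIntegral.integral_zero]
    rw [k1, add_zero]
    have k4 := intervalIntegral.norm_integral_le_of_norm_le_const (a := 0) (b := h')
      (f := fun θ : ℝ => G0 (2 ^ J * θ / h) * (ck m θ * θ)) (C := m ^ 2 * h') (fun x hx => by
        rw [uIoc_of_le hh'0.le] at hx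
        exact bnd _ x h' (G0_nonneg _) (G0_le _) hx.1.le hx.2)
    rw [Real.norm_eq_abs, sub_zero, abs_of_pos hh'0] at k4
    refine k4.trans ?_
    nlinarith
  -- the first part
  have eA := intervalIntegral.integral_add_adjacent_intervals (iA 0 (1 / m) le_rfl hm'.le)
    (iA (1 / m) h hm'.le hmh')
  have bA : |∫ θ in (0 : ℝ)..(1 / m), G0 (θ / h) * (ck m θ * θ)| ≤ 1 := by
    have k4 := intervalIntegral.norm_integral_le_of_norm_le_const (a := 0) (b := 1 / m)
      (f := fun θ : ℝ => G0 (θ / h) * (ck m θ * θ)) (C := m ^ 2 * (1 / m)) (fun x hx => by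
        rw [uIoc_of_le hm'.le] at hx
        exact bnd _ x (1 / m) (G0_nonneg _) (G0_le _) hx.1.le hx.2)
    rw [Real.norm_eq_abs, sub_zero, abs_of_pos hm'] at k4
    refine k4.trans_eq ?_
    field_simp
  -- the main part
  have hpos : ∀ θ ∈ uIcc (1 / m) h, 0 < θ := by
    intro θ hθ
    rw [uIcc_of_le hmh'] at hθ
    exact hm'.trans_le hθ.1
  have cG : Continuous fun θ : ℝ => G0 (θ / h) := hGc.comp (continuous_id.div_const h)
  have cu : ContinuousOn (fun θ : ℝ => G0 (θ / h) / θ) (uIcc (1 / m) h) :=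
    cG.continuousOn.div continuousOn_id fun θ hθ => (hpos θ hθ).ne'
  have cuc : ContinuousOn (fun θ : ℝ => G0 (θ / h) / θ * Real.cos (2 * Real.pi * m * θ))
      (uIcc (1 / m) h) := cu.mul (by fun_prop)
  have c1 : ContinuousOn (fun θ : ℝ => 1 / θ) (uIcc (1 / m) h) :=
    continuousOn_const.div continuousOn_id fun θ hθ => (hpos θ hθ).ne'
  have eM : 2 * ∫ θ in (1 / m)..h, G0 (θ / h) * (ck m θ * θ) =
      1 / Real.pi ^ 2 * (Real.log (m * h) - (∫ θ in (1 / m)..h, (1 - G0 (θ / h)) / θ) -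
        ∫ θ in (1 / m)..h, G0 (θ / h) / θ * Real.cos (2 * Real.pi * m * θ)) := by
    have k1 : Real.log (m * h) = ∫ θ in (1 / m)..h, 1 / θ := by
      rw [integral_one_div_of_pos hm' hh]
      congr 1
      field_simp
    have c2 : ContinuousOn (fun θ : ℝ => (1 - G0 (θ / h)) / θ) (uIcc (1 / m) h) :=
      (continuous_const.sub cG).continuousOn.div continuousOn_id fun θ hθ => (hpos θ hθ).ne'
    have c3 : ContinuousOn (fun θ : ℝ => 1 / θ - (1 - G0 (θ / h)) / θ) (uIcc (1 / m) h) :=
      c1.sub c2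
    rw [k1, ← intervalIntegral.integral_sub c1.intervalIntegrable c2.intervalIntegrable,
      ← intervalIntegral.integral_sub c3.intervalIntegrable cuc.intervalIntegrable,
      ← intervalIntegral.integral_const_mul, ← intervalIntegral.integral_const_mul]
    refine intervalIntegral.integral_congr fun θ hθ => ?_
    have k2 := (hpos θ hθ).ne'
    show 2 * (G0 (θ / h) * (ck m θ * θ)) = 1 / Real.pi ^ 2 * (1 / θ - (1 - G0 (θ / h)) / θ -
      G0 (θ / h) / θ * Real.cos (2 * Real.pi * m * θ))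
    unfold ck
    have k3 := Real.pi_pos.ne'
    field_simp
    ring
  have b1 : |∫ θ in (1 / m)..h, (1 - G0 (θ / h)) / θ| ≤ 2 := by
    have k4 := intervalIntegral.norm_integral_le_of_norm_le_const (a := 1 / m) (b := h)
      (f := fun θ : ℝ => (1 - G0 (θ / h)) / θ) (C := 2 / h) (fun θ hθ => by
        rw [uIoc_of_le hmh'] at hθ
        have k5 : 0 < θ := hm'.trans hθ.1
        rw [Real.norm_eq_abs, abs_of_nonneg (div_nonneg (by linarith [G0_le (θ / h)]) k5.le)]
        rcases le_total θ (h / 2) with k6 | k6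
        · rw [G0_one, sub_self, zero_div]
          · positivity
          · rw [div_le_iff₀ hh]
            linarith
        · rw [div_le_div_iff₀ k5 hh]
          have k7 := G0_nonneg (θ / h)
          have k8 := G0_le (θ / h)
          nlinarith)
    rw [Real.norm_eq_abs] at k4
    refine k4.trans ?_
    rw [abs_of_nonneg (by linarith), div_mul_eq_mul_div, div_le_iff₀ hh]
    nlinarith
  have b2 : |∫ θ in (1 / m)..h, G0 (θ / h) / θ * Real.cos (2 * Real.pi * m * θ)| ≤ C + 1 := by
    set c : ℝ := 2 * Real.pi * m with hc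
    have hc0 : 0 < c := by positivity
    have hcm : m ≤ c := by
      have := Real.pi_gt_three
      nlinarith
    have hu : ∀ θ ∈ uIcc (1 / m) h, HasDerivAt (fun θ : ℝ => G0 (θ / h) / θ)
        ((deriv G0 (θ / h) * (1 / h) * θ - G0 (θ / h) * 1) / θ ^ 2) θ := by
      intro θ hθ
      have k1 : HasDerivAt G0 (deriv G0 (θ / h)) (θ / h) :=
        ((G0_smooth.differentiable one_ne_zero) _).hasDerivAt
      have k2 : HasDerivAt (fun θ : ℝ => θ / h) (1 / h) θ := (hasDerivAt_id θ).div_const h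
      exact (k1.comp θ k2).div (hasDerivAt_id θ) (hpos θ hθ).ne'
    have hv : ∀ θ ∈ uIcc (1 / m) h, HasDerivAt (fun θ : ℝ => Real.sin (c * θ) / c)
        (Real.cos (c * θ)) θ := by
      intro θ _
      have k1 : HasDerivAt (fun θ : ℝ => c * θ) (c * 1) θ := (hasDerivAt_id θ).const_mul c
      have k2 := (k1.sin).div_const c
      have k3 : Real.cos (c * θ) * (c * 1) / c = Real.cos (c * θ) := by
        field_simp
      rwa [k3] at k2
    have cu' : ContinuousOn (fun θ : ℝ => (deriv G0 (θ / h) * (1 / h) * θ - G0 (θ / h) * 1) / θ ^ 2)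
        (uIcc (1 / m) h) := by
      have k1 : Continuous fun θ : ℝ => deriv G0 (θ / h) :=
        (G0_smooth.continuous_deriv le_rfl).comp (continuous_id.div_const h)
      refine ContinuousOn.div ?_ (by fun_prop) fun θ hθ => pow_ne_zero 2 (hpos θ hθ).ne'
      exact (((k1.mul continuous_const).mul continuous_id).sub
        (cG.mul continuous_const)).continuousOn
    have hp := intervalIntegral.integral_mul_deriv_eq_deriv_mul hu hv cu'.intervalIntegrable
      (by fun_prop : Continuous fun θ : ℝ => Real.cos (c * θ)).continuousOn.intervalIntegrable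
    have z1 : G0 (h / h) = 0 := G0_zero (by rw [div_self hh.ne'])
    have z2 : Real.sin (c * (1 / m)) = 0 := by
      have : c * (1 / m) = 2 * Real.pi := by
        rw [hc]
        field_simp
      rw [this, Real.sin_two_pi]
    rw [z1, z2, zero_div, zero_div, zero_mul, mul_zero, sub_zero, zero_sub] at hp
    rw [hp, abs_neg]
    have k5 : ‖∫ θ in (1 / m)..h, (deriv G0 (θ / h) * (1 / h) * θ - G0 (θ / h) * 1) / θ ^ 2 *
        (Real.sin (c * θ) / c)‖ ≤ ∫ θ in (1 / m)..h, (C + 1) / c * (1 / θ ^ 2) := by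
      have ci : ContinuousOn (fun θ : ℝ => (C + 1) / c * (1 / θ ^ 2)) (uIcc (1 / m) h) :=
        continuousOn_const.mul (continuousOn_const.div (by fun_prop)
          fun θ hθ => pow_ne_zero 2 (hpos θ hθ).ne')
      refine intervalIntegral.norm_integral_le_of_norm_le hmh' (Eventually.of_forall fun θ hθ => ?_)
        ci.intervalIntegrable
      have k6 : 0 < θ := hm'.trans hθ.1
      have k7 : θ / h ∈ Icc (0 : ℝ) 1 := ⟨by positivity, by rw [div_le_one hh]; exact hθ.2⟩
      have k8 := hC _ k7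
      rw [Real.norm_eq_abs] at k8
      have k9 : |deriv G0 (θ / h) * (1 / h) * θ - G0 (θ / h) * 1| ≤ C + 1 := by
        have l1 : |deriv G0 (θ / h) * (1 / h) * θ| ≤ C := by
          have l2 : deriv G0 (θ / h) * (1 / h) * θ = deriv G0 (θ / h) * (θ / h) := by ring
          rw [l2, abs_mul, abs_of_nonneg k7.1]
          calc |deriv G0 (θ / h)| * (θ / h) ≤ C * 1 := mul_le_mul k8 k7.2 k7.1 hC0
            _ = C := mul_one C
        have l3 : |G0 (θ / h) * 1| ≤ 1 := by
          rw [mul_one, abs_of_nonneg (G0_nonneg _)]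
          exact G0_le _
        exact (abs_sub _ _).trans (add_le_add l1 l3)
      rw [Real.norm_eq_abs, abs_mul, abs_div, abs_div, abs_of_pos hc0, abs_of_pos (pow_pos k6 2)]
      have k10 : |Real.sin (c * θ)| ≤ 1 := Real.abs_sin_le_one _
      have k11 : |deriv G0 (θ / h) * (1 / h) * θ - G0 (θ / h) * 1| / θ ^ 2 *
          (|Real.sin (c * θ)| / c) ≤ (C + 1) / θ ^ 2 * (1 / c) := by
        refine mul_le_mul (div_le_div_of_nonneg_right k9 (by positivity))
          (div_le_div_of_nonneg_right k10 hc0.le) (by positivity) (by positivity)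
      refine k11.trans_eq ?_
      ring
    rw [Real.norm_eq_abs] at k5
    refine k5.trans ?_
    rw [intervalIntegral.integral_const_mul]
    have k12 : ∫ θ in (1 / m)..h, 1 / θ ^ 2 = m - 1 / h := by
      have l1 : ∀ θ ∈ uIcc (1 / m) h, HasDerivAt (fun θ : ℝ => -θ⁻¹) (1 / θ ^ 2) θ := by
        intro θ hθ
        have l2 := (hasDerivAt_inv (hpos θ hθ).ne').neg
        have l3 : -(-(θ ^ 2)⁻¹) = 1 / θ ^ 2 := by rw [neg_neg, one_div]
        rwa [l3] at l2
      rw [intervalIntegral.integral_eq_sub_of_hasDerivAt l1 (ContinuousOn.intervalIntegrable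
        (continuousOn_const.div (by fun_prop) fun θ hθ => pow_ne_zero 2 (hpos θ hθ).ne'))]
      rw [one_div, inv_inv, one_div]
      ring
    rw [k12]
    have k13 : m - 1 / h ≤ c := by
      have : 0 < 1 / h := by positivity
      linarith
    calc (C + 1) / c * (m - 1 / h) ≤ (C + 1) / c * c :=
          mul_le_mul_of_nonneg_left k13 (by positivity)
      _ = C + 1 := by field_simp
  -- assembly
  rw [eS, ← eA]
  set A1 := ∫ θ in (0 : ℝ)..(1 / m), G0 (θ / h) * (ck m θ * θ) with hA1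
  set A2 := ∫ θ in (1 / m)..h, G0 (θ / h) * (ck m θ * θ) with hA2
  set B := ∫ θ in (0 : ℝ)..h, G0 (2 ^ J * θ / h) * (ck m θ * θ) with hB
  set I1 := ∫ θ in (1 / m)..h, (1 - G0 (θ / h)) / θ with hI1
  set I2 := ∫ θ in (1 / m)..h, G0 (θ / h) / θ * Real.cos (2 * Real.pi * m * θ) with hI2
  have hpi : 1 / Real.pi ^ 2 ≤ 1 := by
    rw [div_le_one (by positivity)]
    have := Real.pi_gt_three
    nlinarith
  have hpi0 : 0 < 1 / Real.pi ^ 2 := by positivity
  have e2 : 2 * (A1 + A2 - B) - 1 / Real.pi ^ 2 * Real.log (m * h) =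
      2 * A1 - 2 * B - 1 / Real.pi ^ 2 * (I1 + I2) := by
    have e3 : 2 * (A1 + A2 - B) = 2 * A1 - 2 * B + 2 * A2 := by ring
    rw [e3, eM]
    ring
  rw [e2]
  have f1 : |1 / Real.pi ^ 2 * (I1 + I2)| ≤ 2 + (C + 1) := by
    rw [abs_mul, abs_of_pos hpi0]
    have f2 := abs_add_le I1 I2
    have f3 : |I1 + I2| ≤ 2 + (C + 1) := by linarith
    calc 1 / Real.pi ^ 2 * |I1 + I2| ≤ 1 * (2 + (C + 1)) :=
          mul_le_mul hpi f3 (abs_nonneg _) zero_le_one
      _ = _ := one_mul _
  rw [abs_le] at f1 bA bB ⊢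
  constructor <;> linarith [f1.1, f1.2, bA.1, bA.2, bB.1, bB.2]

end Pool.Agent.H666.LRC.PV297

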