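import Mathlib
import Pool.Agent.H666.LRC.Defs5

set_option autoImplicit false

namespace Pool.Agent.H666.LRC.PV933

open Pool.Agent.H666.LRC

theorem abs_sin_mul (m : ℕ) (x : ℝ) : |Real.sin (m * x)| ≤ m * |Real.sin x| := by
  induction m with
  | zero => simp
  | succ n ih =>
    have h1 : ((n + 1 : ℕ) : ℝ) * x = n * x + x := by push_cast; ring
    rw [h1, Real.sin_add]
    have h2 : |Real.sin (n * x) * Real.cos x| ≤ |Real.sin (n * x)| := by
      rw [abs_mul]
      exact mul_le_of_le_one_right (abs_nonneg _) (Real.abs_cos_le_one x)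
    have h3 : |Real.cos (n * x) * Real.sin x| ≤ |Real.sin x| := by
      rw [abs_mul]
      exact mul_le_of_le_one_left (abs_nonneg _) (Real.abs_cos_le_one _)
    calc |Real.sin (n * x) * Real.cos x + Real.cos (n * x) * Real.sin x|
        ≤ |Real.sin (n * x) * Real.cos x| + |Real.cos (n * x) * Real.sin x| := abs_add_le _ _
      _ ≤ n * |Real.sin x| + |Real.sin x| := by linarith
      _ = ((n + 1 : ℕ) : ℝ) * |Real.sin x| := by push_cast; ring

theorem V5 : Pool.Agent.H666.LRC.S_kern := by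
  intro m θ h0 h1
  have hpi := Real.pi_pos
  set x : ℝ := Real.pi * θ with hx
  have hx0 : 0 < x := by positivity
  have hx1 : x ≤ Real.pi / 2 := by rw [hx]; nlinarith
  have hs0 : 0 < Real.sin x := Real.sin_pos_of_pos_of_lt_pi hx0 (by linarith)
  have hs1 : Real.sin x ≤ x := Real.sin_le hx0.le
  have harg : Real.pi * m * θ = m * x := by rw [hx]; ring
  set S : ℝ := Real.sin (m * x) with hS
  have hFj : Fj m θ = S ^ 2 / Real.sin x ^ 2 := by unfold Fj; rw [harg]
  have hS1 : S ^ 2 ≤ 1 := by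
    have := Real.sin_sq_add_cos_sq (m * x)
    nlinarith [sq_nonneg (Real.cos (m * x))]
  have hS0 : 0 ≤ S ^ 2 := sq_nonneg _
  have hck : ck m θ = S ^ 2 / x ^ 2 := by
    unfold ck
    have e1 : 2 * Real.pi * m * θ = 2 * (m * x) := by rw [hx]; ring
    rw [e1, Real.cos_two_mul, Real.cos_sq', hx]
    rw [div_eq_div_iff (by positivity) (by positivity)]
    ring
  clear_value S x
  refine ⟨?_, ?_, ?_, ?_⟩
  · rw [hFj]; positivity
  · rw [hFj, div_le_iff₀ (by positivity)]
    have h2 := abs_sin_mul m x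
    rw [← hS] at h2
    have h3 : |S| ^ 2 ≤ (m * |Real.sin x|) ^ 2 := pow_le_pow_left₀ (abs_nonneg S) h2 2
    rw [sq_abs, mul_pow, sq_abs] at h3
    exact h3
  · rw [hFj]
    have h2 : 2 / Real.pi * x ≤ Real.sin x := Real.mul_le_sin hx0.le hx1
    have h3 : 2 / Real.pi * x = 2 * θ := by rw [hx]; field_simp
    rw [h3] at h2
    rw [div_le_div_iff₀ (by positivity) (by positivity)]
    have h4 : 4 * θ ^ 2 ≤ Real.sin x ^ 2 := by nlinarith
    nlinarith [sq_nonneg θ]
  · rw [hFj, hck]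
    have hA : x / Real.sqrt (1 + x ^ 2) ≤ Real.sin x := by
      rw [← Real.sin_arctan]
      have h5 : Real.arctan x ≤ x := by
        have h51 := Real.le_tan (Real.arctan_nonneg.2 hx0.le) (Real.arctan_lt_pi_div_two x)
        rwa [Real.tan_arctan] at h51
      exact Real.sin_le_sin_of_le_of_le_pi_div_two
        (by have := Real.neg_pi_div_two_lt_arctan x; linarith) hx1 h5
    have hsq : x ^ 2 ≤ Real.sin x ^ 2 * (1 + x ^ 2) := by
      have h6 : 0 < Real.sqrt (1 + x ^ 2) := Real.sqrt_pos.2 (by positivity)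
      rw [div_le_iff₀ h6] at hA
      have h7 : x ^ 2 ≤ (Real.sin x * Real.sqrt (1 + x ^ 2)) ^ 2 := pow_le_pow_left₀ hx0.le hA 2
      have h71 : Real.sqrt (1 + x ^ 2) ^ 2 = 1 + x ^ 2 := Real.sq_sqrt (by positivity)
      rw [mul_pow, h71] at h7
      exact h7
    have hd0 : 0 ≤ 1 / Real.sin x ^ 2 - 1 / x ^ 2 := by
      rw [sub_nonneg]
      apply one_div_le_one_div_of_le (by positivity)
      gcongr
    have hd1 : 1 / Real.sin x ^ 2 - 1 / x ^ 2 ≤ 1 := by
      have h8 : 1 / Real.sin x ^ 2 ≤ (1 + x ^ 2) / x ^ 2 := by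
        rw [div_le_div_iff₀ (by positivity) (by positivity)]
        linarith
      have h9 : (1 + x ^ 2) / x ^ 2 = 1 / x ^ 2 + 1 := by field_simp
      linarith
    have h10 : S ^ 2 / Real.sin x ^ 2 - S ^ 2 / x ^ 2 =
        S ^ 2 * (1 / Real.sin x ^ 2 - 1 / x ^ 2) := by ring
    rw [h10, abs_of_nonneg (mul_nonneg hS0 hd0)]
    nlinarith

end Pool.Agent.H666.LRC.PV933
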