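import Mathlib
import Pool.Agent.H666.LRC.Defs5

/-! V6: assembly (helper268). -/

namespace Pool.Agent.H666.LRC.PV268

open Filter Topology MeasureTheory intervalIntegral
open Pool.Agent.H666.LRC

theorem G0_cont : Continuous G0 := by
  unfold G0
  exact Real.smoothTransition.continuous.comp (by fun_prop)

theorem G0_nonneg (t : ℝ) : 0 ≤ G0 t := Real.smoothTransition.nonneg _

theorem G0_le_one (t : ℝ) : G0 t ≤ 1 := Real.smoothTransition.le_one _

theorem G0_one {t : ℝ} (h : t ≤ 1 / 2) : G0 t = 1 :=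
  Real.smoothTransition.one_of_one_le (by linarith)

theorem G0_zero {t : ℝ} (h : 1 ≤ t) : G0 t = 0 :=
  Real.smoothTransition.zero_of_nonpos (by linarith)

theorem Fj_meas (m : ℕ) : Measurable (Fj m) := by
  unfold Fj
  fun_prop

theorem ck_meas (m : ℝ) : Measurable (ck m) := by
  unfold ck
  fun_prop

theorem Fj_zero (m : ℕ) : Fj m 0 = 0 := by
  unfold Fj
  simp

theorem ck_zero (m : ℝ) : ck m 0 = 0 := by
  unfold ck
  simp

theorem ii_of_bdd {f : ℝ → ℝ} (hf : Measurable f) {C : ℝ}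
    (hC : ∀ θ, 0 < θ → θ ≤ 1 / 2 → |f θ| ≤ C) : IntervalIntegrable f volume 0 (1 / 2) := by
  rw [intervalIntegrable_iff_integrableOn_Ioc_of_le (by norm_num)]
  refine Measure.integrableOn_of_bounded (M := C) ?_ hf.aestronglyMeasurable ?_
  · exact measure_Ioc_lt_top.ne
  · filter_upwards [ae_restrict_mem measurableSet_Ioc] with θ hθ
    rw [Real.norm_eq_abs]
    exact hC θ hθ.1 hθ.2

theorem cut {f : ℝ → ℝ} {a : ℝ} (ha0 : 0 ≤ a) (ha : a ≤ 1 / 2)
    (hf : IntervalIntegrable f volume 0 (1 / 2)) (h0 : ∀ θ, a ≤ θ → θ ≤ 1 / 2 → f θ = 0) :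
    ∫ θ in (0 : ℝ)..(1 / 2), f θ = ∫ θ in (0 : ℝ)..a, f θ := by
  have h1 : IntervalIntegrable f volume 0 a := hf.mono_set (by
    rw [Set.uIcc_of_le ha0, Set.uIcc_of_le (by norm_num)]
    exact Set.Icc_subset_Icc le_rfl ha)
  have h2 : IntervalIntegrable f volume a (1 / 2) := hf.mono_set (by
    rw [Set.uIcc_of_le ha, Set.uIcc_of_le (by norm_num)]
    exact Set.Icc_subset_Icc ha0 le_rfl)
  rw [← integral_add_adjacent_intervals h1 h2]
  have h3 : ∫ θ in a..(1 / 2 : ℝ), f θ = 0 := by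
    have h4 : ∫ θ in a..(1 / 2 : ℝ), f θ = ∫ θ in a..(1 / 2 : ℝ), (0 : ℝ) := by
      refine integral_congr fun θ hθ => ?_
      rw [Set.uIcc_of_le ha] at hθ
      exact h0 θ hθ.1 hθ.2
    rw [h4, intervalIntegral.integral_zero]
  rw [h3, add_zero]

theorem cutl {f : ℝ → ℝ} {a : ℝ} (ha0 : 0 ≤ a) (ha : a ≤ 1 / 2)
    (hf : IntervalIntegrable f volume 0 (1 / 2)) (h0 : ∀ θ, 0 ≤ θ → θ ≤ a → f θ = 0) :
    ∫ θ in (0 : ℝ)..(1 / 2), f θ = ∫ θ in a..(1 / 2 : ℝ), f θ := by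
  have h1 : IntervalIntegrable f volume 0 a := hf.mono_set (by
    rw [Set.uIcc_of_le ha0, Set.uIcc_of_le (by norm_num)]
    exact Set.Icc_subset_Icc le_rfl ha)
  have h2 : IntervalIntegrable f volume a (1 / 2) := hf.mono_set (by
    rw [Set.uIcc_of_le ha, Set.uIcc_of_le (by norm_num)]
    exact Set.Icc_subset_Icc ha0 le_rfl)
  rw [← integral_add_adjacent_intervals h1 h2]
  have h3 : ∫ θ in (0 : ℝ)..a, f θ = 0 := by
    have h4 : ∫ θ in (0 : ℝ)..a, f θ = ∫ θ in (0 : ℝ)..a, (0 : ℝ) := by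
      refine integral_congr fun θ hθ => ?_
      rw [Set.uIcc_of_le ha0] at hθ
      exact h0 θ hθ.1 hθ.2
    rw [h4, intervalIntegral.integral_zero]
  rw [h3, zero_add]

/-- the kernel bounds on `[0, 1/2]` -/
theorem kern0 (hk : S_kern) (m : ℕ) {θ : ℝ} (h0 : 0 ≤ θ) (h1 : θ ≤ 1 / 2) :
    0 ≤ Fj m θ ∧ Fj m θ ≤ (m : ℝ) ^ 2 ∧ |Fj m θ - ck m θ| ≤ 1 := by
  rcases h0.eq_or_lt with h | h
  · rw [← h, Fj_zero, ck_zero]
    refine ⟨le_rfl, by positivity, by norm_num⟩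
  · obtain ⟨a, b, -, d⟩ := hk m θ h h1
    exact ⟨a, b, d⟩

theorem iF (hk : S_kern) (m : ℕ) : IntervalIntegrable (Fj m) volume 0 (1 / 2) := by
  refine ii_of_bdd (Fj_meas m) (C := (m : ℝ) ^ 2) fun θ h0 h1 => ?_
  obtain ⟨a, b, -⟩ := kern0 hk m h0.le h1
  rw [abs_of_nonneg a]
  exact b

theorem iC (hk : S_kern) (m : ℕ) : IntervalIntegrable (ck m) volume 0 (1 / 2) := by
  refine ii_of_bdd (ck_meas m) (C := (m : ℝ) ^ 2 + 1) fun θ h0 h1 => ?_
  obtain ⟨a, b, c⟩ := kern0 hk m h0.le h1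
  have h2 := abs_le.1 c
  rw [abs_le]
  constructor
  · linarith [sq_nonneg (m : ℝ)]
  · linarith

/-- the deterministic estimate -/
theorem est (hk : S_kern) (m : ℕ) (p : ℝ → ℝ) (hp : Continuous p) (hp0 : ∀ θ, 0 ≤ p θ)
    (h : ℝ) (J : ℕ) (h0 : 0 < h) (h1 : h ≤ 1 / 2) :
    |2 * (∫ θ in (0 : ℝ)..(1 / 2), Fj m θ * p θ) -
      2 * (∫ θ in (0 : ℝ)..h, (G0 (θ / h) - G0 (2 ^ J * θ / h)) * ck m θ * θ)| ≤
    1 / 2 * (∫ θ in (h / 2)..(1 / 2 : ℝ), p θ / θ ^ 2) +
      2 * ((m : ℝ) ^ 2 * ∫ θ in (0 : ℝ)..(h / 2 ^ J), p θ) +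
      2 * (∫ θ in (0 : ℝ)..(1 / 2), p θ) +
      2 * |∫ θ in (0 : ℝ)..h, (G0 (θ / h) - G0 (2 ^ J * θ / h)) * ck m θ * (p θ - θ)| := by
  have hJ : (1 : ℝ) ≤ 2 ^ J := one_le_pow₀ (by norm_num)
  have hJ0 : (0 : ℝ) < 2 ^ J := by positivity
  have hh' : h / 2 ^ J ≤ h := div_le_self h0.le hJ
  have hh'0 : 0 < h / 2 ^ J := by positivity
  have cG1 : Continuous fun θ : ℝ => G0 (θ / h) := G0_cont.comp (by fun_prop)
  have cG2 : Continuous fun θ : ℝ => G0 (2 ^ J * θ / h) := G0_cont.comp (by fun_prop)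
  have cD : Continuous fun θ : ℝ => G0 (θ / h) - G0 (2 ^ J * θ / h) := cG1.sub cG2
  -- monotonicity
  have hG1z : ∀ θ : ℝ, h ≤ θ → G0 (θ / h) = 0 := fun θ hθ => G0_zero (by
    rw [le_div_iff₀ h0]
    linarith)
  have hG2z : ∀ θ : ℝ, h / 2 ^ J ≤ θ → G0 (2 ^ J * θ / h) = 0 := fun θ hθ => G0_zero (by
    rw [le_div_iff₀ h0]
    rw [div_le_iff₀ hJ0] at hθ
    linarith)
  have hDabs : ∀ θ : ℝ, |G0 (θ / h) - G0 (2 ^ J * θ / h)| ≤ 1 := fun θ => by
    rw [abs_le]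
    constructor
    · linarith [G0_nonneg (θ / h), G0_le_one (2 ^ J * θ / h)]
    · linarith [G0_le_one (θ / h), G0_nonneg (2 ^ J * θ / h)]
  -- integrability
  have iFp : IntervalIntegrable (fun θ => Fj m θ * p θ) volume 0 (1 / 2) :=
    (iF hk m).mul_continuousOn hp.continuousOn
  have iA : IntervalIntegrable (fun θ => Fj m θ * ((1 - G0 (θ / h)) * p θ)) volume 0 (1 / 2) :=
    (iF hk m).mul_continuousOn ((continuous_const.sub cG1).mul hp).continuousOn
  have iB : IntervalIntegrable (fun θ => Fj m θ * (G0 (2 ^ J * θ / h) * p θ)) volume 0 (1 / 2) :=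
    (iF hk m).mul_continuousOn (cG2.mul hp).continuousOn
  have iCc : IntervalIntegrable (fun θ => (Fj m θ - ck m θ) *
      ((G0 (θ / h) - G0 (2 ^ J * θ / h)) * p θ)) volume 0 (1 / 2) :=
    ((iF hk m).sub (iC hk m)).mul_continuousOn (cD.mul hp).continuousOn
  have iD : IntervalIntegrable (fun θ => (G0 (θ / h) - G0 (2 ^ J * θ / h)) * ck m θ *
      (p θ - θ)) volume 0 (1 / 2) := by
    have e : (fun θ => (G0 (θ / h) - G0 (2 ^ J * θ / h)) * ck m θ * (p θ - θ)) =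
        fun θ => ck m θ * ((G0 (θ / h) - G0 (2 ^ J * θ / h)) * (p θ - θ)) := by
      funext θ
      ring
    rw [e]
    exact (iC hk m).mul_continuousOn (cD.mul (hp.sub continuous_id)).continuousOn
  have iE : IntervalIntegrable (fun θ => (G0 (θ / h) - G0 (2 ^ J * θ / h)) * ck m θ * θ)
      volume 0 (1 / 2) := by
    have e : (fun θ => (G0 (θ / h) - G0 (2 ^ J * θ / h)) * ck m θ * θ) =
        fun θ => ck m θ * ((G0 (θ / h) - G0 (2 ^ J * θ / h)) * θ) := by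
      funext θ
      ring
    rw [e]
    exact (iC hk m).mul_continuousOn (cD.mul continuous_id).continuousOn
  have iP : IntervalIntegrable p volume 0 (1 / 2) := hp.intervalIntegrable _ _
  -- the decomposition
  have hdec : ∫ θ in (0 : ℝ)..(1 / 2), Fj m θ * p θ =
      (∫ θ in (0 : ℝ)..(1 / 2), Fj m θ * ((1 - G0 (θ / h)) * p θ)) +
      (∫ θ in (0 : ℝ)..(1 / 2), Fj m θ * (G0 (2 ^ J * θ / h) * p θ)) +
      (∫ θ in (0 : ℝ)..(1 / 2), (Fj m θ - ck m θ) *
        ((G0 (θ / h) - G0 (2 ^ J * θ / h)) * p θ)) +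
      (∫ θ in (0 : ℝ)..(1 / 2), (G0 (θ / h) - G0 (2 ^ J * θ / h)) * ck m θ * (p θ - θ)) +
      (∫ θ in (0 : ℝ)..(1 / 2), (G0 (θ / h) - G0 (2 ^ J * θ / h)) * ck m θ * θ) := by
    rw [← integral_add iA iB, ← integral_add (iA.add iB) iCc,
      ← integral_add ((iA.add iB).add iCc) iD, ← integral_add (((iA.add iB).add iCc).add iD) iE]
    refine integral_congr fun θ _ => ?_
    ring
  -- the parts
  have hA0 : 0 ≤ ∫ θ in (0 : ℝ)..(1 / 2), Fj m θ * ((1 - G0 (θ / h)) * p θ) := by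
    refine integral_nonneg (by norm_num) fun θ hθ => ?_
    exact mul_nonneg (kern0 hk m hθ.1 hθ.2).1 (mul_nonneg (by linarith [G0_le_one (θ / h)])
      (hp0 θ))
  have hA1 : ∫ θ in (0 : ℝ)..(1 / 2), Fj m θ * ((1 - G0 (θ / h)) * p θ) ≤
      1 / 4 * ∫ θ in (h / 2)..(1 / 2 : ℝ), p θ / θ ^ 2 := by
    rw [cutl (a := h / 2) (by linarith) (by linarith) iA fun θ _ hθ => by
      rw [G0_one (by rw [div_le_iff₀ h0]; linarith), sub_self, zero_mul, mul_zero],
      ← intervalIntegral.integral_const_mul]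
    have hsub : Set.uIcc (h / 2) (1 / 2) ⊆ Set.uIcc (0 : ℝ) (1 / 2) := by
      rw [Set.uIcc_of_le (by linarith), Set.uIcc_of_le (by norm_num)]
      exact Set.Icc_subset_Icc (by linarith) le_rfl
    refine integral_mono_on (by linarith) (iA.mono_set hsub) ?_ fun θ hθ => ?_
    · refine ContinuousOn.intervalIntegrable ?_
      refine continuousOn_const.mul (hp.continuousOn.div (by fun_prop) fun θ hθ => ?_)
      rw [Set.uIcc_of_le (by linarith)] at hθ
      have : 0 < θ := by linarith [hθ.1]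
      positivity
    · have hθ0 : 0 < θ := by linarith [hθ.1]
      obtain ⟨a1, -, a3, -⟩ := hk m θ hθ0 hθ.2
      have h3 : (1 - G0 (θ / h)) * p θ ≤ p θ := by
        have := mul_nonneg (G0_nonneg (θ / h)) (hp0 θ)
        linarith
      calc Fj m θ * ((1 - G0 (θ / h)) * p θ) ≤ Fj m θ * p θ := mul_le_mul_of_nonneg_left h3 a1
        _ ≤ 1 / (4 * θ ^ 2) * p θ := mul_le_mul_of_nonneg_right a3 (hp0 θ)
        _ = 1 / 4 * (p θ / θ ^ 2) := by
          field_simp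
  have hB0 : 0 ≤ ∫ θ in (0 : ℝ)..(1 / 2), Fj m θ * (G0 (2 ^ J * θ / h) * p θ) := by
    refine integral_nonneg (by norm_num) fun θ hθ => ?_
    exact mul_nonneg (kern0 hk m hθ.1 hθ.2).1 (mul_nonneg (G0_nonneg _) (hp0 θ))
  have hB1 : ∫ θ in (0 : ℝ)..(1 / 2), Fj m θ * (G0 (2 ^ J * θ / h) * p θ) ≤
      (m : ℝ) ^ 2 * ∫ θ in (0 : ℝ)..(h / 2 ^ J), p θ := by
    rw [cut (a := h / 2 ^ J) hh'0.le (by linarith) iB fun θ hθ _ => by
      rw [hG2z θ hθ, zero_mul, mul_zero], ← intervalIntegral.integral_const_mul]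
    have hsub : Set.uIcc 0 (h / 2 ^ J) ⊆ Set.uIcc (0 : ℝ) (1 / 2) := by
      rw [Set.uIcc_of_le hh'0.le, Set.uIcc_of_le (by norm_num)]
      exact Set.Icc_subset_Icc le_rfl (by linarith)
    refine integral_mono_on hh'0.le (iB.mono_set hsub)
      ((continuous_const.mul hp).intervalIntegrable _ _) fun θ hθ => ?_
    obtain ⟨a1, a2, -⟩ := kern0 hk m hθ.1 (by linarith [hθ.2])
    have h3 : G0 (2 ^ J * θ / h) * p θ ≤ p θ :=
      mul_le_of_le_one_left (hp0 θ) (G0_le_one _)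
    calc Fj m θ * (G0 (2 ^ J * θ / h) * p θ) ≤ Fj m θ * p θ := mul_le_mul_of_nonneg_left h3 a1
      _ ≤ (m : ℝ) ^ 2 * p θ := mul_le_mul_of_nonneg_right a2 (hp0 θ)
  have hC1 : |∫ θ in (0 : ℝ)..(1 / 2), (Fj m θ - ck m θ) *
      ((G0 (θ / h) - G0 (2 ^ J * θ / h)) * p θ)| ≤ ∫ θ in (0 : ℝ)..(1 / 2), p θ := by
    refine (abs_integral_le_integral_abs (by norm_num)).trans ?_
    refine integral_mono_on (by norm_num) iCc.abs iP fun θ hθ => ?_
    obtain ⟨-, -, a3⟩ := kern0 hk m hθ.1 hθ.2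
    rw [abs_mul, abs_mul, abs_of_nonneg (hp0 θ)]
    calc |Fj m θ - ck m θ| * (|G0 (θ / h) - G0 (2 ^ J * θ / h)| * p θ) ≤ 1 * (1 * p θ) :=
          mul_le_mul a3 (mul_le_mul_of_nonneg_right (hDabs θ) (hp0 θ))
            (mul_nonneg (abs_nonneg _) (hp0 θ)) zero_le_one
      _ = p θ := by ring
  have hD1 := cut h0.le h1 iD fun θ hθ _ => by
    rw [hG1z θ hθ, hG2z θ (hh'.trans hθ), sub_self, zero_mul, zero_mul]
  have hE1 := cut h0.le h1 iE fun θ hθ _ => by
    rw [hG1z θ hθ, hG2z θ (hh'.trans hθ), sub_self, zero_mul, zero_mul]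
  rw [hdec, hD1, hE1]
  have hC2 := abs_le.1 hC1
  have hD2 := neg_abs_le (∫ θ in (0 : ℝ)..h, (G0 (θ / h) - G0 (2 ^ J * θ / h)) * ck m θ * (p θ - θ))
  have hD3 := le_abs_self (∫ θ in (0 : ℝ)..h, (G0 (θ / h) - G0 (2 ^ J * θ / h)) * ck m θ * (p θ - θ))
  rw [abs_le]
  constructor
  · linarith [hC2.1]
  · linarith [hC2.2]

/-- numbers -/
theorem loglog {m : ℕ} (hm : 16 ≤ m) : 1 ≤ Real.log (Real.log m) ∧
    Real.log (Real.log (3 * m)) ≤ 2 * Real.log (Real.log m) ∧ 1 ≤ Real.log (3 * m) := by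
  have hm' : (16 : ℝ) ≤ m := by exact_mod_cast hm
  have hm0 : (0 : ℝ) < m := by linarith
  have h2 := Real.log_two_gt_d9
  have h16 : Real.log 16 = 4 * Real.log 2 := by
    rw [show (16 : ℝ) = 2 ^ 4 by norm_num, Real.log_pow]
    norm_num
  have h3 : Real.log 16 ≤ Real.log m := Real.log_le_log (by norm_num) hm'
  have he := Real.exp_one_lt_d9
  have h4 : Real.exp 1 ≤ Real.log m := by linarith
  have h5 : 1 ≤ Real.log (Real.log m) := by
    have h6 := Real.log_le_log (Real.exp_pos 1) h4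
    rwa [Real.log_exp] at h6
  have h7 : Real.log (3 * m) = Real.log 3 + Real.log m := Real.log_mul (by norm_num) hm0.ne'
  have h8 : Real.log 3 ≤ Real.log m := Real.log_le_log (by norm_num) (by linarith)
  have h9 : 0 < Real.log 3 := Real.log_pos (by norm_num)
  have h10 : Real.log (3 * m) ≤ 2 * Real.log m := by linarith
  have h11 : 0 < Real.log m := by linarith
  have h12 : Real.log (Real.log (3 * m)) ≤ Real.log 2 + Real.log (Real.log m) := by
    rw [← Real.log_mul (by norm_num) h11.ne']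
    exact Real.log_le_log (by linarith) h10
  have h13 := Real.log_two_lt_d9
  exact ⟨h5, by linarith, by linarith⟩

theorem exists_m1 : ∃ m₁ : ℕ, 1 ≤ m₁ ∧ ∀ m : ℕ, m₁ ≤ m → Real.log (3 * m) ^ 3 ≤ m := by
  have h1 : ∀ᶠ x : ℝ in atTop, ‖Real.log x ^ 3‖ ≤ 1 / 3 * ‖id x‖ :=
    (Real.isLittleO_pow_log_id_atTop (n := 3)).bound (by norm_num)
  obtain ⟨Y, hY⟩ := eventually_atTop.1 h1
  refine ⟨max 1 ⌈Y⌉₊, le_max_left _ _, fun m hm => ?_⟩
  have hm0 : (0 : ℝ) ≤ m := Nat.cast_nonneg m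
  have h2 : Y ≤ m := (Nat.le_ceil Y).trans (by exact_mod_cast (le_max_right _ _).trans hm)
  have h3 := hY (3 * m) (by linarith)
  rw [id_eq, Real.norm_eq_abs, Real.norm_eq_abs, abs_of_nonneg (by linarith : (0 : ℝ) ≤ 3 * m)] at h3
  have h4 := le_abs_self (Real.log (3 * m) ^ 3)
  linarith

theorem V6 : Pool.Agent.H666.LRC.S_varlog := by
  intro hMass hHigh hMiddle hMain hKern P hP
  obtain ⟨K1, hK1, h1⟩ := hMass P hP
  obtain ⟨K2, hK2, h2⟩ := hHigh P hP.1 hP.2.1 ⟨K1, hK1, h1⟩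
  obtain ⟨K3, hK3, h3⟩ := hMiddle P hP
  obtain ⟨K4, hK4, h4⟩ := hMain
  obtain ⟨KB, hKB, hB⟩ := hP.2.2.2
  obtain ⟨m₁, hm₁, hlog⟩ := exists_m1
  refine ⟨(4 * K2 + 8 * K1 + 2 * KB + 2 * K3 + K4 + 6) +
    (2 * (m₁ : ℝ) ^ 2 * KB + Real.log m₁), ?_, ?_⟩
  · have : 0 ≤ Real.log (m₁ : ℝ) := Real.log_nonneg (by exact_mod_cast hm₁)
    positivity
  intro m hm
  obtain ⟨hll, hL2, hL1⟩ := loglog hm
  have hm' : (16 : ℝ) ≤ m := by exact_mod_cast hm
  have hm0 : (0 : ℝ) < m := by linarith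
  have hlogm1 : 0 ≤ Real.log (m₁ : ℝ) := Real.log_nonneg (by exact_mod_cast hm₁)
  have hpi : 1 / Real.pi ^ 2 ≤ 1 := by
    rw [div_le_one (by positivity)]
    have := Real.pi_gt_three
    nlinarith
  have hpi0 : 0 ≤ 1 / Real.pi ^ 2 := by positivity
  rcases lt_or_ge m m₁ with hmm | hmm
  · filter_upwards [hB] with N hN
    have i1 : 0 ≤ ∫ θ in (0 : ℝ)..(1 / 2), Fj m θ * P N θ :=
      integral_nonneg (by norm_num) fun θ hθ =>
        mul_nonneg (kern0 hKern m hθ.1 hθ.2).1 (hP.2.1 N θ)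
    have i2 : ∫ θ in (0 : ℝ)..(1 / 2), Fj m θ * P N θ ≤ (m : ℝ) ^ 2 * KB := by
      have i3 : ∫ θ in (0 : ℝ)..(1 / 2), Fj m θ * P N θ ≤
          ∫ θ in (0 : ℝ)..(1 / 2), (m : ℝ) ^ 2 * P N θ := by
        refine integral_mono_on (by norm_num)
          ((iF hKern m).mul_continuousOn (hP.1 N).continuousOn)
          ((continuous_const.mul (hP.1 N)).intervalIntegrable _ _) fun θ hθ => ?_
        exact mul_le_mul_of_nonneg_right (kern0 hKern m hθ.1 hθ.2).2.1 (hP.2.1 N θ)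
      rw [intervalIntegral.integral_const_mul] at i3
      exact i3.trans (mul_le_mul_of_nonneg_left hN (by positivity))
    have i4 : (m : ℝ) ^ 2 * KB ≤ (m₁ : ℝ) ^ 2 * KB := by
      refine mul_le_mul_of_nonneg_right ?_ hKB
      have : (m : ℝ) ≤ m₁ := by exact_mod_cast hmm.le
      exact pow_le_pow_left₀ hm0.le this 2
    have i5 : 0 ≤ Real.log (m : ℝ) := Real.log_nonneg (by linarith)
    have i6 : Real.log (m : ℝ) ≤ Real.log (m₁ : ℝ) :=
      Real.log_le_log hm0 (by exact_mod_cast hmm.le)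
    have i7 : 0 ≤ 1 / Real.pi ^ 2 * Real.log m := mul_nonneg hpi0 i5
    have i8 : 1 / Real.pi ^ 2 * Real.log m ≤ Real.log m := mul_le_of_le_one_left i5 hpi
    have i9 : |2 * (∫ θ in (0 : ℝ)..(1 / 2), Fj m θ * P N θ) - 1 / Real.pi ^ 2 * Real.log m| ≤
        2 * (m₁ : ℝ) ^ 2 * KB + Real.log m₁ := by
      rw [abs_le]
      have : 0 ≤ (m₁ : ℝ) ^ 2 * KB := by positivity
      constructor
      · linarith
      · linarith
    refine i9.trans ?_
    have i10 : 0 ≤ 2 * (m₁ : ℝ) ^ 2 * KB + Real.log m₁ := by positivity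
    have i11 : 0 ≤ 4 * K2 + 8 * K1 + 2 * KB + 2 * K3 + K4 + 6 := by positivity
    have i12 := mul_le_mul_of_nonneg_left hll (add_nonneg i11 i10)
    linarith
  · have hlm := hlog m hmm
    obtain ⟨L, hL⟩ : ∃ L : ℝ, L = Real.log (3 * m) := ⟨_, rfl⟩
    rw [← hL] at hlm hL1 hL2
    -- `L` is larger than `3`
    have hL3 : 3 ≤ L := by
      have h16 : Real.log 16 = 4 * Real.log 2 := by
        rw [show (16 : ℝ) = 2 ^ 4 by norm_num, Real.log_pow]
        norm_num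
      have e2 := Real.log_two_gt_d9
      have e3 : Real.log 32 ≤ Real.log (3 * m) := Real.log_le_log (by norm_num) (by linarith)
      have e4 : Real.log 32 = 5 * Real.log 2 := by
        rw [show (32 : ℝ) = 2 ^ 5 by norm_num, Real.log_pow]
        norm_num
      rw [hL]
      linarith
    have hL0 : 0 < L := by linarith
    have hL3' : 0 < L ^ 3 := by positivity
    have hL27 : 27 ≤ L ^ 3 := by
      calc (27 : ℝ) = 3 ^ 3 := by norm_num
        _ ≤ L ^ 3 := pow_le_pow_left₀ (by norm_num) hL3 3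
    obtain ⟨h, hh⟩ : ∃ h : ℝ, h = 1 / L ^ 3 := ⟨_, rfl⟩
    have hh0 : 0 < h := by
      rw [hh]
      positivity
    have hh1 : h ≤ 1 / 27 := by
      rw [hh]
      exact one_div_le_one_div_of_le (by norm_num) hL27
    have hmh : 1 ≤ m * h := by
      rw [hh, mul_one_div, le_div_iff₀ hL3', one_mul]
      exact hlm
    obtain ⟨J, hJ1, hJ2⟩ := exists_nat_pow_near hmh (by norm_num : (1 : ℝ) < 2)
    have hJ0 : (0 : ℝ) < 2 ^ J := by positivity
    have hJge : (1 : ℝ) ≤ 2 ^ J := one_le_pow₀ (by norm_num)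
    have hc1 : 1 ≤ m * h / 2 ^ J := by
      rw [le_div_iff₀ hJ0, one_mul]
      exact hJ1
    have hc2 : m * h / 2 ^ J ≤ 2 := by
      rw [div_le_iff₀ hJ0]
      rw [pow_succ] at hJ2
      linarith
    -- the logarithm in `S_middle`
    have hlog1 : m + 2 * 2 ^ J / h ≤ 3 * m := by
      have : 2 * 2 ^ J / h ≤ 2 * m := by
        rw [div_le_iff₀ hh0]
        linarith
      linarith
    have hlog2 : Real.log (m + 2 * 2 ^ J / h) ≤ L := by
      rw [hL]
      exact Real.log_le_log (by positivity) hlog1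
    have hlog3 : 0 ≤ Real.log (m + 2 * 2 ^ J / h) := by
      refine Real.log_nonneg ?_
      have : 0 ≤ 2 * 2 ^ J / h := by positivity
      linarith
    have hcond : h * Real.log (m + 2 * 2 ^ J / h) ≤ 1 := by
      refine (mul_le_mul_of_nonneg_left hlog2 hh0.le).trans ?_
      rw [hh, div_mul_eq_mul_div, one_mul, div_le_one hL3']
      calc L = L ^ 1 := (pow_one L).symm
        _ ≤ L ^ 3 := pow_le_pow_right₀ (by linarith) (by norm_num)
    have hK3' : K3 * (h * Real.log (m + 2 * 2 ^ J / h) ^ 3) ≤ K3 := by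
      refine mul_le_of_le_one_right hK3 ?_
      have e1 := pow_le_pow_left₀ hlog3 hlog2 3
      have e2 := mul_le_mul_of_nonneg_left e1 hh0.le
      refine e2.trans ?_
      rw [hh, div_mul_eq_mul_div, one_mul, div_self hL3'.ne']
    have g1 := h1 (h / 2 ^ J) (by positivity) (by
      have := div_le_self hh0.le hJge
      linarith)
    have g2 := h2 (h / 2) (by linarith) (by linarith)
    have g3 := h3 m h J (by linarith) hh0 (by linarith) hcond
    have g4 := h4 m h J (by linarith) hh0 (by linarith) hc1 hc2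
    filter_upwards [hB, g1, g2, g3] with N b0 b1 b2 b3
    have key := est hKern m (P N) (hP.1 N) (hP.2.1 N) h J hh0 (by linarith)
    have k1 : (m : ℝ) ^ 2 * ∫ θ in (0 : ℝ)..(h / 2 ^ J), P N θ ≤ 4 * K1 := by
      have e1 := mul_le_mul_of_nonneg_left b1 (by positivity : (0 : ℝ) ≤ (m : ℝ) ^ 2)
      refine e1.trans ?_
      have e2 : (m : ℝ) ^ 2 * (K1 * (h / 2 ^ J) ^ 2) = K1 * (m * h / 2 ^ J) ^ 2 := by
        field_simp
      rw [e2]
      have e3 : (m * h / 2 ^ J) ^ 2 ≤ 2 ^ 2 := pow_le_pow_left₀ (by linarith) hc2 2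
      have e4 := mul_le_mul_of_nonneg_left e3 hK1
      linarith
    have hlogL0 : 0 ≤ Real.log L := Real.log_nonneg hL1
    have k2 : Real.log (1 / (h / 2)) ≤ 7 * Real.log (Real.log m) := by
      have e1 : 1 / (h / 2) = 2 * L ^ 3 := by
        rw [hh]
        field_simp
      rw [e1, Real.log_mul (by norm_num) hL3'.ne', Real.log_pow]
      have := Real.log_two_lt_d9
      push_cast
      linarith
    have k3 : ∫ θ in (h / 2)..(1 / 2 : ℝ), P N θ / θ ^ 2 ≤ K2 * (7 * Real.log (Real.log m)) :=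
      b2.trans (mul_le_mul_of_nonneg_left k2 hK2)
    have k4 : Real.log (m * h) = Real.log m - 3 * Real.log L := by
      rw [hh, mul_one_div, Real.log_div hm0.ne' hL3'.ne', Real.log_pow]
      norm_num
    have k5 : |1 / Real.pi ^ 2 * Real.log (m * h) - 1 / Real.pi ^ 2 * Real.log m| ≤
        6 * Real.log (Real.log m) := by
      have e1 : 1 / Real.pi ^ 2 * Real.log (m * h) - 1 / Real.pi ^ 2 * Real.log m =
          -(1 / Real.pi ^ 2 * (3 * Real.log L)) := by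
        rw [k4]
        ring
      rw [e1, abs_neg, abs_of_nonneg (by positivity)]
      have e2 : 1 / Real.pi ^ 2 * (3 * Real.log L) ≤ 3 * Real.log L :=
        mul_le_of_le_one_left (by positivity) hpi
      linarith
    have hsum : |2 * (∫ θ in (0 : ℝ)..(1 / 2), Fj m θ * P N θ) - 1 / Real.pi ^ 2 * Real.log m| ≤
        1 / 2 * (K2 * (7 * Real.log (Real.log m))) + 2 * (4 * K1) + 2 * KB + 2 * K3 + K4 +
          6 * Real.log (Real.log m) := by
      have key2 := abs_le.1 key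
      have g4' := abs_le.1 g4
      have k5' := abs_le.1 k5
      have b3' := b3.trans hK3'
      rw [abs_le]
      constructor
      · linarith [key2.1, g4'.1, k5'.1]
      · linarith [key2.2, g4'.2, k5'.2]
    refine hsum.trans ?_
    have i10 : 0 ≤ 2 * (m₁ : ℝ) ^ 2 * KB + Real.log m₁ := by positivity
    have i13 := mul_nonneg i10 (by linarith : 0 ≤ Real.log (Real.log m))
    have j1 := mul_nonneg hK2 (by linarith : 0 ≤ Real.log (Real.log m))
    have j2 := mul_le_mul_of_nonneg_left hll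
      (by positivity : 0 ≤ 8 * K1 + 2 * KB + 2 * K3 + K4)
    have j3 : ((4 * K2 + 8 * K1 + 2 * KB + 2 * K3 + K4 + 6) +
        (2 * (m₁ : ℝ) ^ 2 * KB + Real.log m₁)) * Real.log (Real.log m) =
        4 * (K2 * Real.log (Real.log m)) + (8 * K1 + 2 * KB + 2 * K3 + K4) *
          Real.log (Real.log m) + 6 * Real.log (Real.log m) +
          (2 * (m₁ : ℝ) ^ 2 * KB + Real.log m₁) * Real.log (Real.log m) := by ring
    rw [j3]
    linarith

end Pool.Agent.H666.LRC.PV268
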