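import Mathlib
import Pool.Agent.H666.LRC.Defs5

set_option autoImplicit false

/-! V7: mean square of sums and the Fejer kernel (by helper581 for helper666) -/

open Filter Topology MeasureTheory

namespace Pool.Agent.H666.LRC.PV581

open Pool.Agent.H666.LRC

noncomputable section

/-- the exponential -/
def ee (l : ℕ) (θ : ℝ) : ℂ := Complex.exp (2 * Real.pi * Complex.I * l * θ)

theorem ee_re (l : ℕ) (θ : ℝ) : (ee l θ).re = Real.cos (2 * Real.pi * l * θ) := by
  unfold ee
  rw [show (2 * Real.pi * Complex.I * l * θ : ℂ) = ((2 * Real.pi * l * θ : ℝ) : ℂ) * Complex.I by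
    push_cast; ring, Complex.exp_ofReal_mul_I_re]

theorem ee_im (l : ℕ) (θ : ℝ) : (ee l θ).im = Real.sin (2 * Real.pi * l * θ) := by
  unfold ee
  rw [show (2 * Real.pi * Complex.I * l * θ : ℂ) = ((2 * Real.pi * l * θ : ℝ) : ℂ) * Complex.I by
    push_cast; ring, Complex.exp_ofReal_mul_I_im]

theorem ee_add (k l : ℕ) (θ : ℝ) : ee (k + l) θ = ee k θ * ee l θ := by
  unfold ee
  rw [← Complex.exp_add]
  congr 1
  push_cast
  ring

theorem cosint (l l' : ℕ) :
    ∫ θ in (0 : ℝ)..(1 / 2), Real.cos (2 * Real.pi * ((l : ℝ) - l') * θ) =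
      if l = l' then 1 / 2 else 0 := by
  by_cases h : l = l'
  · rw [if_pos h, h]
    simp
  · rw [if_neg h]
    have hk : 2 * Real.pi * ((l : ℝ) - l') ≠ 0 := by
      have h1 : ((l : ℝ) - l') ≠ 0 := by
        rw [sub_ne_zero]
        exact_mod_cast h
      have := Real.pi_pos.ne'
      positivity
    rw [intervalIntegral.integral_comp_mul_left (fun x => Real.cos x) hk, integral_cos]
    have e1 : 2 * Real.pi * ((l : ℝ) - l') * (1 / 2) = (((l : ℤ) - (l' : ℤ) : ℤ) : ℝ) * Real.pi := by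
      push_cast
      ring
    rw [e1, Real.sin_int_mul_pi, mul_zero, Real.sin_zero, sub_zero, smul_zero]

theorem nsq (s : Finset ℕ) (c : ℕ → ℝ) (θ : ℝ) : ‖∑ l ∈ s, (c l : ℂ) * ee l θ‖ ^ 2 =
    ∑ l ∈ s, ∑ l' ∈ s, c l * c l' * Real.cos (2 * Real.pi * ((l : ℝ) - l') * θ) := by
  rw [← Complex.normSq_eq_norm_sq, Complex.normSq_apply]
  have h1 : (∑ l ∈ s, (c l : ℂ) * ee l θ).re = ∑ l ∈ s, c l * Real.cos (2 * Real.pi * l * θ) := by
    rw [Complex.re_sum]
    refine Finset.sum_congr rfl fun l _ => ?_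
    rw [Complex.re_ofReal_mul, ee_re]
  have h2 : (∑ l ∈ s, (c l : ℂ) * ee l θ).im = ∑ l ∈ s, c l * Real.sin (2 * Real.pi * l * θ) := by
    rw [Complex.im_sum]
    refine Finset.sum_congr rfl fun l _ => ?_
    rw [Complex.im_ofReal_mul, ee_im]
  rw [h1, h2, Finset.sum_mul_sum, Finset.sum_mul_sum, ← Finset.sum_add_distrib]
  refine Finset.sum_congr rfl fun l _ => ?_
  rw [← Finset.sum_add_distrib]
  refine Finset.sum_congr rfl fun l' _ => ?_
  rw [show 2 * Real.pi * ((l : ℝ) - l') * θ = 2 * Real.pi * l * θ - 2 * Real.pi * l' * θ by ring,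
    Real.cos_sub]
  ring

theorem parseval (s : Finset ℕ) (c : ℕ → ℝ) :
    ∫ θ in (0 : ℝ)..(1 / 2), ‖∑ l ∈ s, (c l : ℂ) * ee l θ‖ ^ 2 = 1 / 2 * ∑ l ∈ s, c l ^ 2 := by
  simp only [nsq]
  rw [intervalIntegral.integral_finsetSum]
  · rw [Finset.mul_sum]
    refine Finset.sum_congr rfl fun l hl => ?_
    rw [intervalIntegral.integral_finsetSum]
    · have h1 : ∀ l' ∈ s, (∫ θ in (0 : ℝ)..(1 / 2),
          c l * c l' * Real.cos (2 * Real.pi * ((l : ℝ) - l') * θ)) =
          if l = l' then c l * c l' * (1 / 2) else 0 := by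
        intro l' _
        rw [intervalIntegral.integral_const_mul, cosint]
        split_ifs <;> ring
      rw [Finset.sum_congr rfl h1, Finset.sum_ite_eq, if_pos hl]
      ring
    · intro l' _
      exact Continuous.intervalIntegrable (by fun_prop) _ _
  · intro l _
    exact Continuous.intervalIntegrable (by fun_prop) _ _

/-- the Fejer kernel -/
theorem fej (m : ℕ) (θ : ℝ) (h0 : 0 < θ) (h1 : θ ≤ 1 / 2) :
    Fj m θ = ‖∑ j ∈ Finset.range m, ee j θ‖ ^ 2 := by
  have hs : 0 < Real.sin (Real.pi * θ) := by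
    apply Real.sin_pos_of_pos_of_lt_pi
    · have := Real.pi_pos
      positivity
    · have := Real.pi_pos
      nlinarith
  have e0 : ∀ j : ℕ, ee j θ = (ee 1 θ) ^ j := by
    intro j
    unfold ee
    rw [← Complex.exp_nat_mul]
    congr 1
    push_cast
    ring
  have e1 : (∑ j ∈ Finset.range m, ee j θ) * (ee 1 θ - 1) = ee m θ - 1 := by
    rw [Finset.sum_congr rfl fun j _ => e0 j, e0 m]
    exact geom_sum_mul _ _
  have e2 : ∀ j : ℕ, ‖ee j θ - 1‖ = 2 * |Real.sin (Real.pi * j * θ)| := by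
    intro j
    have := Complex.norm_exp_I_mul_ofReal_sub_one (2 * Real.pi * j * θ)
    unfold ee
    rw [show (2 * Real.pi * Complex.I * j * θ : ℂ) = Complex.I * ((2 * Real.pi * j * θ : ℝ) : ℂ) by
      push_cast; ring, this, norm_mul, Real.norm_eq_abs, Real.norm_eq_abs,
      abs_of_pos (by norm_num : (0 : ℝ) < 2)]
    congr 3
    ring
  have e3 := congrArg norm e1
  rw [norm_mul, e2, e2] at e3
  have e4 : ‖∑ j ∈ Finset.range m, ee j θ‖ * |Real.sin (Real.pi * θ)| =
      |Real.sin (Real.pi * m * θ)| := by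
    rw [Nat.cast_one, mul_one] at e3
    linarith
  unfold Fj
  rw [div_eq_iff (by positivity), ← sq_abs (Real.sin (Real.pi * m * θ)), ← e4, mul_pow, sq_abs]

/-- the convolution of the sequence with `1, ..., 1` -/
def cc (b : ℕ → ℝ) (m N l : ℕ) : ℝ :=
  ∑ j ∈ Finset.range m, if j + 1 ≤ l ∧ l ≤ N + j then b (l - j) else 0

theorem conv (b : ℕ → ℝ) (m N : ℕ) (θ : ℝ) :
    (∑ j ∈ Finset.range m, ee j θ) * (∑ n ∈ Finset.Icc 1 N, (b n : ℂ) * ee n θ) =
      ∑ l ∈ Finset.range (N + m), (cc b m N l : ℂ) * ee l θ := by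
  have h1 : ∀ l, (cc b m N l : ℂ) * ee l θ = ∑ j ∈ Finset.range m,
      if j + 1 ≤ l ∧ l ≤ N + j then (b (l - j) : ℂ) * ee l θ else 0 := by
    intro l
    unfold cc
    rw [Complex.ofReal_sum, Finset.sum_mul]
    refine Finset.sum_congr rfl fun j _ => ?_
    split_ifs
    · rfl
    · rw [Complex.ofReal_zero, zero_mul]
  rw [Finset.sum_congr rfl fun l _ => h1 l, Finset.sum_comm, Finset.sum_mul]
  refine Finset.sum_congr rfl fun j hj => ?_
  rw [Finset.mem_range] at hj
  rw [Finset.mul_sum, ← Finset.sum_filter]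
  refine Finset.sum_nbij' (fun n => n + j) (fun l => l - j) ?_ ?_ ?_ ?_ ?_
  · intro n hn
    rw [Finset.mem_Icc] at hn
    rw [Finset.mem_filter, Finset.mem_range]
    omega
  · intro l hl
    rw [Finset.mem_filter, Finset.mem_range] at hl
    rw [Finset.mem_Icc]
    omega
  · intro n _
    omega
  · intro l hl
    rw [Finset.mem_filter, Finset.mem_range] at hl
    omega
  · intro n _
    rw [Nat.add_sub_cancel, Nat.add_comm n j, ee_add]
    ring

theorem spec (b : ℕ → ℝ) (m N : ℕ) : 2 * ∫ θ in (0 : ℝ)..(1 / 2), Fj m θ * PS b N θ =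
    (1 / N : ℝ) * ∑ l ∈ Finset.range (N + m), cc b m N l ^ 2 := by
  have h1 : ∫ θ in (0 : ℝ)..(1 / 2), Fj m θ * PS b N θ =
      ∫ θ in (0 : ℝ)..(1 / 2), (1 / N : ℝ) *
        ‖∑ l ∈ Finset.range (N + m), (cc b m N l : ℂ) * ee l θ‖ ^ 2 := by
    refine intervalIntegral.integral_congr_ae (Eventually.of_forall fun θ hθ => ?_)
    rw [Set.uIoc_of_le (by norm_num)] at hθ
    rw [fej m θ hθ.1 hθ.2, ← conv, norm_mul, mul_pow]
    unfold PS ee
    ring
  rw [h1, intervalIntegral.integral_const_mul, parseval]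
  ring

/-- the sums in the middle range -/
theorem mid (b : ℕ → ℝ) (m N l : ℕ) (h1 : m ≤ l) (h2 : l ≤ N) :
    cc b m N l = ∑ i ∈ Finset.range m, b (l + 1 - m + i) := by
  rw [← Finset.sum_range_reflect]
  unfold cc
  refine Finset.sum_congr rfl fun j hj => ?_
  rw [Finset.mem_range] at hj
  rw [if_pos ⟨by omega, by omega⟩]
  congr 1
  omega

theorem vr_eq (b : ℕ → ℝ) (m N : ℕ) (hm : 1 ≤ m) :
    ∑ n ∈ Finset.Icc 1 N, (∑ i ∈ Finset.range m, b (n + i)) ^ 2 =
      ∑ l ∈ Finset.range (N + m), if m ≤ l then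
        (∑ i ∈ Finset.range m, b (l + 1 - m + i)) ^ 2 else 0 := by
  rw [← Finset.sum_filter]
  refine Finset.sum_nbij' (fun n => n + m - 1) (fun l => l + 1 - m) ?_ ?_ ?_ ?_ ?_
  · intro n hn
    rw [Finset.mem_Icc] at hn
    rw [Finset.mem_filter, Finset.mem_range]
    omega
  · intro l hl
    rw [Finset.mem_filter, Finset.mem_range] at hl
    rw [Finset.mem_Icc]
    omega
  · intro n hn
    rw [Finset.mem_Icc] at hn
    omega
  · intro l hl
    rw [Finset.mem_filter, Finset.mem_range] at hl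
    omega
  · intro n hn
    rw [Finset.mem_Icc] at hn
    rw [show n + m - 1 + 1 - m = n by omega]

/-- Cauchy-Schwarz -/
theorem csq (m : ℕ) (x : ℕ → ℝ) (A : ℝ) (h : ∀ j < m, x j ^ 2 ≤ A) :
    (∑ j ∈ Finset.range m, x j) ^ 2 ≤ m * (m * A) := by
  have h1 := sq_sum_le_card_mul_sum_sq (s := Finset.range m) (f := x)
  rw [Finset.card_range] at h1
  refine h1.trans (mul_le_mul_of_nonneg_left ?_ (Nat.cast_nonneg m))
  have h2 := Finset.sum_le_card_nsmul (Finset.range m) (fun j => x j ^ 2) A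
    (fun j hj => h j (Finset.mem_range.1 hj))
  rwa [Finset.card_range, nsmul_eq_mul] at h2

/-- the terms are small -/
theorem small (b : ℕ → ℝ) (hb : Tendsto (fun n : ℕ => b n ^ 2 / n) atTop (𝓝 0)) (m : ℕ) (ε : ℝ)
    (hε : 0 < ε) : ∀ᶠ N : ℕ in atTop, ∀ n, n ≤ N + m → b n ^ 2 ≤ ε * N := by
  have h1 : (0 : ℝ) < ε / (1 + m) := by positivity
  have h2 := (hb.eventually_lt_const h1).and (eventually_ge_atTop 1)
  obtain ⟨n0, hn0⟩ := eventually_atTop.1 h2
  obtain ⟨N1, hN1⟩ := exists_nat_ge ((∑ i ∈ Finset.range n0, b i ^ 2) / ε)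
  filter_upwards [eventually_ge_atTop N1, eventually_ge_atTop 1] with N hN hN' n hn
  by_cases h : n < n0
  · have h3 : b n ^ 2 ≤ ∑ i ∈ Finset.range n0, b i ^ 2 :=
      Finset.single_le_sum (f := fun i => b i ^ 2) (fun i _ => sq_nonneg _) (Finset.mem_range.2 h)
    rw [div_le_iff₀ hε] at hN1
    have h4 : (N1 : ℝ) ≤ N := by exact_mod_cast hN
    nlinarith
  · obtain ⟨h3, h4⟩ := hn0 n (not_lt.1 h)
    have h5 : (0 : ℝ) < n := by exact_mod_cast h4
    rw [div_lt_iff₀ h5] at h3
    have h6 : (n : ℝ) ≤ N + m := by exact_mod_cast hn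
    have h7 : (1 : ℝ) ≤ N := by exact_mod_cast hN'
    have h8 : ε / (1 + m) * n ≤ ε / (1 + m) * ((1 + m) * N) := by
      refine mul_le_mul_of_nonneg_left ?_ h1.le
      have h9 : (0 : ℝ) ≤ m := Nat.cast_nonneg m
      nlinarith
    have h9 : ε / (1 + m) * ((1 + m) * N) = ε * N := by
      field_simp
    linarith

theorem V7 : Pool.Agent.H666.LRC.S_fejer := by
  intro b K0 _ hb _ _ m hm
  rw [Metric.tendsto_atTop']
  intro δ hδ
  have hm0 : (0 : ℝ) < m := by exact_mod_cast hm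
  set ε : ℝ := δ / (4 * (m : ℝ) ^ 3) with hε
  have hε0 : 0 < ε := by positivity
  obtain ⟨N0, hN0⟩ := eventually_atTop.1 (small b hb m ε hε0)
  refine ⟨N0 + 1, fun N hN => ?_⟩
  have hsm := hN0 N (by omega)
  have hNpos : (0 : ℝ) < N := by exact_mod_cast (by omega : 0 < N)
  rw [Real.dist_eq, sub_zero, spec]
  unfold Vr
  rw [vr_eq b m N hm, ← mul_sub, ← Finset.sum_sub_distrib, abs_mul,
    abs_of_pos (by positivity : (0 : ℝ) < 1 / N)]
  have hA : ∀ l ∈ Finset.range (N + m),
      |(if m ≤ l then (∑ i ∈ Finset.range m, b (l + 1 - m + i)) ^ 2 else 0) - cc b m N l ^ 2| ≤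
      if l < m ∨ N < l then (m : ℝ) * (m * (ε * N)) else 0 := by
    intro l hl
    rw [Finset.mem_range] at hl
    by_cases h : l < m ∨ N < l
    · rw [if_pos h]
      have hpos : 0 ≤ (m : ℝ) * (m * (ε * N)) := by positivity
      have e1 : 0 ≤ (if m ≤ l then (∑ i ∈ Finset.range m, b (l + 1 - m + i)) ^ 2 else 0) := by
        split_ifs
        · exact sq_nonneg _
        · exact le_rfl
      have e2 : (if m ≤ l then (∑ i ∈ Finset.range m, b (l + 1 - m + i)) ^ 2 else 0) ≤
          (m : ℝ) * (m * (ε * N)) := by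
        split_ifs with h3
        · exact csq m _ _ fun j hj => hsm _ (by omega)
        · exact hpos
      have e3 : cc b m N l ^ 2 ≤ (m : ℝ) * (m * (ε * N)) := by
        refine csq m _ _ fun j hj => ?_
        split_ifs with h4
        · exact hsm _ (by omega)
        · rw [zero_pow two_ne_zero]
          positivity
      have e4 : 0 ≤ cc b m N l ^ 2 := sq_nonneg _
      rw [abs_le]
      constructor <;> linarith
    · rw [if_neg h]
      rw [not_or, not_lt, not_lt] at h
      rw [if_pos h.1, mid b m N l h.1 h.2, sub_self, abs_zero]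
  have hB : |∑ l ∈ Finset.range (N + m),
      ((if m ≤ l then (∑ i ∈ Finset.range m, b (l + 1 - m + i)) ^ 2 else 0) - cc b m N l ^ 2)| ≤
      2 * m * ((m : ℝ) * (m * (ε * N))) := by
    refine (Finset.abs_sum_le_sum_abs _ _).trans ((Finset.sum_le_sum hA).trans ?_)
    rw [← Finset.sum_filter, Finset.sum_const, nsmul_eq_mul]
    refine mul_le_mul_of_nonneg_right ?_ (by positivity)
    have h1 : (Finset.range (N + m)).filter (fun l => l < m ∨ N < l) ⊆
        Finset.range m ∪ Finset.Ico (N + 1) (N + 1 + m) := by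
      intro l hl
      rw [Finset.mem_filter, Finset.mem_range] at hl
      rw [Finset.mem_union, Finset.mem_range, Finset.mem_Ico]
      omega
    have h2 := (Finset.card_le_card h1).trans (Finset.card_union_le _ _)
    rw [Finset.card_range, Nat.card_Ico, show N + 1 + m - (N + 1) = m by omega] at h2
    have h3 : (((Finset.range (N + m)).filter (fun l => l < m ∨ N < l)).card : ℝ) ≤
        ((m + m : ℕ) : ℝ) := by exact_mod_cast h2
    rw [Nat.cast_add] at h3
    linarith
  calc 1 / (N : ℝ) * |∑ l ∈ Finset.range (N + m),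
      ((if m ≤ l then (∑ i ∈ Finset.range m, b (l + 1 - m + i)) ^ 2 else 0) - cc b m N l ^ 2)|
      ≤ 1 / (N : ℝ) * (2 * m * ((m : ℝ) * (m * (ε * N)))) :=
        mul_le_mul_of_nonneg_left hB (by positivity)
    _ = δ / 2 := by
        rw [hε]
        field_simp
        ring
    _ < δ := by linarith

end

end Pool.Agent.H666.LRC.PV581
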