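import Mathlib
import Pool.Agent.H666.LRC.Defs5

/-! V8: the total mass of the power spectrum. -/

open Filter Topology MeasureTheory

namespace Pool.Agent.H666.LRC.PV56

open Pool.Agent.H666.LRC

theorem norm_formula (b : ℕ → ℝ) (N : ℕ) (θ : ℝ) :
    ‖∑ n ∈ Finset.Icc 1 N, (b n : ℂ) * Complex.exp (2 * Real.pi * Complex.I * n * θ)‖ ^ 2 =
      ∑ n ∈ Finset.Icc 1 N, ∑ m ∈ Finset.Icc 1 N,
        b n * b m * Real.cos (2 * Real.pi * (((n : ℤ) - (m : ℤ) : ℤ) : ℝ) * θ) := by
  have he : ∀ n : ℕ, Complex.exp (2 * Real.pi * Complex.I * n * θ) =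
      Complex.exp (((2 * Real.pi * n * θ : ℝ) : ℂ) * Complex.I) := by
    intro n
    congr 1
    push_cast
    ring
  simp only [he]
  rw [Complex.sq_norm, Complex.normSq_apply, Complex.re_sum, Complex.im_sum]
  simp only [Complex.re_ofReal_mul, Complex.im_ofReal_mul, Complex.exp_ofReal_mul_I_re,
    Complex.exp_ofReal_mul_I_im]
  rw [Finset.sum_mul_sum, Finset.sum_mul_sum, ← Finset.sum_add_distrib]
  refine Finset.sum_congr rfl fun n _ => ?_
  rw [← Finset.sum_add_distrib]
  refine Finset.sum_congr rfl fun m _ => ?_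
  have h1 : 2 * Real.pi * (((n : ℤ) - (m : ℤ) : ℤ) : ℝ) * θ =
      2 * Real.pi * n * θ - 2 * Real.pi * m * θ := by
    push_cast
    ring
  rw [h1, Real.cos_sub]
  ring

theorem int_cos (k : ℤ) :
    ∫ θ in (0 : ℝ)..(1 / 2), Real.cos (2 * Real.pi * (k : ℝ) * θ) = if k = 0 then 1 / 2 else 0 := by
  split_ifs with h
  · subst h
    simp
  · have hc : 2 * Real.pi * (k : ℝ) ≠ 0 := by
      have : (k : ℝ) ≠ 0 := by exact_mod_cast h
      have := Real.pi_ne_zero
      positivity
    rw [intervalIntegral.integral_comp_mul_left (fun x => Real.cos x) hc, integral_cos]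
    have h1 : 2 * Real.pi * (k : ℝ) * (1 / 2) = k * Real.pi := by ring
    rw [h1, Real.sin_int_mul_pi, mul_zero, Real.sin_zero, sub_zero, smul_zero]

theorem V8 : Pool.Agent.H666.LRC.S_total := by
  intro b N hN
  have hN' : (N : ℝ) ≠ 0 := by
    have : 0 < N := hN
    exact_mod_cast this.ne'
  unfold PS
  simp only [norm_formula]
  rw [intervalIntegral.integral_const_mul, intervalIntegral.integral_finsetSum]
  · have h1 : ∀ n ∈ Finset.Icc 1 N, ∫ θ in (0 : ℝ)..(1 / 2), ∑ m ∈ Finset.Icc 1 N,
        b n * b m * Real.cos (2 * Real.pi * (((n : ℤ) - (m : ℤ) : ℤ) : ℝ) * θ) = b n ^ 2 / 2 := by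
      intro n hn
      rw [intervalIntegral.integral_finsetSum]
      · simp only [intervalIntegral.integral_const_mul, int_cos]
        rw [Finset.sum_eq_single n]
        · rw [if_pos (sub_self _)]
          ring
        · intro m _ hmn
          rw [if_neg, mul_zero]
          intro h0
          apply hmn
          have := sub_eq_zero.1 h0
          exact_mod_cast this.symm
        · intro h
          exact absurd hn h
      · intro m _
        apply Continuous.intervalIntegrable
        fun_prop
    rw [Finset.sum_congr rfl h1, ← Finset.sum_div]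
    field_simp
  · intro n _
    apply Continuous.intervalIntegrable
    fun_prop

end Pool.Agent.H666.LRC.PV56
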