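import Mathlib
import Pool.Agent.H666.LRC.Defs7

/-! W1: the cosine series of a trapezoid (helper782 for helper666). -/

set_option autoImplicit false

open Filter Topology

namespace Pool.Agent.H666.LRC.PW782

theorem bern2 (y : ℝ) :
    (Polynomial.map (algebraMap ℚ ℝ) (Polynomial.bernoulli 2)).eval y = y ^ 2 - y + 1 / 6 := by
  have h : Polynomial.bernoulli 2 = Polynomial.X ^ 2 - Polynomial.X + Polynomial.C (1 / 6 : ℚ) := by
    rw [Polynomial.bernoulli]
    simp only [Finset.sum_range_succ, Finset.sum_range_zero, bernoulli_zero, bernoulli_one,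
      bernoulli_two, Nat.choose]
    norm_num
    simp only [← Polynomial.C_mul_X_pow_eq_monomial]
    simp
    ring
  rw [h]
  simp

theorem bet0 (y : ℝ) (h0 : 0 ≤ y) (h1 : y ≤ 1) :
    HasSum (fun n : ℕ => Real.cos (2 * Real.pi * n * y) / (n : ℝ) ^ 2)
      (Real.pi ^ 2 * (y ^ 2 - y + 1 / 6)) := by
  have h := hasSum_one_div_nat_pow_mul_cos (k := 1) one_ne_zero (x := y) ⟨h0, h1⟩
  have e2 : 2 * 1 = 2 := rfl
  rw [e2, bern2] at h
  have e3 : (-1 : ℝ) ^ (1 + 1) * (2 * Real.pi) ^ 2 / 2 / (Nat.factorial 2 : ℕ) *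
      (y ^ 2 - y + 1 / 6) = Real.pi ^ 2 * (y ^ 2 - y + 1 / 6) := by
    rw [Nat.factorial_two]
    push_cast
    ring
  rw [e3] at h
  have e4 : (fun n : ℕ => 1 / (n : ℝ) ^ 2 * Real.cos (2 * Real.pi * n * y)) =
      fun n : ℕ => Real.cos (2 * Real.pi * n * y) / (n : ℝ) ^ 2 := by
    funext n
    ring
  rw [e4] at h
  exact h

theorem bet (y : ℝ) (h1 : |y| ≤ 1) :
    HasSum (fun n : ℕ => Real.cos (2 * Real.pi * n * y) / (n : ℝ) ^ 2)
      (Real.pi ^ 2 * (y ^ 2 - |y| + 1 / 6)) := by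
  have h := bet0 |y| (abs_nonneg y) h1
  rw [sq_abs] at h
  have e4 : (fun n : ℕ => Real.cos (2 * Real.pi * n * |y|) / (n : ℝ) ^ 2) =
      fun n : ℕ => Real.cos (2 * Real.pi * n * y) / (n : ℝ) ^ 2 := by
    funext n
    congr 1
    rcases abs_choice y with h | h
    · rw [h]
    · rw [h, mul_neg, Real.cos_neg]
  rw [e4] at h
  exact h

open Pool.Agent.H666.LRC

theorem hasSum_congr_pt {f g : ℕ → ℝ} {s t : ℝ} (h1 : ∀ n, f n = g n) (h2 : s = t)
    (h : HasSum g t) : HasSum f s := by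
  have : f = g := funext h1
  rw [this, h2]
  exact h

theorem hs (a b x : ℝ) (ha : 0 ≤ a) (hab : a < b) (hb : b ≤ 1 / 2) (hx : 0 ≤ x)
    (hx' : x ≤ 1 / 2) :
    HasSum (fun n : ℕ => tc a b n * Real.cos (2 * Real.pi * n * x)) (tz a b x - (a + b)) := by
  have hba : b - a ≠ 0 := by linarith
  have hpi : Real.pi ≠ 0 := Real.pi_ne_zero
  have h1 := bet (x - a) (abs_le.2 ⟨by linarith, by linarith⟩)
  have h2 := bet (x + a) (abs_le.2 ⟨by linarith, by linarith⟩)
  have h3 := bet (x - b) (abs_le.2 ⟨by linarith, by linarith⟩)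
  have h4 := bet (x + b) (abs_le.2 ⟨by linarith, by linarith⟩)
  have h := (((h1.add h2).sub (h3.add h4))).mul_left (1 / (2 * Real.pi ^ 2 * (b - a)))
  rw [abs_of_nonneg (by linarith : 0 ≤ x + a), abs_of_nonneg (by linarith : 0 ≤ x + b)] at h
  refine (hasSum_congr_pt ?_ ?_ h)
  · intro n
    have e1 : Real.cos (2 * Real.pi * n * (x - a)) + Real.cos (2 * Real.pi * n * (x + a)) =
        2 * (Real.cos (2 * Real.pi * n * x) * Real.cos (2 * Real.pi * n * a)) := by
      rw [mul_sub, mul_add, Real.cos_sub, Real.cos_add]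
      ring
    have e2 : Real.cos (2 * Real.pi * n * (x - b)) + Real.cos (2 * Real.pi * n * (x + b)) =
        2 * (Real.cos (2 * Real.pi * n * x) * Real.cos (2 * Real.pi * n * b)) := by
      rw [mul_sub, mul_add, Real.cos_sub, Real.cos_add]
      ring
    rw [← add_div, ← add_div, ← sub_div, e1, e2]
    unfold tc
    rcases Nat.eq_zero_or_pos n with rfl | hn
    · simp
    · have hn' : (n : ℝ) ≠ 0 := by positivity
      field_simp
  · unfold tz
    field_simp
    ring

theorem f0 (a b x : ℝ) : tc a b 0 * Real.cos (2 * Real.pi * (0 : ℕ) * x) = 0 := by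
  unfold tc
  simp

theorem fb (a b x : ℝ) (hab : a < b) (n : ℕ) (hn : 1 ≤ n) :
    |tc a b n * Real.cos (2 * Real.pi * n * x)| ≤ 1 / ((b - a) * n ^ 2) := by
  have hba : 0 < b - a := by linarith
  have hn' : (0 : ℝ) < n := by exact_mod_cast hn
  have hp : 2 ≤ Real.pi ^ 2 := by nlinarith [Real.pi_gt_three]
  unfold tc
  rw [abs_mul, abs_div]
  have h1 : |Real.cos (2 * Real.pi * n * a) - Real.cos (2 * Real.pi * n * b)| ≤ 2 := by
    refine (abs_sub _ _).trans ?_
    have := Real.abs_cos_le_one (2 * Real.pi * n * a)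
    have := Real.abs_cos_le_one (2 * Real.pi * n * b)
    linarith
  have h2 := Real.abs_cos_le_one (2 * Real.pi * n * x)
  have h3 : |Real.pi ^ 2 * (n : ℝ) ^ 2 * (b - a)| = Real.pi ^ 2 * (n : ℝ) ^ 2 * (b - a) :=
    abs_of_pos (by positivity)
  rw [h3]
  have h4 : |Real.cos (2 * Real.pi * n * a) - Real.cos (2 * Real.pi * n * b)| /
      (Real.pi ^ 2 * (n : ℝ) ^ 2 * (b - a)) ≤ 1 / ((b - a) * n ^ 2) := by
    rw [div_le_div_iff₀ (by positivity) (by positivity)]
    have h5 : 0 < (b - a) * (n : ℝ) ^ 2 := by positivity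
    nlinarith
  calc _ ≤ 1 / ((b - a) * (n : ℝ) ^ 2) * 1 :=
        mul_le_mul h4 h2 (abs_nonneg _) (by positivity)
    _ = _ := mul_one _

theorem tail (a b x : ℝ) (hab : a < b) (J : ℕ) (hJ : 1 ≤ J) (M : ℕ) (hM : J ≤ M) :
    |∑ n ∈ Finset.Icc 1 M, tc a b n * Real.cos (2 * Real.pi * n * x) -
      ∑ n ∈ Finset.Icc 1 J, tc a b n * Real.cos (2 * Real.pi * n * x)| ≤
      1 / (b - a) * (1 / J - 1 / M) := by
  have hba : 0 < b - a := by linarith
  induction M, hM using Nat.le_induction with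
  | base => simp
  | succ M hM ih =>
    rw [Finset.sum_Icc_succ_top (by omega : 1 ≤ M + 1)]
    have hM0 : (0 : ℝ) < M := by
      have : 1 ≤ M := hJ.trans hM
      exact_mod_cast this
    have h1 := fb a b x hab (M + 1) (by omega)
    have h2 : 1 / ((b - a) * ((M + 1 : ℕ) : ℝ) ^ 2) ≤
        1 / (b - a) * (1 / (M : ℝ) - 1 / ((M + 1 : ℕ) : ℝ)) := by
      push_cast
      have h3 : 1 / (M : ℝ) - 1 / ((M : ℝ) + 1) = 1 / (M * (M + 1)) := by
        field_simp
        ring
      rw [h3, ← one_div_mul_one_div]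
      refine mul_le_mul_of_nonneg_left ?_ (by positivity)
      refine one_div_le_one_div_of_le (by positivity) ?_
      nlinarith
    calc _ = |(∑ n ∈ Finset.Icc 1 M, tc a b n * Real.cos (2 * Real.pi * n * x) -
          ∑ n ∈ Finset.Icc 1 J, tc a b n * Real.cos (2 * Real.pi * n * x)) +
          tc a b (M + 1 : ℕ) * Real.cos (2 * Real.pi * (M + 1 : ℕ) * x)| := by
          congr 1
          ring
      _ ≤ _ := abs_add_le _ _
      _ ≤ 1 / (b - a) * (1 / J - 1 / M) +
          1 / (b - a) * (1 / (M : ℝ) - 1 / ((M + 1 : ℕ) : ℝ)) := add_le_add ih (h1.trans h2)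
      _ = _ := by ring

theorem rg (f : ℕ → ℝ) (h0 : f 0 = 0) (M : ℕ) :
    ∑ n ∈ Finset.range (M + 1), f n = ∑ n ∈ Finset.Icc 1 M, f n := by
  induction M with
  | zero => simp [h0]
  | succ M ih => rw [Finset.sum_range_succ, ih, Finset.sum_Icc_succ_top (by omega : 1 ≤ M + 1)]

theorem W1 : Pool.Agent.H666.LRC.S_tz := by
  intro a b x ha hab hb hx hx' J hJ
  have hba : 0 < b - a := by linarith
  have h1 := (hs a b x ha hab hb hx hx').tendsto_sum_nat
  have h2 := (tendsto_add_atTop_iff_nat 1).2 h1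
  have h3 : Tendsto (fun M : ℕ => ∑ n ∈ Finset.Icc 1 M,
      tc a b n * Real.cos (2 * Real.pi * n * x)) atTop (𝓝 (tz a b x - (a + b))) := by
    refine h2.congr fun M => ?_
    exact rg (fun n : ℕ => tc a b n * Real.cos (2 * Real.pi * n * x)) (f0 a b x) M
  have h4 := (h3.sub_const (∑ n ∈ Finset.Icc 1 J,
      tc a b n * Real.cos (2 * Real.pi * n * x))).abs
  have h5 := le_of_tendsto h4 (b := 1 / ((b - a) * J)) (by
    filter_upwards [eventually_ge_atTop J] with M hM
    refine (tail a b x hab J hJ M hM).trans ?_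
    have hM0 : (0 : ℝ) ≤ 1 / (M : ℝ) := by positivity
    rw [← one_div_mul_one_div]
    refine mul_le_mul_of_nonneg_left ?_ (by positivity)
    linarith)
  have h6 : tz a b x - (a + b + ∑ n ∈ Finset.Icc 1 J,
      tc a b n * Real.cos (2 * Real.pi * n * x)) = tz a b x - (a + b) -
      ∑ n ∈ Finset.Icc 1 J, tc a b n * Real.cos (2 * Real.pi * n * x) := by ring
  rw [h6]
  exact h5

end Pool.Agent.H666.LRC.PW782
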