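import Mathlib
import Pool.Agent.H666.LRC.Defs7

/-! W2 of project LRC: the sum of the absolute values of the coefficients of the cosine series of a
trapezoid. -/

set_option autoImplicit false

namespace Pool.Agent.H666.LRC.PW348

open Pool.Agent.H666.LRC

/-- the two bounds for the coefficients -/
theorem tc_bounds (a b : ℝ) (hab : a < b) (n : ℕ) (hn : 1 ≤ n) :
    |tc a b n| ≤ (n : ℝ)⁻¹ ∧ |tc a b n| ≤ 1 / (b - a) * (1 / (n : ℝ) ^ 2) := by
  have hd : 0 < b - a := sub_pos.2 hab
  have hn0 : (0 : ℝ) < n := by exact_mod_cast hn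
  have hpi := Real.pi_pos
  have hpi3 := Real.pi_gt_three
  have hden : 0 < Real.pi ^ 2 * (n : ℝ) ^ 2 * (b - a) := by positivity
  have h1 : |Real.cos (2 * Real.pi * n * a) - Real.cos (2 * Real.pi * n * b)| ≤
      2 * Real.pi * n * (b - a) := by
    have h := Real.abs_cos_sub_cos_le (2 * Real.pi * n * a) (2 * Real.pi * n * b)
    have h2 : |2 * Real.pi * n * a - 2 * Real.pi * n * b| = 2 * Real.pi * n * (b - a) := by
      rw [show 2 * Real.pi * n * a - 2 * Real.pi * n * b = -(2 * Real.pi * n * (b - a)) by ring,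
        abs_neg, abs_of_pos (by positivity)]
    rw [h2] at h
    exact h
  have h2 : |Real.cos (2 * Real.pi * n * a) - Real.cos (2 * Real.pi * n * b)| ≤ 2 := by
    rw [abs_le]
    constructor
    · linarith [Real.neg_one_le_cos (2 * Real.pi * n * a), Real.cos_le_one (2 * Real.pi * n * b)]
    · linarith [Real.neg_one_le_cos (2 * Real.pi * n * b), Real.cos_le_one (2 * Real.pi * n * a)]
  have h3 : |tc a b n| = |Real.cos (2 * Real.pi * n * a) - Real.cos (2 * Real.pi * n * b)| /
      (Real.pi ^ 2 * (n : ℝ) ^ 2 * (b - a)) := by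
    unfold tc
    rw [abs_div, abs_of_pos hden]
  constructor
  · rw [h3, div_le_iff₀ hden]
    have h4 : (n : ℝ)⁻¹ * (Real.pi ^ 2 * (n : ℝ) ^ 2 * (b - a)) = Real.pi * (Real.pi * n * (b - a)) := by
      field_simp
    rw [h4]
    have h5 : 0 < Real.pi * n * (b - a) := by positivity
    nlinarith
  · rw [h3, div_le_iff₀ hden]
    have h4 : 1 / (b - a) * (1 / (n : ℝ) ^ 2) * (Real.pi ^ 2 * (n : ℝ) ^ 2 * (b - a)) = Real.pi ^ 2 := by
      field_simp
    rw [h4]
    nlinarith

/-- the first bound for the sums -/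
theorem sum_le_log (a b : ℝ) (hab : a < b) (J : ℕ) :
    ∑ n ∈ Finset.Icc 1 J, |tc a b n| ≤ 1 + Real.log J := by
  calc ∑ n ∈ Finset.Icc 1 J, |tc a b n| ≤ ∑ n ∈ Finset.Icc 1 J, (n : ℝ)⁻¹ :=
        Finset.sum_le_sum (fun n hn => (tc_bounds a b hab n (Finset.mem_Icc.1 hn).1).1)
    _ = ((harmonic J : ℚ) : ℝ) := by
        rw [harmonic_eq_sum_Icc]
        push_cast
        rfl
    _ ≤ 1 + Real.log J := harmonic_le_one_add_log J

/-- the second bound for the sums -/
theorem sum_le_tail (a b : ℝ) (hab : a < b) (M : ℕ) (hM : 1 ≤ M) (J : ℕ) (hJ : M ≤ J) :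
    ∑ n ∈ Finset.Icc 1 J, |tc a b n| ≤
      ∑ n ∈ Finset.Icc 1 M, |tc a b n| + 1 / (b - a) * (1 / M - 1 / J) := by
  have hd : 0 < b - a := sub_pos.2 hab
  induction J, hJ using Nat.le_induction with
  | base => simp
  | succ J hJ ih =>
    rw [Finset.sum_Icc_succ_top (by omega)]
    have h1 := (tc_bounds a b hab (J + 1) (by omega)).2
    have hJ0 : (0 : ℝ) < J := by exact_mod_cast (by omega : 0 < J)
    have h2 : 1 / ((J + 1 : ℕ) : ℝ) ^ 2 ≤ 1 / (J : ℝ) - 1 / ((J + 1 : ℕ) : ℝ) := by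
      push_cast
      rw [div_sub_div _ _ hJ0.ne' (by positivity), div_le_div_iff₀ (by positivity) (by positivity)]
      nlinarith
    have h3 : 1 / (b - a) * (1 / ((J + 1 : ℕ) : ℝ) ^ 2) ≤
        1 / (b - a) * (1 / (J : ℝ) - 1 / ((J + 1 : ℕ) : ℝ)) :=
      mul_le_mul_of_nonneg_left h2 (by positivity)
    have h4 : 1 / (b - a) * (1 / (M : ℝ) - 1 / ((J + 1 : ℕ) : ℝ)) =
        1 / (b - a) * (1 / (M : ℝ) - 1 / J) + 1 / (b - a) * (1 / (J : ℝ) - 1 / ((J + 1 : ℕ) : ℝ)) := by
      ring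
    rw [h4]
    linarith

theorem W2 : Pool.Agent.H666.LRC.S_tcsum := by
  intro a b ha hab hb J
  have hd : 0 < b - a := sub_pos.2 hab
  have hd2 : b - a ≤ 1 / 2 := by linarith
  have hq : 2 ≤ 1 / (b - a) := by
    rw [le_div_iff₀ hd]
    linarith
  set q : ℝ := 1 / (b - a) with hqd
  have hlog2 : Real.log 2 ≤ Real.log q := Real.log_le_log (by norm_num) hq
  have hlog2pos : 0 < Real.log 2 := Real.log_pos (by norm_num)
  set M : ℕ := ⌈q⌉₊ with hM
  have hMq : q ≤ M := Nat.le_ceil q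
  have hMq2 : (M : ℝ) ≤ 2 * q := by
    have := Nat.ceil_lt_add_one (show 0 ≤ q by linarith)
    rw [← hM] at this
    linarith
  have hM0 : (0 : ℝ) < M := by linarith
  have hM1 : 1 ≤ M := by exact_mod_cast (show 0 < M by exact_mod_cast hM0)
  have hlogM : Real.log M ≤ Real.log 2 + Real.log q := by
    rw [← Real.log_mul (by norm_num) (by linarith)]
    exact Real.log_le_log hM0 hMq2
  rcases le_total J M with h | h
  · have h1 := sum_le_log a b hab J
    have h2 : Real.log J ≤ Real.log M := by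
      rcases Nat.eq_zero_or_pos J with h0 | h0
      · subst h0
        simp only [Nat.cast_zero, Real.log_zero]
        exact Real.log_nonneg (by exact_mod_cast hM1)
      · exact Real.log_le_log (by exact_mod_cast h0) (by exact_mod_cast h)
    linarith
  · have h1 := sum_le_tail a b hab M hM1 J h
    have h2 := sum_le_log a b hab M
    have h3 : 1 / (b - a) * (1 / (M : ℝ) - 1 / J) ≤ 1 := by
      have h4 : 1 / (M : ℝ) - 1 / J ≤ 1 / M := by
        have : (0 : ℝ) ≤ 1 / J := by positivity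
        linarith
      calc 1 / (b - a) * (1 / (M : ℝ) - 1 / J) ≤ q * (1 / M) :=
            mul_le_mul_of_nonneg_left h4 (by linarith)
        _ ≤ 1 := by
            rw [mul_one_div, div_le_one hM0]
            exact hMq
    linarith

end Pool.Agent.H666.LRC.PW348
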