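import Mathlib
import Pool.Agent.H666.LRC.Defs7

/-!
# LRC W3 (helper339): one trapezoid, a finite sum of estimates
-/

set_option autoImplicit false

open Filter Topology MeasureTheory

namespace Pool.Agent.H666.LRC.PW339

open Pool.Agent.H666.LRC

lemma G0_cont : Continuous G0 := by
  unfold G0
  exact Real.smoothTransition.continuous.comp (by fun_prop)

lemma G0_nonneg (t : ℝ) : 0 ≤ G0 t := Real.smoothTransition.nonneg _

lemma G0_le (t : ℝ) : G0 t ≤ 1 := Real.smoothTransition.le_one _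

lemma tz_cont (a b : ℝ) : Continuous (tz a b) := by
  unfold tz
  fun_prop

/-- the truncated cosine series -/
noncomputable def ser (a b h : ℝ) (J : ℕ) (θ : ℝ) : ℝ :=
  a + b + ∑ n ∈ Finset.Icc 1 J, tc a b n * Real.cos (2 * Real.pi * n * (θ / (4 * h)))

lemma ser_cont (a b h : ℝ) (J : ℕ) : Continuous (ser a b h J) := by
  unfold ser
  fun_prop

/-- the estimate of one frequency -/
lemma one_le {h : ℝ} (hh : 0 < h) (hh4 : h ≤ 1 / 4) {J n : ℕ} (hJ' : (J : ℝ) ≤ h⁻¹ ^ 4 + 1)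
    (hn : n ≤ J) : (2 * h) ^ 3 * Real.log ((n : ℝ) / (4 * h) + 2 / (2 * h)) ^ 3 ≤
      1728 * (h ^ 3 * Real.log (1 / h) ^ 3) := by
  obtain ⟨y, hy⟩ : ∃ y : ℝ, y = h⁻¹ := ⟨_, rfl⟩
  have hy4 : 4 ≤ y := by
    rw [hy, show (4 : ℝ) = (1 / 4)⁻¹ by norm_num]
    exact inv_anti₀ hh hh4
  have hnR : (n : ℝ) ≤ y ^ 4 + 1 := by
    rw [hy]
    exact le_trans (by exact_mod_cast hn) hJ'
  have e1 : (n : ℝ) / (4 * h) + 2 / (2 * h) = n * y / 4 + y := by
    rw [hy]
    field_simp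
  have hn0 : (0 : ℝ) ≤ n := Nat.cast_nonneg n
  have h1 : (n : ℝ) * y / 4 + y ≤ y ^ 6 := by
    have h2 : (n : ℝ) * y ≤ (y ^ 4 + 1) * y := mul_le_mul_of_nonneg_right hnR (by linarith)
    have h3 : y ^ 4 ≤ y ^ 5 := pow_le_pow_right₀ (by linarith) (by norm_num)
    have h4 : y ≤ y ^ 5 := le_self_pow₀ (by linarith) (by norm_num)
    have h5 : 4 * y ^ 5 ≤ y ^ 6 := by
      have : y ^ 6 = y * y ^ 5 := by ring
      rw [this]
      exact mul_le_mul_of_nonneg_right hy4 (by positivity)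
    have h6 : (y ^ 4 + 1) * y = y ^ 5 + y := by ring
    have h7 : 0 ≤ y ^ 5 := by positivity
    linarith
  have h2 : 1 ≤ (n : ℝ) * y / 4 + y := by
    have : 0 ≤ (n : ℝ) * y / 4 := by positivity
    linarith
  have h3 : Real.log ((n : ℝ) * y / 4 + y) ≤ 6 * Real.log y := by
    have h4 := Real.log_le_log (by linarith) h1
    rw [Real.log_pow] at h4
    exact_mod_cast h4
  have h4 : 0 ≤ Real.log ((n : ℝ) * y / 4 + y) := Real.log_nonneg h2
  have h5 : Real.log ((n : ℝ) * y / 4 + y) ^ 3 ≤ (6 * Real.log y) ^ 3 := pow_le_pow_left₀ h4 h3 3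
  rw [e1, one_div, ← hy]
  calc (2 * h) ^ 3 * Real.log ((n : ℝ) * y / 4 + y) ^ 3
      ≤ (2 * h) ^ 3 * (6 * Real.log y) ^ 3 := mul_le_mul_of_nonneg_left h5 (by positivity)
    _ = 1728 * (h ^ 3 * Real.log y ^ 3) := by ring

/-- the deterministic estimate -/
lemma key {P : ℝ → ℝ} (hP : Continuous P) (hP0 : ∀ θ, 0 ≤ P θ) {h a b K KB : ℝ} (hh : 0 < h)
    (hh4 : h ≤ 1 / 4) (ha : 0 ≤ a) (hb : b ≤ 1 / 2) (hab : b - a = h / 4) {J : ℕ} (hJ1 : 1 ≤ J)
    (hJ : h⁻¹ ^ 4 ≤ J) (hJ' : (J : ℝ) ≤ h⁻¹ ^ 4 + 1) (T : S_tz) (Tc : S_tcsum) (hK : 0 ≤ K)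
    (hI : ∀ n ∈ Finset.Icc 0 J, |∫ θ in (0 : ℝ)..(2 * h), G0 (θ / (2 * h)) *
      Real.cos (2 * Real.pi * ((n : ℝ) / (4 * h)) * θ) * (P θ - θ)| ≤
      K * ((2 * h) ^ 3 * Real.log ((n : ℝ) / (4 * h) + 2 / (2 * h)) ^ 3))
    (hKB : ∫ θ in (0 : ℝ)..(1 / 2), P θ ≤ KB) :
    |∫ θ in (0 : ℝ)..(2 * h), G0 (θ / (2 * h)) * tz a b (θ / (4 * h)) * (P θ - θ)| ≤
      (22464 * K + 4 * (KB + 1)) * (h ^ 3 * Real.log (1 / h) ^ 4) := by
  have hlt : a < b := by linarith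
  have hg : Continuous fun θ : ℝ => G0 (θ / (2 * h)) := G0_cont.comp (by fun_prop)
  have htz : Continuous fun θ : ℝ => tz a b (θ / (4 * h)) := (tz_cont a b).comp (by fun_prop)
  have hser := ser_cont a b h J
  -- logarithms
  obtain ⟨L, hL⟩ : ∃ L : ℝ, L = Real.log (1 / h) := ⟨_, rfl⟩
  have hlog4 : 1 ≤ Real.log 4 := by
    have h1 : Real.log 4 = 2 * Real.log 2 := by
      rw [show (4 : ℝ) = 2 ^ 2 by norm_num, Real.log_pow]
      norm_num
    have := Real.log_two_gt_d9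
    linarith
  have hL4 : Real.log 4 ≤ L := by
    rw [hL]
    apply Real.log_le_log (by norm_num)
    rw [le_div_iff₀ hh]
    linarith
  have hL1 : 1 ≤ L := hlog4.trans hL4
  -- the coefficients
  have htc : ∑ n ∈ Finset.Icc 1 J, |tc a b n| ≤ 12 * L := by
    refine (Tc a b ha hlt hb J).trans ?_
    have h1 : Real.log (1 / (b - a)) = Real.log 4 + L := by
      rw [hab, hL, ← Real.log_mul (by norm_num) (by positivity)]
      congr 1
      field_simp
    rw [h1]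
    linarith
  -- the main part
  have hB : ∀ n ∈ Finset.Icc 0 J, |∫ θ in (0 : ℝ)..(2 * h), G0 (θ / (2 * h)) *
      Real.cos (2 * Real.pi * ((n : ℝ) / (4 * h)) * θ) * (P θ - θ)| ≤
      1728 * K * (h ^ 3 * L ^ 3) := by
    intro n hn
    refine (hI n hn).trans ?_
    have h1 := one_le hh hh4 hJ' (Finset.mem_Icc.1 hn).2
    rw [← hL] at h1
    calc K * ((2 * h) ^ 3 * Real.log ((n : ℝ) / (4 * h) + 2 / (2 * h)) ^ 3)
        ≤ K * (1728 * (h ^ 3 * L ^ 3)) := mul_le_mul_of_nonneg_left h1 hK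
      _ = _ := by ring
  have hc : ∀ n : ℕ, Continuous fun θ : ℝ => G0 (θ / (2 * h)) *
      Real.cos (2 * Real.pi * ((n : ℝ) / (4 * h)) * θ) * (P θ - θ) := by
    intro n
    exact (hg.mul (by fun_prop)).mul (hP.sub continuous_id)
  have hmain : ∫ θ in (0 : ℝ)..(2 * h), G0 (θ / (2 * h)) * ser a b h J θ * (P θ - θ) =
      (a + b) * (∫ θ in (0 : ℝ)..(2 * h), G0 (θ / (2 * h)) *
        Real.cos (2 * Real.pi * (((0 : ℕ) : ℝ) / (4 * h)) * θ) * (P θ - θ)) +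
      ∑ n ∈ Finset.Icc 1 J, tc a b n * (∫ θ in (0 : ℝ)..(2 * h), G0 (θ / (2 * h)) *
        Real.cos (2 * Real.pi * ((n : ℝ) / (4 * h)) * θ) * (P θ - θ)) := by
    rw [← intervalIntegral.integral_const_mul]
    have h1 : ∀ n ∈ Finset.Icc 1 J, tc a b n * (∫ θ in (0 : ℝ)..(2 * h), G0 (θ / (2 * h)) *
        Real.cos (2 * Real.pi * ((n : ℝ) / (4 * h)) * θ) * (P θ - θ)) =
        ∫ θ in (0 : ℝ)..(2 * h), tc a b n * (G0 (θ / (2 * h)) *
        Real.cos (2 * Real.pi * ((n : ℝ) / (4 * h)) * θ) * (P θ - θ)) := by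
      intro n _
      rw [intervalIntegral.integral_const_mul]
    rw [Finset.sum_congr rfl h1, ← intervalIntegral.integral_finsetSum fun n _ =>
      ((hc n).const_mul (tc a b n)).intervalIntegrable _ _,
      ← intervalIntegral.integral_add (((hc 0).const_mul (a + b)).intervalIntegrable _ _)
        ((continuous_finsetSum _ fun n _ =>
          (hc n).const_mul (tc a b n)).intervalIntegrable _ _)]
    apply intervalIntegral.integral_congr
    intro θ _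
    simp only [Nat.cast_zero, zero_div, mul_zero, zero_mul, Real.cos_zero, mul_one]
    unfold ser
    rw [mul_add, add_mul, Finset.mul_sum, Finset.sum_mul]
    congr 1
    · ring
    · refine Finset.sum_congr rfl fun n _ => ?_
      have e : 2 * Real.pi * (n : ℝ) * (θ / (4 * h)) = 2 * Real.pi * ((n : ℝ) / (4 * h)) * θ := by
        ring
      rw [e]
      ring
  have hmainB : |∫ θ in (0 : ℝ)..(2 * h), G0 (θ / (2 * h)) * ser a b h J θ * (P θ - θ)| ≤
      (1 + 12 * L) * (1728 * K * (h ^ 3 * L ^ 3)) := by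
    have hX : 0 ≤ 1728 * K * (h ^ 3 * L ^ 3) := by positivity
    rw [hmain]
    refine (abs_add_le _ _).trans ?_
    rw [add_mul 1 (12 * L)]
    apply add_le_add
    · rw [abs_mul, abs_of_nonneg (by linarith : 0 ≤ a + b)]
      exact mul_le_mul (by linarith) (hB 0 (Finset.mem_Icc.2 ⟨le_rfl, Nat.zero_le _⟩))
        (abs_nonneg _) (by norm_num)
    · refine (Finset.abs_sum_le_sum_abs _ _).trans ?_
      calc ∑ n ∈ Finset.Icc 1 J, |tc a b n * (∫ θ in (0 : ℝ)..(2 * h), G0 (θ / (2 * h)) *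
            Real.cos (2 * Real.pi * ((n : ℝ) / (4 * h)) * θ) * (P θ - θ))|
          ≤ ∑ n ∈ Finset.Icc 1 J, |tc a b n| * (1728 * K * (h ^ 3 * L ^ 3)) := by
            refine Finset.sum_le_sum fun n hn => ?_
            rw [abs_mul]
            exact mul_le_mul_of_nonneg_left (hB n (Finset.mem_Icc.2
              ⟨Nat.zero_le _, (Finset.mem_Icc.1 hn).2⟩)) (abs_nonneg _)
        _ = (∑ n ∈ Finset.Icc 1 J, |tc a b n|) * (1728 * K * (h ^ 3 * L ^ 3)) := by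
            rw [Finset.sum_mul]
        _ ≤ 12 * L * (1728 * K * (h ^ 3 * L ^ 3)) := mul_le_mul_of_nonneg_right htc hX
  -- the remainder
  have hJ0 : (0 : ℝ) < J := by exact_mod_cast hJ1
  have hr : ∀ θ ∈ Set.Icc (0 : ℝ) (2 * h), |tz a b (θ / (4 * h)) - ser a b h J θ| ≤ 4 * h ^ 3 := by
    intro θ hθ
    have h1 : 0 ≤ θ / (4 * h) := div_nonneg hθ.1 (by positivity)
    have h2 : θ / (4 * h) ≤ 1 / 2 := by
      rw [div_le_iff₀ (by positivity)]
      linarith [hθ.2]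
    refine (T a b (θ / (4 * h)) ha hlt hb h1 h2 J hJ1).trans ?_
    rw [hab, div_le_iff₀ (by positivity)]
    have h3 : 1 ≤ h ^ 4 * J := by
      calc (1 : ℝ) = h ^ 4 * h⁻¹ ^ 4 := by
            rw [← mul_pow, mul_inv_cancel₀ hh.ne', one_pow]
        _ ≤ h ^ 4 * J := mul_le_mul_of_nonneg_left hJ (by positivity)
    calc (1 : ℝ) ≤ h ^ 4 * J := h3
      _ = 4 * h ^ 3 * (h / 4 * J) := by ring
  have h2h : (0 : ℝ) ≤ 2 * h := by positivity
  have hrem : |∫ θ in (0 : ℝ)..(2 * h), G0 (θ / (2 * h)) *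
      (tz a b (θ / (4 * h)) - ser a b h J θ) * (P θ - θ)| ≤ 4 * h ^ 3 * (KB + 1) := by
    have h1 : |∫ θ in (0 : ℝ)..(2 * h), G0 (θ / (2 * h)) *
        (tz a b (θ / (4 * h)) - ser a b h J θ) * (P θ - θ)| ≤
        ∫ θ in (0 : ℝ)..(2 * h), 4 * h ^ 3 * (P θ + θ) := by
      refine (intervalIntegral.abs_integral_le_integral_abs h2h).trans ?_
      apply intervalIntegral.integral_mono_on h2h
      · exact (((hg.mul (htz.sub hser)).mul (hP.sub continuous_id)).abs).intervalIntegrable _ _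
      · exact ((hP.add continuous_id).const_mul _).intervalIntegrable _ _
      · intro θ hθ
        rw [abs_mul, abs_mul, abs_of_nonneg (G0_nonneg _)]
        have h2 : |P θ - θ| ≤ P θ + θ := by
          rw [abs_le]
          constructor <;> linarith [hP0 θ, hθ.1]
        have h3 : G0 (θ / (2 * h)) * |tz a b (θ / (4 * h)) - ser a b h J θ| ≤ 1 * (4 * h ^ 3) :=
          mul_le_mul (G0_le _) (hr θ hθ) (abs_nonneg _) (by norm_num)
        rw [one_mul] at h3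
        exact mul_le_mul h3 h2 (abs_nonneg _) (by positivity)
    refine h1.trans ?_
    rw [intervalIntegral.integral_const_mul]
    apply mul_le_mul_of_nonneg_left _ (by positivity)
    have h6 : ∫ θ in (0 : ℝ)..(2 * h), (P θ + θ) =
        (∫ θ in (0 : ℝ)..(2 * h), P θ) + ∫ θ in (0 : ℝ)..(2 * h), θ :=
      intervalIntegral.integral_add (hP.intervalIntegrable _ _)
        (continuous_id.intervalIntegrable _ _)
    rw [h6]
    have h4 : ∫ θ in (0 : ℝ)..(2 * h), P θ ≤ ∫ θ in (0 : ℝ)..(1 / 2), P θ :=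
      intervalIntegral.integral_mono_interval le_rfl h2h (by linarith)
        (Eventually.of_forall fun θ => hP0 θ) (hP.intervalIntegrable _ _)
    have h5 : ∫ θ in (0 : ℝ)..(2 * h), θ ≤ 1 := by
      rw [integral_id]
      nlinarith
    linarith
  -- the end
  have hsplit : ∫ θ in (0 : ℝ)..(2 * h), G0 (θ / (2 * h)) * tz a b (θ / (4 * h)) * (P θ - θ) =
      (∫ θ in (0 : ℝ)..(2 * h), G0 (θ / (2 * h)) * ser a b h J θ * (P θ - θ)) +
      ∫ θ in (0 : ℝ)..(2 * h), G0 (θ / (2 * h)) *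
        (tz a b (θ / (4 * h)) - ser a b h J θ) * (P θ - θ) := by
    have c1 : Continuous fun θ : ℝ => G0 (θ / (2 * h)) * ser a b h J θ * (P θ - θ) :=
      (hg.mul hser).mul (hP.sub continuous_id)
    have c2 : Continuous fun θ : ℝ => G0 (θ / (2 * h)) *
        (tz a b (θ / (4 * h)) - ser a b h J θ) * (P θ - θ) :=
      (hg.mul (htz.sub hser)).mul (hP.sub continuous_id)
    rw [← intervalIntegral.integral_add (c1.intervalIntegrable _ _) (c2.intervalIntegrable _ _)]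
    apply intervalIntegral.integral_congr
    intro θ _
    simp only
    ring
  rw [hsplit, ← hL]
  refine (abs_add_le _ _).trans ((add_le_add hmainB hrem).trans ?_)
  have hKB0 : 0 ≤ KB + 1 := by
    have : 0 ≤ ∫ θ in (0 : ℝ)..(1 / 2), P θ :=
      intervalIntegral.integral_nonneg (by norm_num) fun θ _ => hP0 θ
    linarith
  have hL4' : 1 ≤ L ^ 4 := one_le_pow₀ hL1
  have e1 : (1 + 12 * L) * (1728 * K * (h ^ 3 * L ^ 3)) ≤
      22464 * K * (h ^ 3 * L ^ 4) := by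
    have hX : 0 ≤ 1728 * K * (h ^ 3 * L ^ 3) := by positivity
    calc (1 + 12 * L) * (1728 * K * (h ^ 3 * L ^ 3))
        ≤ (13 * L) * (1728 * K * (h ^ 3 * L ^ 3)) :=
          mul_le_mul_of_nonneg_right (by linarith) hX
      _ = 22464 * K * (h ^ 3 * L ^ 4) := by ring
  have e2 : 4 * h ^ 3 * (KB + 1) ≤ 4 * (KB + 1) * (h ^ 3 * L ^ 4) := by
    have hX : 0 ≤ 4 * (KB + 1) * h ^ 3 := by positivity
    calc 4 * h ^ 3 * (KB + 1) = 4 * (KB + 1) * h ^ 3 * 1 := by ring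
      _ ≤ 4 * (KB + 1) * h ^ 3 * L ^ 4 := mul_le_mul_of_nonneg_left hL4' hX
      _ = _ := by ring
  calc _ ≤ 22464 * K * (h ^ 3 * L ^ 4) + 4 * (KB + 1) * (h ^ 3 * L ^ 4) := add_le_add e1 e2
    _ = _ := by ring

theorem W3 : Pool.Agent.H666.LRC.S_trap := by
  intro T Tc P hP hP0 hK hB
  obtain ⟨K, hK0, hK⟩ := hK
  obtain ⟨KB, hKB0, hKB⟩ := hB
  refine ⟨22464 * K + 4 * (KB + 1), by positivity, ?_⟩
  intro h a b hh hh4 ha hb hab
  obtain ⟨J, hJdef⟩ : ∃ J : ℕ, J = ⌈h⁻¹ ^ 4⌉₊ := ⟨_, rfl⟩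
  have hpos : (0 : ℝ) < h⁻¹ ^ 4 := by positivity
  have hJ1 : 1 ≤ J := by
    rw [hJdef]
    exact Nat.one_le_iff_ne_zero.2 (Nat.ceil_pos.2 hpos).ne'
  have hJ : h⁻¹ ^ 4 ≤ (J : ℝ) := by
    rw [hJdef]
    exact Nat.le_ceil _
  have hJ' : (J : ℝ) ≤ h⁻¹ ^ 4 + 1 := by
    rw [hJdef]
    exact (Nat.ceil_lt_add_one hpos.le).le
  have hall : ∀ᶠ N : ℕ in atTop, ∀ n ∈ Finset.Icc 0 J,
      |∫ θ in (0 : ℝ)..(2 * h), G0 (θ / (2 * h)) *
        Real.cos (2 * Real.pi * ((n : ℝ) / (4 * h)) * θ) * (P N θ - θ)| ≤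
        K * ((2 * h) ^ 3 * Real.log ((n : ℝ) / (4 * h) + 2 / (2 * h)) ^ 3) := by
    rw [Filter.eventually_all_finset]
    intro n _
    exact hK (2 * h) ((n : ℝ) / (4 * h)) (by positivity) (by linarith) (by positivity)
  filter_upwards [hall, hKB] with N h1 h2
  exact key (hP N) (hP0 N) hh hh4 ha hb hab hJ1 hJ hJ' T Tc hK0 h1 h2

end Pool.Agent.H666.LRC.PW339
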