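import Mathlib
import Pool.Agent.H666.LRC.Defs7

/-!
# LRC W4: the sharp cutoff from two trapezoids
-/

set_option autoImplicit false

open Filter Topology MeasureTheory

namespace Pool.Agent.H666.LRC.PW356

open Pool.Agent.H666.LRC

theorem G0_one {t : ℝ} (ht : t ≤ 1 / 2) : G0 t = 1 := by
  unfold G0
  exact Real.smoothTransition.one_of_one_le (by linarith)

theorem G0_nonneg (t : ℝ) : 0 ≤ G0 t := by
  unfold G0
  exact Real.smoothTransition.nonneg _

theorem G0_le (t : ℝ) : G0 t ≤ 1 := by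
  unfold G0
  exact Real.smoothTransition.le_one _

theorem G0_cont : Continuous G0 := by
  unfold G0
  exact Real.smoothTransition.continuous.comp (by fun_prop)

theorem tz_cont (a b : ℝ) : Continuous (tz a b) := by
  unfold tz
  fun_prop

theorem tz_one {a b x : ℝ} (hab : a < b) (hx : x ≤ a) : tz a b x = 1 := by
  unfold tz
  rw [abs_of_nonpos (by linarith), abs_of_nonpos (by linarith)]
  have : b - a ≠ 0 := by linarith
  field_simp
  ring

theorem tz_zero {a b x : ℝ} (hab : a < b) (hx : b ≤ x) : tz a b x = 0 := by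
  unfold tz
  rw [abs_of_nonneg (by linarith), abs_of_nonneg (by linarith)]
  have : b - a ≠ 0 := by linarith
  field_simp
  ring

theorem tz_mem {a b : ℝ} (hab : a < b) (x : ℝ) : 0 ≤ tz a b x ∧ tz a b x ≤ 1 := by
  have hd : 0 < 2 * (b - a) := by linarith
  have h1 : |(|x - b| - |x - a|)| ≤ b - a := by
    have h2 := abs_abs_sub_abs_le_abs_sub (x - b) (x - a)
    have h3 : |x - b - (x - a)| = b - a := by
      have : x - b - (x - a) = -(b - a) := by ring
      rw [this, abs_neg, abs_of_pos (by linarith)]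
    rwa [h3] at h2
  rw [abs_le] at h1
  unfold tz
  have h4 : -(1 / 2) ≤ (|x - b| - |x - a|) / (2 * (b - a)) := by
    rw [le_div_iff₀ hd]
    linarith [h1.1]
  have h5 : (|x - b| - |x - a|) / (2 * (b - a)) ≤ 1 / 2 := by
    rw [div_le_iff₀ hd]
    linarith [h1.2]
  constructor <;> linarith

theorem sandwich (f W : ℝ → ℝ) (hf : Continuous f) (hW : Continuous W) (T u v : ℝ)
    (hu0 : 0 ≤ u) (huT : u ≤ T) (hv0 : 0 ≤ v) (hvT : v ≤ T)
    (hf0 : ∀ x, 0 ≤ x → 0 ≤ f x) (hW01 : ∀ x, 0 ≤ W x ∧ W x ≤ 1)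
    (hW1 : ∀ x, 0 ≤ x → x ≤ u → W x = 1) (hW0 : ∀ x, v ≤ x → W x = 0) :
    (∫ x in (0 : ℝ)..u, f x) ≤ ∫ x in (0 : ℝ)..T, W x * f x ∧
      (∫ x in (0 : ℝ)..T, W x * f x) ≤ ∫ x in (0 : ℝ)..v, f x := by
  have hc : Continuous (fun x => W x * f x) := hW.mul hf
  constructor
  · rw [← intervalIntegral.integral_add_adjacent_intervals (hc.intervalIntegrable 0 u)
      (hc.intervalIntegrable u T)]
    have h1 : ∫ x in (0 : ℝ)..u, W x * f x = ∫ x in (0 : ℝ)..u, f x := by
      refine intervalIntegral.integral_congr (fun x hx => ?_)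
      rw [Set.uIcc_of_le hu0] at hx
      show W x * f x = f x
      rw [hW1 x hx.1 hx.2, one_mul]
    have h2 : 0 ≤ ∫ x in u..T, W x * f x := by
      refine intervalIntegral.integral_nonneg huT (fun x hx => ?_)
      exact mul_nonneg (hW01 x).1 (hf0 x (hu0.trans hx.1))
    linarith
  · rw [← intervalIntegral.integral_add_adjacent_intervals (hc.intervalIntegrable 0 v)
      (hc.intervalIntegrable v T)]
    have h1 : ∫ x in v..T, W x * f x = 0 := by
      have h3 : ∫ x in v..T, W x * f x = ∫ x in v..T, (0 : ℝ) := by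
        refine intervalIntegral.integral_congr (fun x hx => ?_)
        rw [Set.uIcc_of_le hvT] at hx
        show W x * f x = 0
        rw [hW0 x hx.1, zero_mul]
      rw [h3, intervalIntegral.integral_zero]
    have h2 : (∫ x in (0 : ℝ)..v, W x * f x) ≤ ∫ x in (0 : ℝ)..v, f x := by
      refine intervalIntegral.integral_mono_on hv0 (hc.intervalIntegrable 0 v)
        (hf.intervalIntegrable 0 v) (fun x hx => ?_)
      have := mul_le_mul_of_nonneg_right (hW01 x).2 (hf0 x hx.1)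
      linarith
    linarith

/-- the weight -/
noncomputable def wW (h a b θ : ℝ) : ℝ := G0 (θ / (2 * h)) * tz a b (θ / (4 * h))

theorem wW_cont (h a b : ℝ) : Continuous (wW h a b) := by
  unfold wW
  exact (G0_cont.comp (continuous_id.div_const _)).mul
    ((tz_cont a b).comp (continuous_id.div_const _))

theorem wW_mem {h a b : ℝ} (hab : a < b) (θ : ℝ) : 0 ≤ wW h a b θ ∧ wW h a b θ ≤ 1 := by
  unfold wW
  have h1 := tz_mem hab (θ / (4 * h))
  have h2 := G0_nonneg (θ / (2 * h))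
  have h3 := G0_le (θ / (2 * h))
  refine ⟨mul_nonneg h2 h1.1, ?_⟩
  calc G0 (θ / (2 * h)) * tz a b (θ / (4 * h)) ≤ 1 * 1 :=
        mul_le_mul h3 h1.2 h1.1 zero_le_one
    _ = 1 := one_mul 1

theorem wW_one {h a b θ : ℝ} (hh : 0 < h) (hab : a < b) (h1 : θ ≤ h) (h2 : θ ≤ a * (4 * h)) :
    wW h a b θ = 1 := by
  unfold wW
  rw [G0_one, tz_one hab, one_mul]
  · rw [div_le_iff₀ (by positivity)]
    exact h2
  · rw [div_le_iff₀ (by positivity)]
    linarith

theorem wW_zero {h a b θ : ℝ} (hh : 0 < h) (hab : a < b) (h2 : b * (4 * h) ≤ θ) :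
    wW h a b θ = 0 := by
  unfold wW
  rw [tz_zero hab, mul_zero]
  rw [le_div_iff₀ (by positivity)]
  exact h2

theorem split_int (f : ℝ → ℝ) (hf : Continuous f) (h a b : ℝ) :
    ∫ θ in (0 : ℝ)..(2 * h), G0 (θ / (2 * h)) * tz a b (θ / (4 * h)) * (f θ - θ)
      = (∫ θ in (0 : ℝ)..(2 * h), wW h a b θ * f θ)
        - ∫ θ in (0 : ℝ)..(2 * h), wW h a b θ * θ := by
  rw [← intervalIntegral.integral_sub]
  · refine intervalIntegral.integral_congr (fun θ _ => ?_)
    show G0 (θ / (2 * h)) * tz a b (θ / (4 * h)) * (f θ - θ)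
      = G0 (θ / (2 * h)) * tz a b (θ / (4 * h)) * f θ
        - G0 (θ / (2 * h)) * tz a b (θ / (4 * h)) * θ
    ring
  · exact ((wW_cont h a b).mul hf).intervalIntegrable _ _
  · exact ((wW_cont h a b).mul continuous_id).intervalIntegrable _ _

theorem int_id (u : ℝ) : ∫ θ in (0 : ℝ)..u, θ = u ^ 2 / 2 := by
  rw [integral_id]
  ring

theorem W4 : Pool.Agent.H666.LRC.S_sharp4 := by
  intro P hPc hP0 hT hKB
  obtain ⟨K1, hK1, hT⟩ := hT
  obtain ⟨KB, hKB0, hKB⟩ := hKB
  refine ⟨K1 + 2 + 1024 * (KB + 1), by positivity, ?_⟩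
  intro h hh hh2
  rcases le_or_gt h (1 / 4) with h4 | h4
  · -- small `h`
    have hlog : 1 ≤ Real.log (1 / h) := by
      have h1 : (4 : ℝ) ≤ 1 / h := by
        rw [le_div_iff₀ hh]
        linarith
      have h2 : Real.log 4 ≤ Real.log (1 / h) := Real.log_le_log (by norm_num) h1
      have h3 : Real.log 4 = 2 * Real.log 2 := by
        rw [show (4 : ℝ) = 2 ^ 2 by norm_num, Real.log_pow]
        norm_num
      have h5 := Real.log_two_gt_d9
      linarith
    have hL4 : 1 ≤ Real.log (1 / h) ^ 4 := one_le_pow₀ hlog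
    have hh3 : 0 < h ^ 3 := by positivity
    have hQ : h ^ 3 ≤ h ^ 3 * Real.log (1 / h) ^ 4 := by nlinarith
    have e1 := hT h (1 / 4) (1 / 4 + h / 4) hh h4 (by norm_num) (by linarith) (by ring)
    have e2 := hT h (1 / 4 - h / 4) (1 / 4) hh h4 (by linarith) (by norm_num) (by ring)
    filter_upwards [e1, e2] with N u1 u2
    rw [split_int (P N) (hPc N)] at u1 u2
    rw [abs_le] at u1 u2
    have hab1 : (1 / 4 : ℝ) < 1 / 4 + h / 4 := by linarith
    have hab2 : (1 / 4 - h / 4 : ℝ) < 1 / 4 := by linarith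
    have hhh : h * (1 + h) ≤ 2 * h := by nlinarith
    have hhh0 : 0 ≤ h * (1 + h) := by positivity
    have hhm : h * (1 - h) ≤ h := by nlinarith
    have hhm0 : 0 ≤ h * (1 - h) := mul_nonneg hh.le (by linarith)
    -- upper
    have s1 := (sandwich (P N) (wW h (1 / 4) (1 / 4 + h / 4)) (hPc N) (wW_cont _ _ _) (2 * h) h
      (h * (1 + h)) hh.le (by linarith) hhh0 hhh (fun x _ => hP0 N x) (fun x => wW_mem hab1 x)
      (fun x _ hx => wW_one hh hab1 hx (by linarith))
      (fun x hx => wW_zero hh hab1 (by nlinarith))).1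
    have s2 := (sandwich (fun x => x) (wW h (1 / 4) (1 / 4 + h / 4)) continuous_id
      (wW_cont _ _ _) (2 * h) h
      (h * (1 + h)) hh.le (by linarith) hhh0 hhh (fun x hx => hx) (fun x => wW_mem hab1 x)
      (fun x _ hx => wW_one hh hab1 hx (by linarith))
      (fun x hx => wW_zero hh hab1 (by nlinarith))).2
    -- lower
    have s3 := (sandwich (P N) (wW h (1 / 4 - h / 4) (1 / 4)) (hPc N) (wW_cont _ _ _) (2 * h)
      (h * (1 - h)) h hhm0 (by linarith) hh.le (by linarith) (fun x _ => hP0 N x)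
      (fun x => wW_mem hab2 x)
      (fun x _ hx => wW_one hh hab2 (hx.trans hhm) (by nlinarith))
      (fun x hx => wW_zero hh hab2 (by linarith))).2
    have s4 := (sandwich (fun x => x) (wW h (1 / 4 - h / 4) (1 / 4)) continuous_id
      (wW_cont _ _ _) (2 * h)
      (h * (1 - h)) h hhm0 (by linarith) hh.le (by linarith) (fun x hx => hx)
      (fun x => wW_mem hab2 x)
      (fun x _ hx => wW_one hh hab2 (hx.trans hhm) (by nlinarith))
      (fun x hx => wW_zero hh hab2 (by linarith))).1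
    rw [int_id] at s2 s4
    have p1 : (h * (1 + h)) ^ 2 / 2 ≤ h ^ 2 / 2 + 2 * h ^ 3 := by
      have e : (h * (1 + h)) ^ 2 / 2 = h ^ 2 / 2 + h ^ 3 + h ^ 3 * h / 2 := by ring
      rw [e]
      nlinarith
    have p2 : h ^ 2 / 2 - 2 * h ^ 3 ≤ (h * (1 - h)) ^ 2 / 2 := by
      have e : (h * (1 - h)) ^ 2 / 2 = h ^ 2 / 2 - h ^ 3 + h ^ 3 * h / 2 := by ring
      rw [e]
      nlinarith
    have hKB' : 0 ≤ 1024 * (KB + 1) * (h ^ 3 * Real.log (1 / h) ^ 4) := by positivity
    rw [abs_le]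
    constructor
    · nlinarith [u2.1]
    · nlinarith [u1.2]
  · -- large `h`
    filter_upwards [hKB] with N hN
    have hlog : 1 / 2 ≤ Real.log (1 / h) := by
      have h1 : (2 : ℝ) ≤ 1 / h := by
        rw [le_div_iff₀ hh]
        linarith
      have h2 : Real.log 2 ≤ Real.log (1 / h) := Real.log_le_log (by norm_num) h1
      have h5 := Real.log_two_gt_d9
      linarith
    have hL4 : (1 / 2 : ℝ) ^ 4 ≤ Real.log (1 / h) ^ 4 := pow_le_pow_left₀ (by norm_num) hlog 4
    have hh3 : (1 / 4 : ℝ) ^ 3 ≤ h ^ 3 := pow_le_pow_left₀ (by norm_num) h4.le 3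
    have hQ : 1 / 1024 ≤ h ^ 3 * Real.log (1 / h) ^ 4 := by
      calc (1 / 1024 : ℝ) = (1 / 4) ^ 3 * (1 / 2) ^ 4 := by norm_num
        _ ≤ h ^ 3 * Real.log (1 / h) ^ 4 := mul_le_mul hh3 hL4 (by positivity) (by positivity)
    have i1 : 0 ≤ ∫ θ in (0 : ℝ)..h, P N θ :=
      intervalIntegral.integral_nonneg hh.le (fun x _ => hP0 N x)
    have i2 : (∫ θ in (0 : ℝ)..h, P N θ) ≤ ∫ θ in (0 : ℝ)..(1 / 2), P N θ := by
      rw [← intervalIntegral.integral_add_adjacent_intervals
        ((hPc N).intervalIntegrable 0 h) ((hPc N).intervalIntegrable h (1 / 2))]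
      have := intervalIntegral.integral_nonneg (f := P N) (μ := volume) hh2
        (fun x _ => hP0 N x)
      linarith
    have i3 : 0 ≤ h ^ 2 / 2 := by positivity
    have i4 : h ^ 2 / 2 ≤ 1 := by nlinarith
    have i5 : KB + 1 ≤ (K1 + 2 + 1024 * (KB + 1)) * (h ^ 3 * Real.log (1 / h) ^ 4) := by
      have a1 : (K1 + 2 + 1024 * (KB + 1)) * (1 / 1024) ≤
          (K1 + 2 + 1024 * (KB + 1)) * (h ^ 3 * Real.log (1 / h) ^ 4) :=
        mul_le_mul_of_nonneg_left hQ (by positivity)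
      linarith
    rw [abs_le]
    constructor <;> linarith

end Pool.Agent.H666.LRC.PW356
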