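import Mathlib
import Pool.Agent.H666.LRC.Defs8
import Pool.Agent.H666.LRC.P.V3

open Filter Topology MeasureTheory

namespace Pool.Agent.H666.LRC.PX401

open Pool.Agent.H666.LRC Pool.Agent.H666.LRC.PV437

theorem keyP (r θ : ℝ) (hr : r ≠ 0) :
    psi (θ / r) / (2 * Real.pi ^ 2 * θ ^ 2) = (1 / r ^ 2) * GG (θ / r) := by
  unfold GG
  by_cases hθ : θ = 0
  · subst hθ
    simp
  · have := Real.pi_ne_zero
    field_simp

theorem quotInt (a b : ℝ) (ha : 0 < a) (hab : a ≤ b) :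
    IntervalIntegrable (fun t => G0 t / t) volume a b := by
  apply ContinuousOn.intervalIntegrable
  rw [Set.uIcc_of_le hab]
  intro t ht
  have h0 : t ≠ 0 := (lt_of_lt_of_le ha ht.1).ne'
  exact (G0_contDiff.continuous.continuousAt.div continuousAt_id h0).continuousWithinAt

theorem intGG : ∫ t in (0 : ℝ)..1, GG t * t = Real.log 2 / (2 * Real.pi ^ 2) := by
  have hc : Continuous fun t : ℝ => GG t * t := GG_contDiff.continuous.mul continuous_id
  rw [← intervalIntegral.integral_add_adjacent_intervals (hc.intervalIntegrable 0 (1 / 4))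
    (hc.intervalIntegrable (1 / 4) 1)]
  have h1 : ∫ t in (0 : ℝ)..(1 / 4), GG t * t = 0 := by
    rw [intervalIntegral.integral_congr (g := fun _ => (0 : ℝ))]
    · simp
    · intro t ht
      rw [Set.uIcc_of_le (by norm_num)] at ht
      show GG t * t = 0
      unfold GG
      rw [psi_low ht.2, zero_div, zero_mul]
  have h2 : ∫ t in (1 / 4 : ℝ)..1, GG t * t =
      ∫ t in (1 / 4 : ℝ)..1, (1 / (2 * Real.pi ^ 2)) * (G0 t / t - 2 * (G0 (2 * t) / (2 * t))) := by
    refine intervalIntegral.integral_congr ?_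
    intro t ht
    rw [Set.uIcc_of_le (by norm_num)] at ht
    have h0 : t ≠ 0 := by
      intro h
      rw [h] at ht
      have := ht.1
      norm_num at this
    have := Real.pi_ne_zero
    show GG t * t = (1 / (2 * Real.pi ^ 2)) * (G0 t / t - 2 * (G0 (2 * t) / (2 * t)))
    unfold GG psi
    field_simp
  have i1 := quotInt (1 / 4) 1 (by norm_num) (by norm_num)
  have i2 : IntervalIntegrable (fun t : ℝ => G0 (2 * t) / (2 * t)) volume (1 / 4) 1 := by
    apply ContinuousOn.intervalIntegrable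
    rw [Set.uIcc_of_le (by norm_num)]
    intro t ht
    have h0 : 2 * t ≠ 0 := by
      have := ht.1
      intro h
      linarith
    have c1 : Continuous fun t : ℝ => G0 (2 * t) := G0_contDiff.continuous.comp (by fun_prop)
    have c2 : Continuous fun t : ℝ => 2 * t := by fun_prop
    exact (c1.continuousAt.div c2.continuousAt h0).continuousWithinAt
  have h3 : ∫ t in (1 / 4 : ℝ)..1, G0 (2 * t) / (2 * t) = (1 / 2) * ∫ t in (1 / 2 : ℝ)..2, G0 t / t := by
    have h := intervalIntegral.integral_comp_mul_left (f := fun s : ℝ => G0 s / s) (a := 1 / 4) (b := 1)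
      (c := 2) two_ne_zero
    have e1 : (2 : ℝ) * (1 / 4) = 1 / 2 := by norm_num
    have e2 : (2 : ℝ) * 1 = 2 := by norm_num
    rw [e1, e2, smul_eq_mul] at h
    rw [h]
    norm_num
  have h4 : ∫ t in (1 / 2 : ℝ)..2, G0 t / t = ∫ t in (1 / 2 : ℝ)..1, G0 t / t := by
    rw [← intervalIntegral.integral_add_adjacent_intervals (quotInt (1 / 2) 1 (by norm_num) (by norm_num))
      (quotInt 1 2 (by norm_num) (by norm_num))]
    have : ∫ t in (1 : ℝ)..2, G0 t / t = 0 := by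
      rw [intervalIntegral.integral_congr (g := fun _ => (0 : ℝ))]
      · simp
      · intro t ht
        rw [Set.uIcc_of_le (by norm_num)] at ht
        show G0 t / t = 0
        rw [G0_zero ht.1, zero_div]
    rw [this, add_zero]
  have h5 : ∫ t in (1 / 4 : ℝ)..1, G0 t / t = Real.log 2 + ∫ t in (1 / 2 : ℝ)..1, G0 t / t := by
    rw [← intervalIntegral.integral_add_adjacent_intervals
      (quotInt (1 / 4) (1 / 2) (by norm_num) (by norm_num))
      (quotInt (1 / 2) 1 (by norm_num) (by norm_num))]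
    have : ∫ t in (1 / 4 : ℝ)..(1 / 2), G0 t / t = Real.log 2 := by
      rw [intervalIntegral.integral_congr (g := fun t => 1 / t)]
      · rw [integral_one_div_of_pos (by norm_num) (by norm_num)]
        norm_num
      · intro t ht
        rw [Set.uIcc_of_le (by norm_num)] at ht
        show G0 t / t = 1 / t
        rw [G0_one ht.2]
    rw [this]
  rw [h1, h2, intervalIntegral.integral_const_mul,
    intervalIntegral.integral_sub i1 (i2.const_mul 2), intervalIntegral.integral_const_mul, h3, h4, h5]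
  ring

theorem intGGr (r : ℝ) (hr : 0 < r) :
    ∫ θ in (0 : ℝ)..r, GG (θ / r) * θ = r ^ 2 * (Real.log 2 / (2 * Real.pi ^ 2)) := by
  have h := intervalIntegral.integral_comp_div (f := fun t : ℝ => GG t * t) (a := 0) (b := r)
    (c := r) hr.ne'
  rw [zero_div, div_self hr.ne', intGG, smul_eq_mul] at h
  have e : ∀ θ : ℝ, GG (θ / r) * θ = r * (GG (θ / r) * (θ / r)) := by
    intro θ
    field_simp
  simp only [e]
  rw [intervalIntegral.integral_const_mul, h]
  ring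

theorem X1 : Pool.Agent.H666.LRC.S_hf0 := by
  intro P hP
  obtain ⟨hPc, -, hPG, -⟩ := hP
  obtain ⟨K, hK, hKG⟩ := hPG GG GG_contDiff (GG_high le_rfl)
  have hsum : Summable fun j : ℕ => ((j + 2 : ℕ) : ℝ) ^ 3 * (1 / 2 : ℝ) ^ (j + 2) :=
    (summable_nat_add_iff (f := fun j : ℕ => ((j : ℕ) : ℝ) ^ 3 * (1 / 2 : ℝ) ^ j) 2).2
      (summable_pow_mul_geometric_of_norm_lt_one 3 (by norm_num))
  set S := ∑' j : ℕ, ((j + 2 : ℕ) : ℝ) ^ 3 * (1 / 2 : ℝ) ^ (j + 2) with hS
  have hS0 : 0 ≤ S := tsum_nonneg fun j => by positivity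
  refine ⟨4 * K * S, by positivity, ?_⟩
  intro J
  have hr : ∀ j : ℕ, 0 < (1 / 2 : ℝ) / 2 ^ j ∧ (1 / 2 : ℝ) / 2 ^ j ≤ 1 / 2 := by
    intro j
    have hp : (1 : ℝ) ≤ 2 ^ j := one_le_pow₀ (by norm_num)
    exact ⟨by positivity, div_le_self (by norm_num) hp⟩
  have hlog : ∀ j : ℕ, 0 ≤ Real.log (0 + 2 / ((1 / 2 : ℝ) / 2 ^ j)) ∧
      Real.log (0 + 2 / ((1 / 2 : ℝ) / 2 ^ j)) ≤ ((j + 2 : ℕ) : ℝ) := by
    intro j
    have e : (0 : ℝ) + 2 / ((1 / 2 : ℝ) / 2 ^ j) = 2 ^ (j + 2) := by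
      rw [pow_add]
      field_simp
      norm_num
    rw [e, Real.log_pow]
    have l1 : Real.log 2 ≤ 1 := by
      have := Real.log_le_sub_one_of_pos (show (0 : ℝ) < 2 by norm_num)
      linarith
    have l0 : 0 ≤ Real.log 2 := Real.log_nonneg (by norm_num)
    refine ⟨by positivity, ?_⟩
    exact mul_le_of_le_one_right (Nat.cast_nonneg _) l1
  have hcond : ∀ j : ℕ, (1 / 2 : ℝ) / 2 ^ j * Real.log (0 + 2 / ((1 / 2 : ℝ) / 2 ^ j)) ≤ 1 := by
    intro j
    have hp : (0 : ℝ) < 2 ^ j := by positivity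
    have h1 : ((j + 2 : ℕ) : ℝ) ≤ 2 * 2 ^ j := by
      have : j + 2 ≤ 2 * 2 ^ j := by
        have h2 : j < 2 ^ j := Nat.lt_two_pow_self
        have h3 : 1 ≤ 2 ^ j := Nat.one_le_two_pow
        omega
      exact_mod_cast this
    calc (1 / 2 : ℝ) / 2 ^ j * Real.log (0 + 2 / ((1 / 2 : ℝ) / 2 ^ j))
        ≤ (1 / 2 : ℝ) / 2 ^ j * (2 * 2 ^ j) :=
          mul_le_mul_of_nonneg_left ((hlog j).2.trans h1) (hr j).1.le
      _ = 1 := by field_simp
  have hev : ∀ᶠ N : ℕ in atTop, ∀ j ∈ Finset.range J,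
      |∫ θ in (0 : ℝ)..((1 / 2 : ℝ) / 2 ^ j), GG (θ / ((1 / 2 : ℝ) / 2 ^ j)) *
        Real.cos (2 * Real.pi * 0 * θ) * (P N θ - θ)| ≤
        K * (((1 / 2 : ℝ) / 2 ^ j) ^ 3 * ((j + 2 : ℕ) : ℝ) ^ 3) := by
    rw [Filter.eventually_all_finset]
    intro j hj
    filter_upwards [hKG ((1 / 2 : ℝ) / 2 ^ j) 0 (hr j).1 (hr j).2 le_rfl (hcond j)] with N hN
    refine hN.trans ?_
    have h3 := pow_le_pow_left₀ (hlog j).1 (hlog j).2 3
    exact mul_le_mul_of_nonneg_left (mul_le_mul_of_nonneg_left h3 (by have := (hr j).1; positivity)) hK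
  filter_upwards [hev] with N hN
  have hGc : Continuous GG := GG_contDiff.continuous
  have hPN := hPc N
  have hcontr : ∀ j : ℕ, Continuous fun θ : ℝ => GG (θ / ((1 / 2 : ℝ) / 2 ^ j)) :=
    fun j => hGc.comp (continuous_id.div_const _)
  have hI : ∀ j ∈ Finset.range J,
      |(∫ θ in (0 : ℝ)..(1 / 2), psi (θ / ((1 / 2 : ℝ) / 2 ^ j)) / (2 * Real.pi ^ 2 * θ ^ 2) * P N θ) -
        Real.log 2 / (2 * Real.pi ^ 2)| ≤
        2 * K * (((j + 2 : ℕ) : ℝ) ^ 3 * (1 / 2 : ℝ) ^ (j + 2)) := by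
    intro j hj
    have a1 := (hr j).1
    have a2 := (hr j).2
    have hNj := hN j hj
    have hcr := hcontr j
    have hrv : (1 / 2 : ℝ) / 2 ^ j = 2 * (1 / 2 : ℝ) ^ (j + 2) := by
      rw [pow_add, one_div_pow, one_div_pow]
      field_simp
    set r := (1 / 2 : ℝ) / 2 ^ j with hrdef
    have e2 : ∫ θ in (0 : ℝ)..(1 / 2), psi (θ / r) / (2 * Real.pi ^ 2 * θ ^ 2) * P N θ =
        (1 / r ^ 2) * ∫ θ in (0 : ℝ)..r, GG (θ / r) * P N θ := by
      have e1 : ∀ θ : ℝ, psi (θ / r) / (2 * Real.pi ^ 2 * θ ^ 2) * P N θ =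
          (1 / r ^ 2) * (GG (θ / r) * P N θ) := by
        intro θ
        rw [keyP r θ a1.ne']
        ring
      simp only [e1]
      rw [intervalIntegral.integral_const_mul]
      have hcc : Continuous fun θ : ℝ => GG (θ / r) * P N θ := hcr.mul hPN
      rw [← intervalIntegral.integral_add_adjacent_intervals
        (hcc.intervalIntegrable 0 r) (hcc.intervalIntegrable r (1 / 2))]
      have hz : ∫ θ in r..(1 / 2 : ℝ), GG (θ / r) * P N θ = 0 := by
        rw [intervalIntegral.integral_congr (g := fun _ => (0 : ℝ))]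
        · simp
        · intro θ hθ
          rw [Set.uIcc_of_le a2] at hθ
          have h1 : 1 ≤ θ / r := by
            rw [le_div_iff₀ a1, one_mul]
            exact hθ.1
          show GG (θ / r) * P N θ = 0
          rw [GG_high h1, zero_mul]
      rw [hz, add_zero]
    have e3 : ∫ θ in (0 : ℝ)..r, GG (θ / r) * P N θ =
        (∫ θ in (0 : ℝ)..r, GG (θ / r) * Real.cos (2 * Real.pi * 0 * θ) * (P N θ - θ)) +
          r ^ 2 * (Real.log 2 / (2 * Real.pi ^ 2)) := by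
      rw [← intGGr r a1, ← intervalIntegral.integral_add]
      · refine intervalIntegral.integral_congr fun θ _ => ?_
        show GG (θ / r) * P N θ = GG (θ / r) * Real.cos (2 * Real.pi * 0 * θ) * (P N θ - θ) +
          GG (θ / r) * θ
        rw [mul_zero, zero_mul, Real.cos_zero]
        ring
      · have : Continuous fun θ : ℝ => GG (θ / r) * Real.cos (2 * Real.pi * 0 * θ) * (P N θ - θ) := by
          fun_prop
        exact this.intervalIntegrable _ _
      · have : Continuous fun θ : ℝ => GG (θ / r) * θ := by fun_prop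
        exact this.intervalIntegrable _ _
    rw [e2, e3]
    set I := ∫ θ in (0 : ℝ)..r, GG (θ / r) * Real.cos (2 * Real.pi * 0 * θ) * (P N θ - θ) with hIdef
    have e4 : (1 / r ^ 2) * (I + r ^ 2 * (Real.log 2 / (2 * Real.pi ^ 2))) -
        Real.log 2 / (2 * Real.pi ^ 2) = (1 / r ^ 2) * I := by
      have := Real.pi_ne_zero
      have := a1.ne'
      field_simp
      ring
    rw [e4, abs_mul, abs_of_pos (by positivity)]
    calc 1 / r ^ 2 * |I| ≤ 1 / r ^ 2 * (K * (r ^ 3 * ((j + 2 : ℕ) : ℝ) ^ 3)) :=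
          mul_le_mul_of_nonneg_left hNj (by positivity)
      _ = K * (((j + 2 : ℕ) : ℝ) ^ 3 * r) := by
          have := a1.ne'
          field_simp
      _ = 2 * K * (((j + 2 : ℕ) : ℝ) ^ 3 * (1 / 2 : ℝ) ^ (j + 2)) := by
          rw [hrv]
          ring
  have e5 : ∫ θ in (0 : ℝ)..(1 / 2), (G0 (2 * θ) - G0 (2 ^ (J + 1) * θ)) / (2 * Real.pi ^ 2 * θ ^ 2) *
      P N θ = ∑ j ∈ Finset.range J, ∫ θ in (0 : ℝ)..(1 / 2),
        psi (θ / ((1 / 2 : ℝ) / 2 ^ j)) / (2 * Real.pi ^ 2 * θ ^ 2) * P N θ := by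
    rw [← intervalIntegral.integral_finsetSum]
    · refine intervalIntegral.integral_congr fun θ _ => ?_
      show (G0 (2 * θ) - G0 (2 ^ (J + 1) * θ)) / (2 * Real.pi ^ 2 * θ ^ 2) * P N θ =
        ∑ j ∈ Finset.range J, psi (θ / ((1 / 2 : ℝ) / 2 ^ j)) / (2 * Real.pi ^ 2 * θ ^ 2) * P N θ
      rw [← Finset.sum_mul, ← Finset.sum_div, ← tele]
      have f1 : θ / (1 / 2 : ℝ) = 2 * θ := by ring
      have f2 : 2 ^ J * θ / (1 / 2 : ℝ) = 2 ^ (J + 1) * θ := by
        rw [pow_succ]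
        ring
      rw [f1, f2]
    · intro j hj
      have e1 : (fun θ : ℝ => psi (θ / ((1 / 2 : ℝ) / 2 ^ j)) / (2 * Real.pi ^ 2 * θ ^ 2) * P N θ) =
          fun θ => (1 / ((1 / 2 : ℝ) / 2 ^ j) ^ 2) * GG (θ / ((1 / 2 : ℝ) / 2 ^ j)) * P N θ := by
        funext θ
        rw [keyP _ θ (hr j).1.ne']
      rw [e1]
      exact ((continuous_const.mul (hcontr j)).mul hPN).intervalIntegrable _ _
  rw [e5]
  have e6 : 2 * (∑ j ∈ Finset.range J, ∫ θ in (0 : ℝ)..(1 / 2),
        psi (θ / ((1 / 2 : ℝ) / 2 ^ j)) / (2 * Real.pi ^ 2 * θ ^ 2) * P N θ) -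
      1 / Real.pi ^ 2 * (J * Real.log 2) =
      2 * ∑ j ∈ Finset.range J, ((∫ θ in (0 : ℝ)..(1 / 2),
        psi (θ / ((1 / 2 : ℝ) / 2 ^ j)) / (2 * Real.pi ^ 2 * θ ^ 2) * P N θ) -
        Real.log 2 / (2 * Real.pi ^ 2)) := by
    rw [Finset.sum_sub_distrib, Finset.sum_const, Finset.card_range, nsmul_eq_mul]
    generalize (∑ j ∈ Finset.range J, ∫ θ in (0 : ℝ)..(1 / 2),
        psi (θ / ((1 / 2 : ℝ) / 2 ^ j)) / (2 * Real.pi ^ 2 * θ ^ 2) * P N θ) = T
    have := Real.pi_ne_zero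
    field_simp
  rw [e6, abs_mul, abs_of_pos (by norm_num : (0 : ℝ) < 2)]
  have h7 := (Finset.abs_sum_le_sum_abs _ _).trans (Finset.sum_le_sum hI)
  rw [← Finset.mul_sum] at h7
  have h8 : ∑ j ∈ Finset.range J, ((j + 2 : ℕ) : ℝ) ^ 3 * (1 / 2 : ℝ) ^ (j + 2) ≤ S :=
    hsum.sum_le_tsum _ fun j _ => by positivity
  calc _ ≤ 2 * (2 * K * ∑ j ∈ Finset.range J, ((j + 2 : ℕ) : ℝ) ^ 3 * (1 / 2 : ℝ) ^ (j + 2)) :=
        mul_le_mul_of_nonneg_left h7 (by norm_num)
    _ ≤ 2 * (2 * K * S) := by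
        have := mul_le_mul_of_nonneg_left h8 (show 0 ≤ 2 * K by positivity)
        linarith
    _ = 4 * K * S := by ring

end Pool.Agent.H666.LRC.PX401
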