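import Mathlib
import Pool.Agent.H666.LRC.Defs8

set_option autoImplicit false

namespace Pool.Agent.H666.LRC.PX336

open Pool.Agent.H666.LRC

theorem X2_tele (m : ℕ) (x : ℝ) (H : ℕ) :
    2 * Real.sin x * ∑ j ∈ Finset.Ico m (m + H), Real.cos (2 * (j * x)) =
      Real.sin ((2 * ((m + H : ℕ) : ℝ) - 1) * x) - Real.sin ((2 * (m : ℝ) - 1) * x) := by
  induction H with
  | zero => simp
  | succ n ih =>
    rw [← Nat.add_assoc, Finset.sum_Ico_succ_top (by omega), mul_add, ih]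
    have e1 : (2 * ((m + n + 1 : ℕ) : ℝ) - 1) * x = 2 * (((m + n : ℕ) : ℝ) * x) + x := by
      push_cast
      ring
    have e2 : (2 * ((m + n : ℕ) : ℝ) - 1) * x = 2 * (((m + n : ℕ) : ℝ) * x) - x := by
      push_cast
      ring
    rw [e1, e2, Real.sin_add, Real.sin_sub]
    ring

theorem X2_sq (x : ℝ) (hx0 : 0 < x) (hx1 : x ≤ Real.pi / 2) :
    0 ≤ 1 / Real.sin x ^ 2 - 1 / x ^ 2 ∧ 1 / Real.sin x ^ 2 - 1 / x ^ 2 ≤ 1 := by
  have hs0 : 0 < Real.sin x := Real.sin_pos_of_pos_of_lt_pi hx0 (by linarith)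
  have hs1 : Real.sin x ≤ x := Real.sin_le hx0.le
  have hA : x / Real.sqrt (1 + x ^ 2) ≤ Real.sin x := by
    rw [← Real.sin_arctan]
    have h5 : Real.arctan x ≤ x := by
      have h51 := Real.le_tan (Real.arctan_nonneg.2 hx0.le) (Real.arctan_lt_pi_div_two x)
      rwa [Real.tan_arctan] at h51
    exact Real.sin_le_sin_of_le_of_le_pi_div_two
      (by have := Real.neg_pi_div_two_lt_arctan x; linarith) hx1 h5
  have hsq : x ^ 2 ≤ Real.sin x ^ 2 * (1 + x ^ 2) := by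
    have h6 : 0 < Real.sqrt (1 + x ^ 2) := Real.sqrt_pos.2 (by positivity)
    rw [div_le_iff₀ h6] at hA
    have h7 : x ^ 2 ≤ (Real.sin x * Real.sqrt (1 + x ^ 2)) ^ 2 := pow_le_pow_left₀ hx0.le hA 2
    have h71 : Real.sqrt (1 + x ^ 2) ^ 2 = 1 + x ^ 2 := Real.sq_sqrt (by positivity)
    rw [mul_pow, h71] at h7
    exact h7
  have hd0 : 0 ≤ 1 / Real.sin x ^ 2 - 1 / x ^ 2 := by
    rw [sub_nonneg]
    apply one_div_le_one_div_of_le (by positivity)
    gcongr
  have hd1 : 1 / Real.sin x ^ 2 - 1 / x ^ 2 ≤ 1 := by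
    have h8 : 1 / Real.sin x ^ 2 ≤ (1 + x ^ 2) / x ^ 2 := by
      rw [div_le_div_iff₀ (by positivity) (by positivity)]
      linarith
    have h9 : (1 + x ^ 2) / x ^ 2 = 1 / x ^ 2 + 1 := by field_simp
    linarith
  exact ⟨hd0, hd1⟩

theorem X2 : Pool.Agent.H666.LRC.S_avgker := by
  intro m H θ hH h0 h1
  have hpi := Real.pi_pos
  set x : ℝ := Real.pi * θ with hx
  have hx0 : 0 < x := by positivity
  have hx1 : x ≤ Real.pi / 2 := by rw [hx]; nlinarith
  have hs0 : 0 < Real.sin x := Real.sin_pos_of_pos_of_lt_pi hx0 (by linarith)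
  have hs1 : Real.sin x ≤ x := Real.sin_le hx0.le
  have hs2 : 2 * θ ≤ Real.sin x := by
    have h2 : 2 / Real.pi * x ≤ Real.sin x := Real.mul_le_sin hx0.le hx1
    have h3 : 2 / Real.pi * x = 2 * θ := by rw [hx]; field_simp
    rwa [h3] at h2
  have hH0 : (0 : ℝ) < H := by exact_mod_cast hH
  obtain ⟨hd0, hd1⟩ := X2_sq x hx0 hx1
  -- the kernels
  have hF : ∀ j : ℕ, Fj j θ = (1 - Real.cos (2 * (j * x))) / (2 * Real.sin x ^ 2) := by
    intro j
    unfold Fj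
    have e1 : Real.pi * j * θ = j * x := by rw [hx]; ring
    have e2 : Real.pi * θ = x := rfl
    rw [e1, e2, Real.cos_two_mul, Real.cos_sq', div_eq_div_iff (by positivity) (by positivity)]
    ring
  obtain ⟨C, hC⟩ : ∃ C, C = ∑ j ∈ Finset.Ico m (m + H), Real.cos (2 * (j * x)) := ⟨_, rfl⟩
  have hCb : |C| ≤ 1 / Real.sin x := by
    have h2 := X2_tele m x H
    rw [← hC] at h2
    have h3 := Real.abs_sin_le_one ((2 * ((m + H : ℕ) : ℝ) - 1) * x)
    have h4 := Real.abs_sin_le_one ((2 * (m : ℝ) - 1) * x)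
    have h5 : |2 * Real.sin x * C| ≤ 2 := by
      rw [h2]
      exact (abs_sub _ _).trans (by linarith)
    rw [abs_mul, abs_mul, abs_of_pos hs0, abs_two] at h5
    rw [le_div_iff₀ hs0]
    nlinarith
  have hsum : ∑ j ∈ Finset.Ico m (m + H), Fj j θ = (H - C) / (2 * Real.sin x ^ 2) := by
    simp only [hF]
    rw [← Finset.sum_div, Finset.sum_sub_distrib, ← hC, Finset.sum_const, Nat.card_Ico,
      add_tsub_cancel_left, nsmul_eq_mul, mul_one]
  have hxx : 2 * Real.pi ^ 2 * θ ^ 2 = 2 * x ^ 2 := by rw [hx]; ring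
  rw [hsum, hxx]
  clear_value x
  have hmain : 1 / (H : ℝ) * ((H - C) / (2 * Real.sin x ^ 2)) - 1 / (2 * x ^ 2) =
      1 / 2 * (1 / Real.sin x ^ 2 - 1 / x ^ 2) - C / (2 * H * Real.sin x ^ 2) := by
    field_simp
    ring
  rw [hmain]
  have hE : |C / (2 * H * Real.sin x ^ 2)| ≤ 1 / (16 * H * θ ^ 3) := by
    rw [abs_div, abs_of_pos (show 0 < 2 * (H : ℝ) * Real.sin x ^ 2 by positivity)]
    calc |C| / (2 * H * Real.sin x ^ 2) ≤ (1 / Real.sin x) / (2 * H * Real.sin x ^ 2) := by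
          gcongr
      _ = 1 / (2 * H * Real.sin x ^ 3) := by
          field_simp
      _ ≤ 1 / (2 * H * (2 * θ) ^ 3) := by
          gcongr
      _ = 1 / (16 * H * θ ^ 3) := by
          ring
  refine (abs_sub _ _).trans ?_
  have hG : |1 / 2 * (1 / Real.sin x ^ 2 - 1 / x ^ 2)| ≤ 1 := by
    rw [abs_of_nonneg (by positivity)]
    linarith
  linarith

end Pool.Agent.H666.LRC.PX336
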