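import Mathlib
import Pool.Agent.H666.LRC.Defs8
import Pool.Agent.H666.LRC.P.V2

/-! X3 of project LRC: the dyadic sum with cubes (by helper974 for helper666). -/

set_option autoImplicit false

open Filter Topology MeasureTheory

namespace Pool.Agent.H666.LRC.PX974

open Pool.Agent.H666.LRC.PV864 (c c_pos c_le c_mono c_succ_le)

theorem ii3 {P : ℝ → ℝ} (hc : Continuous P) {a b : ℝ} (ha : 0 < a) (hb : 0 < b) :
    IntervalIntegrable (fun θ => P θ / θ ^ 3) volume a b := by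
  refine ContinuousOn.intervalIntegrable ?_
  refine hc.continuousOn.div (by fun_prop) fun x hx => ?_
  have h0 : 0 < x := lt_of_lt_of_le (lt_min ha hb) hx.1
  positivity

theorem step3 {P : ℝ → ℝ} (hc : Continuous P) (hp : ∀ θ, 0 ≤ P θ) {a b K : ℝ} (ha : 0 < a)
    (hab : a ≤ b) (hb : b ≤ 2 * a) (hK : 0 ≤ K) (hm : ∫ θ in (0 : ℝ)..b, P θ ≤ K * b ^ 2) :
    ∫ θ in a..b, P θ / θ ^ 3 ≤ 4 * K / a := by
  have hb0 : 0 < b := lt_of_lt_of_le ha hab
  have h1 : ∫ θ in a..b, P θ / θ ^ 3 ≤ ∫ θ in a..b, P θ / a ^ 3 := by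
    refine intervalIntegral.integral_mono_on hab (ii3 hc ha hb0)
      ((hc.div_const _).intervalIntegrable _ _) fun θ hθ => ?_
    have h2 : a ^ 3 ≤ θ ^ 3 := pow_le_pow_left₀ ha.le hθ.1 3
    exact div_le_div_of_nonneg_left (hp θ) (by positivity) h2
  have h3 : ∫ θ in a..b, P θ / a ^ 3 = (∫ θ in a..b, P θ) / a ^ 3 :=
    intervalIntegral.integral_div _ _
  have h4 : ∫ θ in a..b, P θ ≤ ∫ θ in (0 : ℝ)..b, P θ := by
    rw [← intervalIntegral.integral_add_adjacent_intervals (hc.intervalIntegrable 0 a)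
      (hc.intervalIntegrable a b)]
    have h5 : 0 ≤ ∫ θ in (0 : ℝ)..a, P θ :=
      intervalIntegral.integral_nonneg ha.le fun θ _ => hp θ
    linarith
  have h6 : b ^ 2 ≤ 4 * a ^ 2 := by
    have h7 := pow_le_pow_left₀ hb0.le hb 2
    calc b ^ 2 ≤ (2 * a) ^ 2 := h7
      _ = 4 * a ^ 2 := by ring
  refine h1.trans ?_
  rw [h3, div_le_iff₀ (by positivity)]
  calc ∫ θ in a..b, P θ ≤ K * b ^ 2 := h4.trans hm
    _ ≤ K * (4 * a ^ 2) := mul_le_mul_of_nonneg_left h6 hK
    _ = 4 * K / a * a ^ 3 := by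
      field_simp

theorem ind3 {P : ℕ → ℝ → ℝ} (hc : ∀ N, Continuous (P N)) (hp : ∀ N θ, 0 ≤ P N θ) {K : ℝ}
    (hK : 0 ≤ K) (hm : ∀ h : ℝ, 0 < h → h ≤ 1 / 2 → ∀ᶠ N : ℕ in atTop,
      ∫ θ in (0 : ℝ)..h, P N θ ≤ K * h ^ 2) {h : ℝ} (hh : 0 < h) (hh4 : h ≤ 1 / 4) (j : ℕ) :
    ∀ᶠ N : ℕ in atTop, ∫ θ in h..c h j, P N θ / θ ^ 3 ≤ 8 * K / h * (1 - (1 / 2) ^ j) := by
  induction j with
  | zero =>
    refine Eventually.of_forall fun N => ?_
    have h0 : c h 0 = h := by
      unfold c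
      rw [pow_zero, one_mul]
      exact min_eq_left (by linarith)
    rw [h0, intervalIntegral.integral_same]
    simp
  | succ j ih =>
    filter_upwards [ih, hm (c h (j + 1)) (c_pos hh _) (c_le h _)] with N h1 h2
    rw [← intervalIntegral.integral_add_adjacent_intervals (ii3 (hc N) hh (c_pos hh j))
      (ii3 (hc N) (c_pos hh j) (c_pos hh (j + 1)))]
    have hKh : 0 ≤ K / h := div_nonneg hK hh.le
    have hpj : (0 : ℝ) < (1 / 2) ^ j := by positivity
    have e0 : 8 * K / h * (1 - (1 / 2) ^ (j + 1)) =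
        8 * K / h * (1 - (1 / 2) ^ j) + 4 * (K / h) * (1 / 2) ^ j := by
      rw [pow_succ]
      ring
    rw [e0]
    refine add_le_add h1 ?_
    rcases le_total (2 ^ j * h) (1 / 2 : ℝ) with h5 | h5
    · have h3 := step3 (hc N) (hp N) (c_pos hh j) (c_mono hh j) (c_succ_le hh j) hK h2
      refine h3.trans (le_of_eq ?_)
      have h6 : c h j = 2 ^ j * h := by
        unfold c
        exact min_eq_left h5
      rw [h6, one_div, inv_pow]
      field_simp
    · have h6 : c h j = 1 / 2 := by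
        unfold c
        exact min_eq_right h5
      have h7 : c h (j + 1) = 1 / 2 := by
        refine le_antisymm (c_le h _) ?_
        rw [← h6]
        exact c_mono hh j
      rw [h6, h7, intervalIntegral.integral_same]
      positivity

theorem X3 : Pool.Agent.H666.LRC.S_cube := by
  rintro P hc hp ⟨K, hK, hm⟩
  refine ⟨8 * K, by positivity, ?_⟩
  intro h hh hh4
  obtain ⟨J, hJ⟩ := pow_unbounded_of_one_lt (1 / (2 * h)) (by norm_num : (1 : ℝ) < 2)
  have hcJ : c h J = 1 / 2 := by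
    unfold c
    refine min_eq_right ?_
    rw [div_lt_iff₀ (by positivity)] at hJ
    linarith
  have hi := ind3 hc hp hK hm hh hh4 J
  rw [hcJ] at hi
  filter_upwards [hi] with N hN
  refine hN.trans ?_
  have h1 : 0 ≤ 8 * K / h := by positivity
  have h2 : (1 : ℝ) - (1 / 2) ^ J ≤ 1 := by
    have : (0 : ℝ) < (1 / 2) ^ J := by positivity
    linarith
  calc 8 * K / h * (1 - (1 / 2) ^ J) ≤ 8 * K / h * 1 := mul_le_mul_of_nonneg_left h2 h1
    _ = 8 * K / h := mul_one _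

end Pool.Agent.H666.LRC.PX974
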