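import Mathlib
import Pool.Agent.H666.LRC.Defs8
import Pool.Agent.H666.LRC.P.V6

/-! X4: the low frequencies (helper118). -/

namespace Pool.Agent.H666.LRC.PX118

open Filter Topology MeasureTheory intervalIntegral
open Pool.Agent.H666.LRC
open Pool.Agent.H666.LRC.PV268

/-- the deterministic estimate, low frequencies only -/
theorem est4 (hk : S_kern) (m : ℕ) (p : ℝ → ℝ) (hp : Continuous p) (hp0 : ∀ θ, 0 ≤ p θ)
    (h : ℝ) (J : ℕ) (h0 : 0 < h) (h1 : h ≤ 1 / 2) :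
    |2 * (∫ θ in (0 : ℝ)..(1 / 2), G0 (θ / h) * (Fj m θ * p θ)) -
      2 * (∫ θ in (0 : ℝ)..h, (G0 (θ / h) - G0 (2 ^ J * θ / h)) * ck m θ * θ)| ≤
      2 * ((m : ℝ) ^ 2 * ∫ θ in (0 : ℝ)..(h / 2 ^ J), p θ) +
      2 * (∫ θ in (0 : ℝ)..(1 / 2), p θ) +
      2 * |∫ θ in (0 : ℝ)..h, (G0 (θ / h) - G0 (2 ^ J * θ / h)) * ck m θ * (p θ - θ)| := by
  have hJ : (1 : ℝ) ≤ 2 ^ J := one_le_pow₀ (by norm_num)
  have hJ0 : (0 : ℝ) < 2 ^ J := by positivity
  have hh' : h / 2 ^ J ≤ h := div_le_self h0.le hJ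
  have hh'0 : 0 < h / 2 ^ J := by positivity
  have cG1 : Continuous fun θ : ℝ => G0 (θ / h) := G0_cont.comp (by fun_prop)
  have cG2 : Continuous fun θ : ℝ => G0 (2 ^ J * θ / h) := G0_cont.comp (by fun_prop)
  have cD : Continuous fun θ : ℝ => G0 (θ / h) - G0 (2 ^ J * θ / h) := cG1.sub cG2
  -- monotonicity
  have hG1z : ∀ θ : ℝ, h ≤ θ → G0 (θ / h) = 0 := fun θ hθ => G0_zero (by
    rw [le_div_iff₀ h0]
    linarith)
  have hG2z : ∀ θ : ℝ, h / 2 ^ J ≤ θ → G0 (2 ^ J * θ / h) = 0 := fun θ hθ => G0_zero (by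
    rw [le_div_iff₀ h0]
    rw [div_le_iff₀ hJ0] at hθ
    linarith)
  have hDabs : ∀ θ : ℝ, |G0 (θ / h) - G0 (2 ^ J * θ / h)| ≤ 1 := fun θ => by
    rw [abs_le]
    constructor
    · linarith [G0_nonneg (θ / h), G0_le_one (2 ^ J * θ / h)]
    · linarith [G0_le_one (θ / h), G0_nonneg (2 ^ J * θ / h)]
  -- integrability
  have iB : IntervalIntegrable (fun θ => Fj m θ * (G0 (2 ^ J * θ / h) * p θ)) volume 0 (1 / 2) :=
    (iF hk m).mul_continuousOn (cG2.mul hp).continuousOn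
  have iCc : IntervalIntegrable (fun θ => (Fj m θ - ck m θ) *
      ((G0 (θ / h) - G0 (2 ^ J * θ / h)) * p θ)) volume 0 (1 / 2) :=
    ((iF hk m).sub (iC hk m)).mul_continuousOn (cD.mul hp).continuousOn
  have iD : IntervalIntegrable (fun θ => (G0 (θ / h) - G0 (2 ^ J * θ / h)) * ck m θ *
      (p θ - θ)) volume 0 (1 / 2) := by
    have e : (fun θ => (G0 (θ / h) - G0 (2 ^ J * θ / h)) * ck m θ * (p θ - θ)) =
        fun θ => ck m θ * ((G0 (θ / h) - G0 (2 ^ J * θ / h)) * (p θ - θ)) := by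
      funext θ
      ring
    rw [e]
    exact (iC hk m).mul_continuousOn (cD.mul (hp.sub continuous_id)).continuousOn
  have iE : IntervalIntegrable (fun θ => (G0 (θ / h) - G0 (2 ^ J * θ / h)) * ck m θ * θ)
      volume 0 (1 / 2) := by
    have e : (fun θ => (G0 (θ / h) - G0 (2 ^ J * θ / h)) * ck m θ * θ) =
        fun θ => ck m θ * ((G0 (θ / h) - G0 (2 ^ J * θ / h)) * θ) := by
      funext θ
      ring
    rw [e]
    exact (iC hk m).mul_continuousOn (cD.mul continuous_id).continuousOn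
  have iP : IntervalIntegrable p volume 0 (1 / 2) := hp.intervalIntegrable _ _
  -- the decomposition
  have hdec : ∫ θ in (0 : ℝ)..(1 / 2), G0 (θ / h) * (Fj m θ * p θ) =
      (∫ θ in (0 : ℝ)..(1 / 2), Fj m θ * (G0 (2 ^ J * θ / h) * p θ)) +
      (∫ θ in (0 : ℝ)..(1 / 2), (Fj m θ - ck m θ) *
        ((G0 (θ / h) - G0 (2 ^ J * θ / h)) * p θ)) +
      (∫ θ in (0 : ℝ)..(1 / 2), (G0 (θ / h) - G0 (2 ^ J * θ / h)) * ck m θ * (p θ - θ)) +
      (∫ θ in (0 : ℝ)..(1 / 2), (G0 (θ / h) - G0 (2 ^ J * θ / h)) * ck m θ * θ) := by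
    rw [← integral_add iB iCc,
      ← integral_add (iB.add iCc) iD, ← integral_add ((iB.add iCc).add iD) iE]
    refine integral_congr fun θ _ => ?_
    ring
  -- the parts
  have hB0 : 0 ≤ ∫ θ in (0 : ℝ)..(1 / 2), Fj m θ * (G0 (2 ^ J * θ / h) * p θ) := by
    refine integral_nonneg (by norm_num) fun θ hθ => ?_
    exact mul_nonneg (kern0 hk m hθ.1 hθ.2).1 (mul_nonneg (G0_nonneg _) (hp0 θ))
  have hB1 : ∫ θ in (0 : ℝ)..(1 / 2), Fj m θ * (G0 (2 ^ J * θ / h) * p θ) ≤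
      (m : ℝ) ^ 2 * ∫ θ in (0 : ℝ)..(h / 2 ^ J), p θ := by
    rw [cut (a := h / 2 ^ J) hh'0.le (by linarith) iB fun θ hθ _ => by
      rw [hG2z θ hθ, zero_mul, mul_zero], ← intervalIntegral.integral_const_mul]
    have hsub : Set.uIcc 0 (h / 2 ^ J) ⊆ Set.uIcc (0 : ℝ) (1 / 2) := by
      rw [Set.uIcc_of_le hh'0.le, Set.uIcc_of_le (by norm_num)]
      exact Set.Icc_subset_Icc le_rfl (by linarith)
    refine integral_mono_on hh'0.le (iB.mono_set hsub)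
      ((continuous_const.mul hp).intervalIntegrable _ _) fun θ hθ => ?_
    obtain ⟨a1, a2, -⟩ := kern0 hk m hθ.1 (by linarith [hθ.2])
    have h3 : G0 (2 ^ J * θ / h) * p θ ≤ p θ :=
      mul_le_of_le_one_left (hp0 θ) (G0_le_one _)
    calc Fj m θ * (G0 (2 ^ J * θ / h) * p θ) ≤ Fj m θ * p θ := mul_le_mul_of_nonneg_left h3 a1
      _ ≤ (m : ℝ) ^ 2 * p θ := mul_le_mul_of_nonneg_right a2 (hp0 θ)
  have hC1 : |∫ θ in (0 : ℝ)..(1 / 2), (Fj m θ - ck m θ) *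
      ((G0 (θ / h) - G0 (2 ^ J * θ / h)) * p θ)| ≤ ∫ θ in (0 : ℝ)..(1 / 2), p θ := by
    refine (abs_integral_le_integral_abs (by norm_num)).trans ?_
    refine integral_mono_on (by norm_num) iCc.abs iP fun θ hθ => ?_
    obtain ⟨-, -, a3⟩ := kern0 hk m hθ.1 hθ.2
    rw [abs_mul, abs_mul, abs_of_nonneg (hp0 θ)]
    calc |Fj m θ - ck m θ| * (|G0 (θ / h) - G0 (2 ^ J * θ / h)| * p θ) ≤ 1 * (1 * p θ) :=
          mul_le_mul a3 (mul_le_mul_of_nonneg_right (hDabs θ) (hp0 θ))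
            (mul_nonneg (abs_nonneg _) (hp0 θ)) zero_le_one
      _ = p θ := by ring
  have hD1 := cut h0.le h1 iD fun θ hθ _ => by
    rw [hG1z θ hθ, hG2z θ (hh'.trans hθ), sub_self, zero_mul, zero_mul]
  have hE1 := cut h0.le h1 iE fun θ hθ _ => by
    rw [hG1z θ hθ, hG2z θ (hh'.trans hθ), sub_self, zero_mul, zero_mul]
  rw [hdec, hD1, hE1]
  have hC2 := abs_le.1 hC1
  have hD2 := neg_abs_le (∫ θ in (0 : ℝ)..h, (G0 (θ / h) - G0 (2 ^ J * θ / h)) * ck m θ * (p θ - θ))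
  have hD3 := le_abs_self (∫ θ in (0 : ℝ)..h, (G0 (θ / h) - G0 (2 ^ J * θ / h)) * ck m θ * (p θ - θ))
  rw [abs_le]
  constructor
  · linarith [hC2.1]
  · linarith [hC2.2]

theorem X4 : Pool.Agent.H666.LRC.S_low := by
  intro hMass hMiddle hMain hKern P hP
  obtain ⟨K1, hK1, h1⟩ := hMass P hP
  obtain ⟨K3, hK3, h3⟩ := hMiddle P hP
  obtain ⟨K4, hK4, h4⟩ := hMain
  obtain ⟨KB, hKB, hB⟩ := hP.2.2.2
  refine ⟨8 * K1 + 2 * KB + 2 * K3 + K4, by positivity, ?_⟩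
  intro m h hh0 hh4 hmh hcube
  have hm0 : (0 : ℝ) < m := by
    by_contra hcon
    have := mul_nonpos_of_nonpos_of_nonneg (not_lt.1 hcon) hh0.le
    linarith
  have hm4 : (4 : ℝ) ≤ m := by
    have := mul_le_mul_of_nonneg_left hh4 hm0.le
    linarith
  obtain ⟨L, hL⟩ : ∃ L : ℝ, L = Real.log (3 * m) := ⟨_, rfl⟩
  rw [← hL] at hcube
  have hL1 : 1 ≤ L := by
    rw [hL]
    have he := Real.exp_one_lt_d9
    have h6 : Real.log (Real.exp 1) ≤ Real.log (3 * m) :=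
      Real.log_le_log (Real.exp_pos 1) (by linarith)
    rwa [Real.log_exp] at h6
  obtain ⟨J, hJ1, hJ2⟩ := exists_nat_pow_near hmh (by norm_num : (1 : ℝ) < 2)
  have hJ0 : (0 : ℝ) < 2 ^ J := by positivity
  have hJge : (1 : ℝ) ≤ 2 ^ J := one_le_pow₀ (by norm_num)
  have hc1 : 1 ≤ m * h / 2 ^ J := by
    rw [le_div_iff₀ hJ0, one_mul]
    exact hJ1
  have hc2 : m * h / 2 ^ J ≤ 2 := by
    rw [div_le_iff₀ hJ0]
    rw [pow_succ] at hJ2
    linarith
  -- the logarithm in `S_middle`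
  have hlog1 : m + 2 * 2 ^ J / h ≤ 3 * m := by
    have : 2 * 2 ^ J / h ≤ 2 * m := by
      rw [div_le_iff₀ hh0]
      linarith
    linarith
  have hlog2 : Real.log (m + 2 * 2 ^ J / h) ≤ L := by
    rw [hL]
    exact Real.log_le_log (by positivity) hlog1
  have hlog3 : 0 ≤ Real.log (m + 2 * 2 ^ J / h) := by
    refine Real.log_nonneg ?_
    have : 0 ≤ 2 * 2 ^ J / h := by positivity
    linarith
  have hcond : h * Real.log (m + 2 * 2 ^ J / h) ≤ 1 := by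
    refine (mul_le_mul_of_nonneg_left hlog2 hh0.le).trans ?_
    refine le_trans ?_ hcube
    refine mul_le_mul_of_nonneg_left ?_ hh0.le
    calc L = L ^ 1 := (pow_one L).symm
      _ ≤ L ^ 3 := pow_le_pow_right₀ hL1 (by norm_num)
  have hK3' : K3 * (h * Real.log (m + 2 * 2 ^ J / h) ^ 3) ≤ K3 := by
    refine mul_le_of_le_one_right hK3 ?_
    have e1 := pow_le_pow_left₀ hlog3 hlog2 3
    have e2 := mul_le_mul_of_nonneg_left e1 hh0.le
    exact e2.trans hcube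
  have g1 := h1 (h / 2 ^ J) (by positivity) (by
    have := div_le_self hh0.le hJge
    linarith)
  have g3 := h3 m h J (by linarith) hh0 (by linarith) hcond
  have g4 := h4 m h J (by linarith) hh0 (by linarith) hc1 hc2
  filter_upwards [hB, g1, g3] with N b0 b1 b3
  have key := est4 hKern m (P N) (hP.1 N) (hP.2.1 N) h J hh0 (by linarith)
  have k1 : (m : ℝ) ^ 2 * ∫ θ in (0 : ℝ)..(h / 2 ^ J), P N θ ≤ 4 * K1 := by
    have e1 := mul_le_mul_of_nonneg_left b1 (by positivity : (0 : ℝ) ≤ (m : ℝ) ^ 2)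
    refine e1.trans ?_
    have e2 : (m : ℝ) ^ 2 * (K1 * (h / 2 ^ J) ^ 2) = K1 * (m * h / 2 ^ J) ^ 2 := by
      field_simp
    rw [e2]
    have e3 : (m * h / 2 ^ J) ^ 2 ≤ 2 ^ 2 := pow_le_pow_left₀ (by linarith) hc2 2
    have e4 := mul_le_mul_of_nonneg_left e3 hK1
    linarith
  have key2 := abs_le.1 key
  have g4' := abs_le.1 g4
  have b3' := b3.trans hK3'
  rw [abs_le]
  constructor
  · linarith [key2.1, g4'.1]
  · linarith [key2.2, g4'.2]

end Pool.Agent.H666.LRC.PX118
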