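import Mathlib
import Pool.Agent.H666.LRC.Defs8
import Pool.Agent.H666.LRC.P.V6

/-! X5: the variance averaged over short windows, assembly (helper779). -/

namespace Pool.Agent.H666.LRC.PX779

open Filter Topology MeasureTheory intervalIntegral
open Pool.Agent.H666.LRC
open Pool.Agent.H666.LRC.PV268 (G0_cont G0_nonneg G0_le_one G0_one G0_zero ii_of_bdd cutl iF)

/-- the deterministic estimate -/
theorem det (hk : S_kern) (ha : S_avgker) (m H J : ℕ) (hH : 1 ≤ H) (p : ℝ → ℝ)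
    (hp : Continuous p) (hp0 : ∀ θ, 0 ≤ p θ) :
    |(1 / H : ℝ) * ∑ j ∈ Finset.Ico m (m + H), 2 * (∫ θ in (0 : ℝ)..(1 / 2), Fj j θ * p θ) -
      (1 / H : ℝ) * ∑ j ∈ Finset.Ico m (m + H),
        2 * (∫ θ in (0 : ℝ)..(1 / 2), G0 (2 ^ (J + 1) * θ) * (Fj j θ * p θ)) -
      2 * (∫ θ in (0 : ℝ)..(1 / 2), (G0 (2 * θ) - G0 (2 ^ (J + 1) * θ)) /
        (2 * Real.pi ^ 2 * θ ^ 2) * p θ)| ≤
    4 * (∫ θ in (0 : ℝ)..(1 / 2), p θ) +
      1 / (8 * H) * ∫ θ in (1 / 2 ^ (J + 2) : ℝ)..(1 / 2), p θ / θ ^ 3 := by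
  have hH0 : (0 : ℝ) < H := by exact_mod_cast hH
  have hJ : (1 : ℝ) ≤ 2 ^ J := one_le_pow₀ (by norm_num)
  set a : ℝ := 1 / 2 ^ (J + 2) with hadef
  have ha0 : 0 < a := by positivity
  have hJ2 : (2 : ℝ) ^ (J + 2) = 4 * 2 ^ J := by ring
  have hJ1 : (2 : ℝ) ^ (J + 1) = 2 * 2 ^ J := by ring
  have ha4 : a ≤ 1 / 4 := by
    rw [hadef, hJ2]
    rw [div_le_div_iff₀ (by positivity) (by norm_num)]
    linarith
  have haB : a * 2 ^ (J + 1) = 1 / 2 := by
    rw [hadef, hJ2, hJ1]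
    field_simp
    norm_num
  set g : ℝ → ℝ := fun θ => G0 (2 ^ (J + 1) * θ) with hg
  have cg : Continuous g := G0_cont.comp (by fun_prop)
  have cg2 : Continuous fun θ : ℝ => G0 (2 * θ) := G0_cont.comp (by fun_prop)
  set kk : ℝ → ℝ := fun θ => 1 / (2 * Real.pi ^ 2 * θ ^ 2) with hkk
  set A : ℝ → ℝ := fun θ => (1 / H : ℝ) * ∑ j ∈ Finset.Ico m (m + H), Fj j θ with hA
  have hg1 : ∀ θ, θ ≤ a → g θ = 1 := fun θ hθ => G0_one (by
    have := mul_le_mul_of_nonneg_left hθ (by positivity : (0 : ℝ) ≤ 2 ^ (J + 1))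
    linarith)
  have iFp : ∀ j, IntervalIntegrable (fun θ => Fj j θ * p θ) volume 0 (1 / 2) := fun j =>
    (iF hk j).mul_continuousOn hp.continuousOn
  have iGF : ∀ j, IntervalIntegrable (fun θ => g θ * (Fj j θ * p θ)) volume 0 (1 / 2) := fun j =>
    (iFp j).continuousOn_mul cg.continuousOn
  have iK : IntervalIntegrable (fun θ => (G0 (2 * θ) - g θ) / (2 * Real.pi ^ 2 * θ ^ 2))
      volume 0 (1 / 2) := by
    refine ii_of_bdd (C := 1 / (2 * Real.pi ^ 2 * a ^ 2)) ?_ ?_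
    · exact (cg2.sub cg).measurable.div (by fun_prop)
    · intro θ h0 h1
      rcases le_or_gt θ a with h | h
      · rw [hg1 θ h, G0_one (by linarith), sub_self, zero_div, abs_zero]
        positivity
      · rw [abs_div, abs_of_pos (by positivity : (0 : ℝ) < 2 * Real.pi ^ 2 * θ ^ 2)]
        have h2 : |G0 (2 * θ) - g θ| ≤ 1 := by
          rw [abs_le]
          constructor
          · linarith [G0_nonneg (2 * θ), G0_le_one (2 ^ (J + 1) * θ)]
          · linarith [G0_le_one (2 * θ), G0_nonneg (2 ^ (J + 1) * θ)]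
        have h3 : a ^ 2 ≤ θ ^ 2 := by
          apply pow_le_pow_left₀ ha0.le h.le
        have hpi : (0 : ℝ) < Real.pi ^ 2 := by positivity
        apply div_le_div₀ zero_le_one h2 (by positivity)
        nlinarith
  have iKp : IntervalIntegrable (fun θ => (G0 (2 * θ) - g θ) / (2 * Real.pi ^ 2 * θ ^ 2) * p θ)
      volume 0 (1 / 2) := iK.mul_continuousOn hp.continuousOn
  set Q : ℝ → ℝ := fun θ => (1 - g θ) * (A θ) * p θ -
    (G0 (2 * θ) - g θ) / (2 * Real.pi ^ 2 * θ ^ 2) * p θ with hQ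
  have iS : IntervalIntegrable (fun θ => ∑ j ∈ Finset.Ico m (m + H),
      (Fj j θ * p θ - g θ * (Fj j θ * p θ))) volume 0 (1 / 2) := by
    have h := IntervalIntegrable.sum (μ := volume) (a := 0) (b := 1 / 2) (Finset.Ico m (m + H))
      (f := fun j θ => Fj j θ * p θ - g θ * (Fj j θ * p θ)) fun j _ => (iFp j).sub (iGF j)
    have e : (∑ j ∈ Finset.Ico m (m + H), fun θ => Fj j θ * p θ - g θ * (Fj j θ * p θ)) =
        fun θ => ∑ j ∈ Finset.Ico m (m + H), (Fj j θ * p θ - g θ * (Fj j θ * p θ)) := by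
      funext θ
      rw [Finset.sum_apply]
    rwa [e] at h
  have eA : (fun θ => (1 - g θ) * (A θ) * p θ) = fun θ => (1 / H : ℝ) *
      ∑ j ∈ Finset.Ico m (m + H), (Fj j θ * p θ - g θ * (Fj j θ * p θ)) := by
    funext θ
    have : ∑ j ∈ Finset.Ico m (m + H), (Fj j θ * p θ - g θ * (Fj j θ * p θ)) =
        (1 - g θ) * (∑ j ∈ Finset.Ico m (m + H), Fj j θ) * p θ := by
      rw [Finset.mul_sum, Finset.sum_mul]
      refine Finset.sum_congr rfl fun j _ => ?_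
      ring
    rw [this, hA]
    ring
  have iA : IntervalIntegrable (fun θ => (1 - g θ) * (A θ) * p θ) volume 0 (1 / 2) := by
    rw [eA]
    exact iS.const_mul _
  have iQ : IntervalIntegrable Q volume 0 (1 / 2) := iA.sub iKp
  have hmain : (1 / H : ℝ) * ∑ j ∈ Finset.Ico m (m + H),
        2 * (∫ θ in (0 : ℝ)..(1 / 2), Fj j θ * p θ) -
      (1 / H : ℝ) * ∑ j ∈ Finset.Ico m (m + H),
        2 * (∫ θ in (0 : ℝ)..(1 / 2), g θ * (Fj j θ * p θ)) -
      2 * (∫ θ in (0 : ℝ)..(1 / 2), (G0 (2 * θ) - g θ) /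
        (2 * Real.pi ^ 2 * θ ^ 2) * p θ) = 2 * ∫ θ in (0 : ℝ)..(1 / 2), Q θ := by
    have e1 : ∫ θ in (0 : ℝ)..(1 / 2), Q θ = (∫ θ in (0 : ℝ)..(1 / 2), (1 - g θ) * (A θ) * p θ) -
        ∫ θ in (0 : ℝ)..(1 / 2), (G0 (2 * θ) - g θ) / (2 * Real.pi ^ 2 * θ ^ 2) * p θ :=
      integral_sub iA iKp
    have e2 : ∫ θ in (0 : ℝ)..(1 / 2), (1 - g θ) * (A θ) * p θ = (1 / H : ℝ) *
        ∑ j ∈ Finset.Ico m (m + H), ((∫ θ in (0 : ℝ)..(1 / 2), Fj j θ * p θ) -
          ∫ θ in (0 : ℝ)..(1 / 2), g θ * (Fj j θ * p θ)) := by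
      rw [eA, intervalIntegral.integral_const_mul,
        intervalIntegral.integral_finsetSum fun j _ => (iFp j).sub (iGF j)]
      congr 1
      exact Finset.sum_congr rfl fun j _ => integral_sub (iFp j) (iGF j)
    rw [e1, e2, Finset.sum_sub_distrib, ← Finset.mul_sum, ← Finset.mul_sum]
    ring
  have hmain' := hmain
  simp only [hg] at hmain'
  rw [hmain', cutl (a := a) ha0.le (by linarith) iQ fun θ _ hθ => by
    rw [hQ]
    simp only
    rw [hg1 θ hθ, G0_one (by linarith), sub_self, zero_div, zero_mul, zero_mul, sub_zero]]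
  have hsub : Set.uIcc a (1 / 2) ⊆ Set.uIcc (0 : ℝ) (1 / 2) := by
    rw [Set.uIcc_of_le (by linarith), Set.uIcc_of_le (by norm_num)]
    exact Set.Icc_subset_Icc ha0.le le_rfl
  have iP : IntervalIntegrable p volume 0 (1 / 2) := hp.intervalIntegrable _ _
  have iP2 : IntervalIntegrable p volume a (1 / 2) := hp.intervalIntegrable _ _
  have iP3 : IntervalIntegrable (fun θ => p θ / θ ^ 3) volume a (1 / 2) := by
    refine ContinuousOn.intervalIntegrable ?_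
    refine hp.continuousOn.div (by fun_prop) fun θ hθ => ?_
    rw [Set.uIcc_of_le (by linarith)] at hθ
    have : 0 < θ := by linarith [hθ.1]
    positivity
  have hbd : |∫ θ in a..(1 / 2 : ℝ), Q θ| ≤
      ∫ θ in a..(1 / 2 : ℝ), (2 * p θ + 1 / (16 * H) * (p θ / θ ^ 3)) := by
    refine (abs_integral_le_integral_abs (by linarith)).trans ?_
    refine integral_mono_on (by linarith) (iQ.mono_set hsub).abs
      ((iP2.const_mul 2).add (iP3.const_mul _)) fun θ hθ => ?_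
    have hθ0 : 0 < θ := by linarith [hθ.1]
    have h1 := ha m H θ hH hθ0 hθ.2
    have e3 : Q θ = (1 - g θ) * (A θ - kk θ) * p θ + (1 - G0 (2 * θ)) * kk θ * p θ := by
      rw [hQ, hkk]
      ring
    have hkk1 : 0 ≤ (1 - G0 (2 * θ)) * kk θ ∧ (1 - G0 (2 * θ)) * kk θ ≤ 1 := by
      have hk0 : 0 ≤ kk θ := by
        rw [hkk]
        positivity
      refine ⟨mul_nonneg (by linarith [G0_le_one (2 * θ)]) hk0, ?_⟩
      rcases le_or_gt θ (1 / 4) with h | h
      · rw [G0_one (by linarith)]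
        norm_num
      · have h5 : kk θ ≤ 1 := by
          rw [hkk]
          simp only
          rw [div_le_one (by positivity)]
          have h6 : (9 : ℝ) ≤ Real.pi ^ 2 := by nlinarith [Real.pi_gt_three]
          have h7 : (1 / 16 : ℝ) ≤ θ ^ 2 := by nlinarith
          nlinarith
        calc (1 - G0 (2 * θ)) * kk θ ≤ 1 * 1 :=
              mul_le_mul (by linarith [G0_nonneg (2 * θ)]) h5 hk0 zero_le_one
          _ = 1 := one_mul 1
    have hg01 : 0 ≤ 1 - g θ ∧ 1 - g θ ≤ 1 :=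
      ⟨by linarith [G0_le_one (2 ^ (J + 1) * θ)], by linarith [G0_nonneg (2 ^ (J + 1) * θ)]⟩
    have h8 : |(1 - g θ) * (A θ - kk θ) * p θ| ≤ (1 + 1 / (16 * H * θ ^ 3)) * p θ := by
      rw [abs_mul, abs_mul, abs_of_nonneg hg01.1, abs_of_nonneg (hp0 θ)]
      refine mul_le_mul_of_nonneg_right ?_ (hp0 θ)
      calc (1 - g θ) * |A θ - kk θ| ≤ 1 * (1 + 1 / (16 * H * θ ^ 3)) :=
            mul_le_mul hg01.2 h1 (abs_nonneg _) zero_le_one
        _ = _ := one_mul _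
    have h9 : |(1 - G0 (2 * θ)) * kk θ * p θ| ≤ p θ := by
      rw [abs_mul, abs_of_nonneg (hp0 θ), abs_of_nonneg hkk1.1]
      exact mul_le_of_le_one_left (hp0 θ) hkk1.2
    rw [e3]
    refine (abs_add_le _ _).trans ((add_le_add h8 h9).trans (le_of_eq ?_))
    field_simp
    ring
  rw [abs_mul, abs_of_pos (by norm_num : (0 : ℝ) < 2)]
  have e4 : ∫ θ in a..(1 / 2 : ℝ), (2 * p θ + 1 / (16 * H) * (p θ / θ ^ 3)) =
      2 * (∫ θ in a..(1 / 2 : ℝ), p θ) + 1 / (16 * H) * ∫ θ in a..(1 / 2 : ℝ), p θ / θ ^ 3 := by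
    rw [integral_add (iP2.const_mul 2) (iP3.const_mul _), intervalIntegral.integral_const_mul,
      intervalIntegral.integral_const_mul]
  have e5 : ∫ θ in a..(1 / 2 : ℝ), p θ ≤ ∫ θ in (0 : ℝ)..(1 / 2), p θ := by
    have h10 : IntervalIntegrable p volume 0 a := hp.intervalIntegrable _ _
    have h11 : 0 ≤ ∫ θ in (0 : ℝ)..a, p θ := integral_nonneg ha0.le fun θ _ => hp0 θ
    linarith [integral_add_adjacent_intervals h10 iP2]
  rw [e4] at hbd
  have e6 : 1 / (8 * H : ℝ) * (∫ θ in a..(1 / 2 : ℝ), p θ / θ ^ 3) =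
      2 * (1 / (16 * H) * ∫ θ in a..(1 / 2 : ℝ), p θ / θ ^ 3) := by
    field_simp
    ring
  rw [e6]
  linarith

theorem X5 : Pool.Agent.H666.LRC.S_varavg := by
  intro hmass hmid hmain hk hhf havg hcube hlow P hP
  obtain ⟨Klow, hKl0, hKl⟩ := hlow hmass hmid hmain hk P hP
  obtain ⟨Khf, hKh0, hKh⟩ := hhf P hP
  have hms := hmass P hP
  obtain ⟨hPc, hPn, -, KB, hKB0, hKB⟩ := hP
  obtain ⟨Kc, hKc0, hKc⟩ := hcube P hPc hPn hms
  refine ⟨Klow + 1 + 1 + Khf + 4 * KB + 4 * Kc, by positivity, ?_⟩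
  intro m H hm1 hlogH hH8 hHm
  have hH8' : (8 : ℝ) ≤ H := by exact_mod_cast hH8
  have hHm' : (16 * H : ℝ) ≤ m := by exact_mod_cast hHm
  have hH0 : (0 : ℝ) < H := by linarith
  have hm0 : (0 : ℝ) < m := by linarith
  have hm1' : (1 : ℝ) ≤ m := by exact_mod_cast hm1
  have hpi9 : (9 : ℝ) ≤ Real.pi ^ 2 := by nlinarith [Real.pi_gt_three]
  have hpi0 : (0 : ℝ) < Real.pi ^ 2 := by positivity
  have hc0 : (0 : ℝ) ≤ 1 / Real.pi ^ 2 := by positivity
  have hc1 : 1 / Real.pi ^ 2 ≤ (1 : ℝ) := by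
    rw [div_le_one hpi0]
    linarith
  have hl2 : Real.log 2 ≤ 1 := by linarith [Real.log_two_lt_d9]
  have hl20 : 0 ≤ Real.log 2 := Real.log_nonneg (by norm_num)
  obtain ⟨J, hJ1, hJ2⟩ : ∃ J : ℕ, (8 * H : ℝ) ≤ 2 ^ (J + 1) ∧ (2 : ℝ) ^ (J + 1) ≤ 16 * H := by
    obtain ⟨n, h1, h2⟩ := exists_nat_pow_near (x := (8 * H : ℝ)) (y := 2) (by linarith) one_lt_two
    exact ⟨n, h2.le, by rw [pow_succ]; linarith⟩
  have hB0 : (0 : ℝ) < 2 ^ (J + 1) := by positivity
  have hhB : ∀ θ : ℝ, θ / (1 / 2 ^ (J + 1)) = 2 ^ (J + 1) * θ := fun θ => by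
    field_simp
  have hlow' : ∀ j ∈ Finset.Ico m (m + H), ∀ᶠ N : ℕ in atTop,
      |2 * (∫ θ in (0 : ℝ)..(1 / 2), G0 (2 ^ (J + 1) * θ) * (Fj j θ * P N θ)) -
        1 / Real.pi ^ 2 * Real.log (j * (1 / 2 ^ (J + 1)))| ≤ Klow := by
    intro j hj
    rw [Finset.mem_Ico] at hj
    have hj1 : (m : ℝ) ≤ j := by exact_mod_cast hj.1
    have hj2 : (j : ℝ) ≤ 2 * m := by
      have : (j : ℝ) ≤ m + H := by exact_mod_cast hj.2.le
      linarith
    have h1 := hKl j (1 / 2 ^ (J + 1)) (by positivity) (by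
      rw [div_le_div_iff₀ hB0 (by norm_num)]
      linarith) (by
      rw [mul_one_div, le_div_iff₀ hB0]
      linarith) (by
      have h2 : Real.log (3 * j) ≤ 2 * Real.log (3 * m) := by
        have h3 : 2 * Real.log (3 * m) = Real.log ((3 * m) ^ 2) := by
          rw [Real.log_pow]
          norm_num
        rw [h3]
        refine Real.log_le_log (by linarith) ?_
        nlinarith
      have h4 : 0 ≤ Real.log (3 * (j : ℝ)) := Real.log_nonneg (by linarith)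
      have h5 : Real.log (3 * (j : ℝ)) ^ 3 ≤ (2 * Real.log (3 * m)) ^ 3 :=
        pow_le_pow_left₀ h4 h2 3
      have h6 : (2 * Real.log (3 * (m : ℝ))) ^ 3 = 8 * Real.log (3 * m) ^ 3 := by ring
      rw [one_div_mul_eq_div, div_le_one hB0]
      linarith)
    simp only [hhB] at h1
    exact h1
  have hall := (Filter.eventually_all_finset (Finset.Ico m (m + H))).mpr hlow'
  have hJ22 : (2 : ℝ) ^ (J + 2) = 2 * 2 ^ (J + 1) := by ring
  filter_upwards [hall, hKh J, hKB, hKc (1 / 2 ^ (J + 2)) (by positivity) (by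
      rw [hJ22, div_le_div_iff₀ (by positivity) (by norm_num)]
      linarith)] with N h1 h2 h3 h4
  have hd := det hk havg m H J (by omega) (P N) (hPc N) (hPn N)
  set S1 : ℝ := (1 / H : ℝ) * ∑ j ∈ Finset.Ico m (m + H),
    2 * (∫ θ in (0 : ℝ)..(1 / 2), Fj j θ * P N θ) with hS1
  set s : ℕ → ℝ := fun j => 2 * (∫ θ in (0 : ℝ)..(1 / 2), G0 (2 ^ (J + 1) * θ) *
    (Fj j θ * P N θ)) with hs
  set T : ℝ := 2 * (∫ θ in (0 : ℝ)..(1 / 2), (G0 (2 * θ) - G0 (2 ^ (J + 1) * θ)) /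
        (2 * Real.pi ^ 2 * θ ^ 2) * P N θ) with hT
  have hd2 : 1 / (8 * H : ℝ) * (∫ θ in (1 / 2 ^ (J + 2) : ℝ)..(1 / 2), P N θ / θ ^ 3) ≤
      4 * Kc := by
    have h5 : Kc / (1 / 2 ^ (J + 2)) ≤ 32 * H * Kc := by
      rw [div_div_eq_mul_div, div_one, hJ22]
      nlinarith
    calc 1 / (8 * H : ℝ) * (∫ θ in (1 / 2 ^ (J + 2) : ℝ)..(1 / 2), P N θ / θ ^ 3)
        ≤ 1 / (8 * H : ℝ) * (32 * H * Kc) :=
          mul_le_mul_of_nonneg_left (h4.trans h5) (by positivity)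
      _ = 4 * Kc := by
          field_simp
          ring
  set c : ℝ := 1 / Real.pi ^ 2 * Real.log (m * (1 / 2 ^ (J + 1))) with hc
  have hsj : ∀ j ∈ Finset.Ico m (m + H), |s j - c| ≤ Klow + 1 := by
    intro j hj
    have h5 := h1 j hj
    rw [Finset.mem_Ico] at hj
    have hj1 : (m : ℝ) ≤ j := by exact_mod_cast hj.1
    have hj2 : (j : ℝ) ≤ 2 * m := by
      have : (j : ℝ) ≤ m + H := by exact_mod_cast hj.2.le
      linarith
    have h6 : 0 ≤ Real.log (j * (1 / 2 ^ (J + 1))) - Real.log (m * (1 / 2 ^ (J + 1))) := by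
      have := Real.log_le_log (by positivity)
        (mul_le_mul_of_nonneg_right hj1 (by positivity : (0 : ℝ) ≤ 1 / 2 ^ (J + 1)))
      linarith
    have h7 : Real.log (j * (1 / 2 ^ (J + 1))) - Real.log (m * (1 / 2 ^ (J + 1))) ≤ Real.log 2 := by
      have h8 : (j : ℝ) * (1 / 2 ^ (J + 1)) ≤ 2 * (m * (1 / 2 ^ (J + 1))) := by
        have := mul_le_mul_of_nonneg_right hj2 (by positivity : (0 : ℝ) ≤ 1 / 2 ^ (J + 1))
        linarith
      have h9 := Real.log_le_log (mul_pos (by linarith) (by positivity)) h8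
      have h9' : Real.log (2 * (m * (1 / 2 ^ (J + 1)) : ℝ)) =
          Real.log 2 + Real.log (m * (1 / 2 ^ (J + 1))) :=
        Real.log_mul (by norm_num) (by positivity)
      linarith
    have h10 : |1 / Real.pi ^ 2 * Real.log (j * (1 / 2 ^ (J + 1))) - c| ≤ 1 := by
      rw [hc, ← mul_sub, abs_mul, abs_of_nonneg hc0, abs_of_nonneg h6]
      calc 1 / Real.pi ^ 2 * (Real.log (j * (1 / 2 ^ (J + 1))) -
            Real.log (m * (1 / 2 ^ (J + 1)))) ≤ 1 * 1 :=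
            mul_le_mul hc1 (h7.trans hl2) h6 zero_le_one
        _ = 1 := one_mul 1
    have h11 := abs_le.1 h5
    have h12 := abs_le.1 h10
    rw [abs_le]
    constructor
    · linarith [h11.1, h12.1]
    · linarith [h11.2, h12.2]
  have hcard : ((Finset.Ico m (m + H)).card : ℝ) = H := by
    rw [Nat.card_Ico]
    congr 1
    omega
  have hS2 : |(1 / H : ℝ) * ∑ j ∈ Finset.Ico m (m + H), s j - c| ≤ Klow + 1 := by
    have e1 : (1 / H : ℝ) * ∑ j ∈ Finset.Ico m (m + H), s j - c =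
        (1 / H : ℝ) * ∑ j ∈ Finset.Ico m (m + H), (s j - c) := by
      rw [Finset.sum_sub_distrib, Finset.sum_const, nsmul_eq_mul, hcard]
      field_simp
    rw [e1, abs_mul, abs_of_nonneg (by positivity : (0 : ℝ) ≤ 1 / H)]
    have h5 : |∑ j ∈ Finset.Ico m (m + H), (s j - c)| ≤ H * (Klow + 1) := by
      refine (Finset.abs_sum_le_sum_abs _ _).trans ?_
      refine (Finset.sum_le_sum hsj).trans (le_of_eq ?_)
      rw [Finset.sum_const, nsmul_eq_mul, hcard]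
    calc 1 / (H : ℝ) * |∑ j ∈ Finset.Ico m (m + H), (s j - c)| ≤
          1 / (H : ℝ) * (H * (Klow + 1)) := mul_le_mul_of_nonneg_left h5 (by positivity)
      _ = Klow + 1 := by field_simp
  have hlogc : c + 1 / Real.pi ^ 2 * (J * Real.log 2) =
      1 / Real.pi ^ 2 * Real.log m - 1 / Real.pi ^ 2 * Real.log 2 := by
    rw [hc, Real.log_mul hm0.ne' (by positivity), one_div (2 ^ (J + 1) : ℝ), Real.log_inv,
      Real.log_pow]
    push_cast
    ring
  have h13 : 1 / Real.pi ^ 2 * Real.log 2 ≤ 1 := by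
    calc 1 / Real.pi ^ 2 * Real.log 2 ≤ 1 * 1 := mul_le_mul hc1 hl2 hl20 zero_le_one
      _ = 1 := one_mul 1
  have h14 : 0 ≤ 1 / Real.pi ^ 2 * Real.log 2 := mul_nonneg hc0 hl20
  have q1 := abs_le.1 hd
  have q2 := abs_le.1 h2
  have q3 := abs_le.1 hS2
  rw [abs_le]
  constructor
  · linarith [q1.1, q2.1, q3.1]
  · linarith [q1.2, q2.2, q3.2]

end Pool.Agent.H666.LRC.PX779
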