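import Pool.Agent.H666.LRC.Defs4

/-! The sharp cutoff, by monotone approximation. -/

set_option autoImplicit false

open Filter Topology MeasureTheory

namespace Pool.Agent.H666.LRC.PU6

open Pool.Agent.H666.LRC

lemma logb {x : ℝ} (hx : 0 < x) (hx1 : x ≤ 1) :
    x ^ 3 * Real.log (1 / x) ^ 3 ≤ 48 * (x ^ 2 * √x) := by
  have hL : 0 ≤ Real.log (1 / x) := Real.log_nonneg (by rw [le_div_iff₀ hx]; linarith)
  have h1 := Real.pow_div_factorial_le_exp (Real.log (1 / x) / 2) (by positivity) 3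
  rw [Real.exp_half, Real.exp_log (by positivity)] at h1
  have h2 : ((3 : ℕ).factorial : ℝ) = 6 := by norm_num [Nat.factorial]
  rw [h2, div_le_iff₀ (by norm_num), div_pow] at h1
  have h3 : Real.log (1 / x) ^ 3 ≤ 48 * √(1 / x) := by
    have : Real.log (1 / x) ^ 3 = (Real.log (1 / x) ^ 3 / 2 ^ 3) * 8 := by ring
    rw [this]
    linarith
  have h4 : x * √(1 / x) = √x := by
    rw [Real.sqrt_div (by norm_num), Real.sqrt_one, mul_one_div, Real.div_sqrt]
  calc x ^ 3 * Real.log (1 / x) ^ 3 ≤ x ^ 3 * (48 * √(1 / x)) :=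
        mul_le_mul_of_nonneg_left h3 (by positivity)
    _ = 48 * (x ^ 2 * (x * √(1 / x))) := by ring
    _ = 48 * (x ^ 2 * √x) := by rw [h4]

theorem U6 : S_sharp := by
  intro P hPc hP0 hG ε hε
  obtain ⟨η, hηdef⟩ : ∃ η : ℝ, η = min (1 / 4) (ε / 8) := ⟨_, rfl⟩
  have hη0 : 0 < η := by rw [hηdef]; positivity
  have hη1 : η ≤ 1 / 4 := by rw [hηdef]; exact min_le_left _ _
  have hη2 : η ≤ ε / 8 := by rw [hηdef]; exact min_le_right _ _
  obtain ⟨G, hGdef⟩ : ∃ G : ℝ → ℝ, G = fun t => Real.smoothTransition ((1 - t) / η) := ⟨_, rfl⟩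
  have hGc : ContDiff ℝ 2 G := by
    rw [hGdef]
    exact (Real.smoothTransition.contDiff (n := 2)).comp
      ((contDiff_const.sub contDiff_id).div_const η)
  have hG1 : G 1 = 0 := by
    rw [hGdef]
    simp
  have hGone : ∀ t, t ≤ 1 - η → G t = 1 := by
    intro t ht
    rw [hGdef]
    apply Real.smoothTransition.one_of_one_le
    rw [le_div_iff₀ hη0]
    linarith
  have hG0 : ∀ t, 0 ≤ G t := by
    intro t
    rw [hGdef]
    exact Real.smoothTransition.nonneg _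
  have hGle : ∀ t, G t ≤ 1 := by
    intro t
    rw [hGdef]
    exact Real.smoothTransition.le_one _
  have hGcont : Continuous G := hGc.continuous
  obtain ⟨K, hK0, hK⟩ := hG G hGc hG1
  obtain ⟨s, hs⟩ : ∃ s : ℝ, s = ε / (768 * (K + 1)) := ⟨_, rfl⟩
  have hs0 : 0 < s := by rw [hs]; positivity
  refine ⟨min (1 / 4) (s ^ 2), by positivity, ?_⟩
  intro h hh0 hh
  have hh1 : h < 1 / 4 := lt_of_lt_of_le hh (min_le_left _ _)
  have hh2 : h < s ^ 2 := lt_of_lt_of_le hh (min_le_right _ _)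
  have hsq : √h ≤ s := Real.sqrt_le_iff.2 ⟨hs0.le, hh2.le⟩
  have hKs : 384 * K * √h ≤ ε / 2 := by
    have h1 : 384 * K * √h ≤ 384 * (K + 1) * s := by
      have := Real.sqrt_nonneg h
      calc 384 * K * √h ≤ 384 * (K + 1) * √h := by nlinarith
        _ ≤ 384 * (K + 1) * s := mul_le_mul_of_nonneg_left hsq (by positivity)
    have h2 : 384 * (K + 1) * s = ε / 2 := by
      rw [hs]
      field_simp
      norm_num
    linarith
  -- the larger radius
  obtain ⟨h₁, hh₁⟩ : ∃ h₁ : ℝ, h₁ = h / (1 - η) := ⟨_, rfl⟩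
  have hd : 0 < 1 - η := by linarith
  have hmul : h₁ * (1 - η) = h := by rw [hh₁]; field_simp
  have h10 : 0 < h₁ := by rw [hh₁]; positivity
  have h1le : h ≤ h₁ := by nlinarith
  have h12 : h₁ ≤ 2 * h := by nlinarith
  have b1 : K * (h ^ 3 * Real.log (1 / h) ^ 3) ≤ ε / 2 * h ^ 2 := by
    have e1 := logb hh0 (by linarith)
    have e2 := mul_le_mul_of_nonneg_left e1 hK0
    have e3 : 48 * K * √h ≤ ε / 2 := by
      have : 0 ≤ K * √h := by positivity
      linarith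
    calc K * (h ^ 3 * Real.log (1 / h) ^ 3) ≤ K * (48 * (h ^ 2 * √h)) := e2
      _ = (48 * K * √h) * h ^ 2 := by ring
      _ ≤ ε / 2 * h ^ 2 := mul_le_mul_of_nonneg_right e3 (by positivity)
  have b2 : K * (h₁ ^ 3 * Real.log (1 / h₁) ^ 3) ≤ ε / 2 * h ^ 2 := by
    have e1 := logb h10 (by linarith)
    have e2 := mul_le_mul_of_nonneg_left e1 hK0
    have e3 : √h₁ ≤ 2 * √h := by
      rw [Real.sqrt_le_iff]
      refine ⟨by positivity, ?_⟩
      rw [mul_pow, Real.sq_sqrt hh0.le]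
      linarith
    have e4 : h₁ ^ 2 ≤ 4 * h ^ 2 := by nlinarith
    calc K * (h₁ ^ 3 * Real.log (1 / h₁) ^ 3) ≤ K * (48 * (h₁ ^ 2 * √h₁)) := e2
      _ ≤ K * (48 * ((4 * h ^ 2) * (2 * √h))) := by
          refine mul_le_mul_of_nonneg_left ?_ hK0
          refine mul_le_mul_of_nonneg_left ?_ (by norm_num)
          exact mul_le_mul e4 e3 (Real.sqrt_nonneg _) (by positivity)
      _ = (384 * K * √h) * h ^ 2 := by ring
      _ ≤ ε / 2 * h ^ 2 := mul_le_mul_of_nonneg_right hKs (by positivity)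
  filter_upwards [hK h hh0 (by linarith), hK h₁ h10 (by linarith)] with N hN hN1
  have cG : ∀ r : ℝ, Continuous fun θ : ℝ => G (θ / r) := fun r => hGcont.comp (by fun_prop)
  have ii : ∀ {f : ℝ → ℝ} (_ : Continuous f) (a b : ℝ), IntervalIntegrable f volume a b :=
    fun hf a b => hf.intervalIntegrable a b
  have c1 : ∀ r : ℝ, Continuous fun θ : ℝ => G (θ / r) * (P N θ - θ) := fun r =>
    (cG r).mul ((hPc N).sub continuous_id)
  have c2 : ∀ r : ℝ, Continuous fun θ : ℝ => G (θ / r) * θ := fun r => (cG r).mul continuous_id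
  have c3 : ∀ r : ℝ, Continuous fun θ : ℝ => G (θ / r) * P N θ := fun r => (cG r).mul (hPc N)
  -- splitting
  have split : ∀ r : ℝ, ∫ θ in (0 : ℝ)..r, G (θ / r) * P N θ =
      (∫ θ in (0 : ℝ)..r, G (θ / r) * (P N θ - θ)) + ∫ θ in (0 : ℝ)..r, G (θ / r) * θ := by
    intro r
    rw [← intervalIntegral.integral_add (ii (c1 r) 0 r) (ii (c2 r) 0 r)]
    refine intervalIntegral.integral_congr fun θ _ => ?_
    ring
  -- lower bound
  have low : h ^ 2 / 2 - ε * h ^ 2 ≤ ∫ θ in (0 : ℝ)..h, P N θ := by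
    have l1 : ∫ θ in (0 : ℝ)..h, G (θ / h) * P N θ ≤ ∫ θ in (0 : ℝ)..h, P N θ := by
      refine intervalIntegral.integral_mono_on hh0.le (ii (c3 h) 0 h)
        (ii (hPc N) 0 h) fun θ _ => ?_
      have := mul_le_mul_of_nonneg_right (hGle (θ / h)) (hP0 N θ)
      rwa [one_mul] at this
    have l2 : ((1 - η) * h) ^ 2 / 2 ≤ ∫ θ in (0 : ℝ)..h, G (θ / h) * θ := by
      have s1 := intervalIntegral.integral_add_adjacent_intervals
        (ii (c2 h) 0 ((1 - η) * h)) (ii (c2 h) ((1 - η) * h) h)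
      have s2 : ∫ θ in (0 : ℝ)..((1 - η) * h), G (θ / h) * θ = ((1 - η) * h) ^ 2 / 2 := by
        have : ∫ θ in (0 : ℝ)..((1 - η) * h), G (θ / h) * θ = ∫ θ in (0 : ℝ)..((1 - η) * h), θ := by
          refine intervalIntegral.integral_congr fun θ hθ => ?_
          rw [Set.uIcc_of_le (by positivity)] at hθ
          rw [hGone (θ / h) (by rw [div_le_iff₀ hh0]; exact hθ.2), one_mul]
        rw [this, integral_id]
        ring
      have s3 : 0 ≤ ∫ θ in ((1 - η) * h)..h, G (θ / h) * θ := by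
        refine intervalIntegral.integral_nonneg (by nlinarith) fun θ hθ => ?_
        have : 0 ≤ θ := le_trans (by positivity) hθ.1
        exact mul_nonneg (hG0 _) this
      rw [s2] at s1
      linarith
    have l3 := split h
    have l4 := (abs_le.1 hN).1
    have l5 : h ^ 2 / 2 - ε / 2 * h ^ 2 ≤ ((1 - η) * h) ^ 2 / 2 := by
      have : 0 ≤ h ^ 2 := sq_nonneg h
      have e1 : ((1 - η) * h) ^ 2 / 2 = h ^ 2 / 2 - (η - η ^ 2 / 2) * h ^ 2 := by ring
      rw [e1]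
      have e2 : (η - η ^ 2 / 2) * h ^ 2 ≤ ε / 2 * h ^ 2 := by
        refine mul_le_mul_of_nonneg_right ?_ this
        nlinarith [sq_nonneg η]
      linarith
    linarith
  -- upper bound
  have upp : ∫ θ in (0 : ℝ)..h, P N θ ≤ h ^ 2 / 2 + ε * h ^ 2 := by
    have u1 : ∫ θ in (0 : ℝ)..h, P N θ = ∫ θ in (0 : ℝ)..h, G (θ / h₁) * P N θ := by
      refine intervalIntegral.integral_congr fun θ hθ => ?_
      rw [Set.uIcc_of_le hh0.le] at hθ
      rw [hGone (θ / h₁) (by rw [div_le_iff₀ h10, mul_comm, hmul]; exact hθ.2), one_mul]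
    have u2 : ∫ θ in (0 : ℝ)..h, G (θ / h₁) * P N θ ≤ ∫ θ in (0 : ℝ)..h₁, G (θ / h₁) * P N θ := by
      have s1 := intervalIntegral.integral_add_adjacent_intervals
        (ii (c3 h₁) 0 h) (ii (c3 h₁) h h₁)
      have s3 : 0 ≤ ∫ θ in h..h₁, G (θ / h₁) * P N θ :=
        intervalIntegral.integral_nonneg h1le fun θ _ => mul_nonneg (hG0 _) (hP0 _ _)
      linarith
    have u3 : ∫ θ in (0 : ℝ)..h₁, G (θ / h₁) * θ ≤ h₁ ^ 2 / 2 := by
      have s1 : ∫ θ in (0 : ℝ)..h₁, G (θ / h₁) * θ ≤ ∫ θ in (0 : ℝ)..h₁, θ := by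
        refine intervalIntegral.integral_mono_on h10.le (ii (c2 h₁) 0 h₁)
          (ii continuous_id 0 h₁) fun θ hθ => ?_
        have := mul_le_mul_of_nonneg_right (hGle (θ / h₁)) hθ.1
        rwa [one_mul] at this
      rw [integral_id] at s1
      linarith
    have u4 := split h₁
    have u5 := (abs_le.1 hN1).2
    have u6 : h₁ ^ 2 / 2 ≤ h ^ 2 / 2 + ε / 2 * h ^ 2 := by
      have e1 : h ^ 2 = h₁ ^ 2 * (1 - η) ^ 2 := by rw [← hmul]; ring
      have e2 : h₁ ^ 2 ≤ 4 * h ^ 2 := by nlinarith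
      have e3 : h₁ ^ 2 - h ^ 2 = h₁ ^ 2 * (2 * η - η ^ 2) := by rw [e1]; ring
      have e4 : h₁ ^ 2 * (2 * η - η ^ 2) ≤ (4 * h ^ 2) * (2 * η) := by
        refine mul_le_mul e2 (by nlinarith [sq_nonneg η]) (by nlinarith) (by positivity)
      have e5 : (4 * h ^ 2) * (2 * η) ≤ ε * h ^ 2 := by nlinarith [sq_nonneg h]
      linarith
    linarith
  rw [abs_le]
  constructor <;> linarith

end Pool.Agent.H666.LRC.PU6
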